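import Pool.Agent.helper21.GN.Nonneg

/-! The genus formula with all ramified places. -/

namespace WildTA

open Polynomial WildRat WildS WildV WildG

variable {K : Type} [Field K] [Algebra ℂ K]

/-- **The genus formula for a reduced basis, with all ramified places.**

Proof.  Copy the proof of `RB.sum` (helper21/GN/Sum.lean).  There `T` is the union of the fibres over the
finite set `A` of `residues`, which contains all `a` with `r a ≠ 0`, and of the fibre over infinity.  If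
`ram φ P ≠ 1` and `P` lies over the finite point `a`, then `r a = ∑ (ram - 1) / 2 > 0` (`ram_pos`), so `a ∈ A` and
`P ∈ T`. -/
theorem RB_sum_all {φ : E →ₐ[ℂ] K} (hφ : FinC φ) {n : ℕ} {b : Fin n → K} {d : Fin n → ℕ}
    (h : RB φ b d) : ∃ T : Finset (Pl K), (∀ P, ram φ P ≠ 1 → P ∈ T) ∧
      2 * ∑ i, (d i : ℤ) = ∑ P ∈ T, (ram φ P - 1) := by
  classical
  have hφ' : FinC (φ.comp invE) := finC_comp hφ finC_invE
  obtain ⟨D, hD, -⟩ := exists_deriv φ hφ
  have hM0 : ∀ i, ∃ q : Fin n → E, D (b i) = ∑ j, φ (q j) * b j := fun i =>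
    LB.coord hφ (h.gb.lb hφ 0) (D (b i))
  choose M hM using hM0
  set x : K := φ RatFunc.X with hx
  have hx0 : x ≠ 0 := by
    have := coord_sub_ne φ 0
    rwa [map_zero, sub_zero] at this
  have hφX : (φ.comp invE) RatFunc.X = x⁻¹ := by
    rw [AlgHom.comp_apply, invE_X, map_inv₀]
  have hφi : ∀ w, (φ.comp invE) (invE w) = φ w := by
    intro w
    rw [AlgHom.comp_apply, invE_invE]
  let D' : Derivation ℂ K K := (-x ^ 2) • D
  have hD'a : ∀ u, D' u = -x ^ 2 * D u := fun u => rfl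
  have hD' : D' ((φ.comp invE) RatFunc.X) = 1 := by
    have h1 := Sum_deriv_inv_pow hx0 D hD 1
    rw [pow_one] at h1
    have h2 : x ^ 2 * x⁻¹ ^ 2 = 1 := by
      rw [← mul_pow, mul_inv_cancel₀ hx0, one_pow]
    rw [hφX, hD'a, h1]
    push_cast
    linear_combination h2
  let M' : Fin n → Fin n → E := fun i j =>
    invE ((if i = j then (d i : E) * RatFunc.X else 0) -
      RatFunc.X ^ 2 * (RatFunc.X⁻¹ ^ d i * RatFunc.X ^ d j * M i j))
  have hM' : ∀ i, D' (x⁻¹ ^ d i * b i) =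
      ∑ j, (φ.comp invE) (M' i j) * (x⁻¹ ^ d j * b j) := by
    intro i
    have h1 : ∀ j, (φ.comp invE) (M' i j) * (x⁻¹ ^ d j * b j) =
        (if i = j then (d i : K) * x * (x⁻¹ ^ d j * b j) else 0) -
          x ^ 2 * x⁻¹ ^ d i * (φ (M i j) * b j) := by
      intro j
      simp only [M']
      rw [hφi]
      rw [map_sub, map_mul, map_mul, map_mul, map_pow, map_pow, map_pow, map_inv₀, ← hx]
      have h2 : x ^ d j * x⁻¹ ^ d j = 1 := by
        rw [← mul_pow, mul_inv_cancel₀ hx0, one_pow]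
      have h3 : φ (if i = j then (d i : E) * RatFunc.X else 0) =
          if i = j then (d i : K) * x else 0 := by
        split_ifs
        · rw [map_mul, map_natCast]
        · rw [map_zero]
      rw [h3]
      split_ifs
      · linear_combination (-(x ^ 2 * x⁻¹ ^ d i * φ (M i j) * b j)) * h2
      · linear_combination (-(x ^ 2 * x⁻¹ ^ d i * φ (M i j) * b j)) * h2
    rw [Finset.sum_congr rfl fun j _ => h1 j, Finset.sum_sub_distrib, Finset.sum_ite_eq,
      if_pos (Finset.mem_univ i), ← Finset.mul_sum, ← hM i, hD'a, D.leibniz,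
      Sum_deriv_inv_pow hx0 D hD, smul_eq_mul, smul_eq_mul, pow_succ]
    have h4 : x * x⁻¹ = 1 := mul_inv_cancel₀ hx0
    linear_combination (b i * (d i : K) * x⁻¹ ^ d i * x) * h4
  let r : ℂ → ℂ := fun a => ∑ P ∈ fibS φ hφ a, ((ram φ P : ℂ) - 1) / 2
  let r' : ℂ := ∑ P ∈ fibS (φ.comp invE) hφ' 0, ((ram (φ.comp invE) P : ℂ) - 1) / 2
  have hr : ∀ a, (RatFunc.X - algebraMap ℂ E a) * ∑ i, M i i = algebraMap ℂ E (r a) ∨
      0 < (plE a).ord ((RatFunc.X - algebraMap ℂ E a) * ∑ i, M i i - algebraMap ℂ E (r a)) :=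
    fun a => res_basis hφ D hD (h.gb.lb hφ a) hM
  have hinf := Sum_of_or (res_basis hφ' D' hD' (h.inf hφ) hM')
  have htr : (RatFunc.X - algebraMap ℂ E 0) * ∑ i, M' i i =
      algebraMap ℂ E (∑ i, (d i : ℂ)) - invE (RatFunc.X * ∑ i, M i i) := by
    have hX : (RatFunc.X : E) ≠ 0 := RatFunc.X_ne_zero
    have h1 : ∀ i, M' i i = invE ((d i : E) * RatFunc.X - RatFunc.X ^ 2 * M i i) := by
      intro i
      simp only [M', if_true]
      have h2 : (RatFunc.X : E)⁻¹ ^ d i * RatFunc.X ^ d i = 1 := by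
        rw [← mul_pow, inv_mul_cancel₀ hX, one_pow]
      rw [h2, one_mul]
    have h3 : (RatFunc.X : E) = invE (RatFunc.X⁻¹) := by
      rw [map_inv₀, invE_X, inv_inv]
    rw [Finset.sum_congr rfl fun i _ => h1 i, map_zero, sub_zero]
    nth_rewrite 1 [h3]
    rw [← map_sum, ← map_mul, Finset.mul_sum]
    have h4 : ∀ i, (RatFunc.X : E)⁻¹ * ((d i : E) * RatFunc.X - RatFunc.X ^ 2 * M i i) =
        (d i : E) - RatFunc.X * M i i := by
      intro i
      field_simp
    rw [Finset.sum_congr rfl fun i _ => h4 i, Finset.sum_sub_distrib, map_sub, ← Finset.mul_sum]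
    congr 1
    rw [map_sum, map_sum]
    refine Finset.sum_congr rfl fun i _ => ?_
    rw [map_natCast, map_natCast]
  have hs : invE (RatFunc.X * ∑ i, M i i) = algebraMap ℂ E (∑ i, (d i : ℂ) - r') ∨
      0 < (plE 0).ord (invE (RatFunc.X * ∑ i, M i i) - algebraMap ℂ E (∑ i, (d i : ℂ) - r')) := by
    refine Sum_or_of ?_
    rw [htr] at hinf
    have h1 := hinf.neg
    have h2 : -(algebraMap ℂ E (∑ i, (d i : ℂ)) - invE (RatFunc.X * ∑ i, M i i) -
        algebraMap ℂ E r') =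
        invE (RatFunc.X * ∑ i, M i i) - algebraMap ℂ E (∑ i, (d i : ℂ) - r') := by
      rw [map_sub]
      ring
    rw [h2] at h1
    exact h1
  obtain ⟨A, hA, hAs⟩ := residues r hr hs
  have memi : ∀ P : Pl K, P ∈ fibS (φ.comp invE) hφ' 0 ↔ P.ord (φ RatFunc.X) < 0 := fun P => by
    rw [mem_fibS]
    exact mem_fib_inv φ P
  have hdis : Disjoint (A.biUnion fun a => fibS φ hφ a) (fibS (φ.comp invE) hφ' 0) := by
    rw [Finset.disjoint_left]
    intro P hP hP'
    obtain ⟨a, -, ha⟩ := Finset.mem_biUnion.1 hP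
    rw [mem_fibS] at ha
    have h1 : 0 ≤ P.ord (φ RatFunc.X) := P.ord_nonneg_of_value ha
    have h2 := (memi P).1 hP'
    omega
  have hall : ∀ P, ram φ P ≠ 1 →
      P ∈ (A.biUnion fun a => fibS φ hφ a) ∪ fibS (φ.comp invE) hφ' 0 := by
    intro P hP
    rw [Finset.mem_union]
    rcases lt_or_ge (P.ord (φ RatFunc.X)) 0 with hP1 | hP1
    · exact Or.inr ((memi P).2 hP1)
    left
    obtain ⟨a, ha⟩ := exists_value φ hφ P hP1
    refine Finset.mem_biUnion.2 ⟨a, hA a ?_, mem_fibS.2 ha⟩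
    intro hra
    have h1 : ((∑ Q ∈ fibS φ hφ a, (ram φ Q - 1) : ℤ) : ℂ) = 0 := by
      push_cast
      have h2 : ∑ Q ∈ fibS φ hφ a, ((ram φ Q : ℂ) - 1) = 2 * r a := by
        simp only [r]
        rw [Finset.mul_sum]
        refine Finset.sum_congr rfl fun Q _ => ?_
        ring
      rw [h2, hra, mul_zero]
    have h2 : ∑ Q ∈ fibS φ hφ a, (ram φ Q - 1) = 0 := by exact_mod_cast h1
    have h3 := (Finset.sum_eq_zero_iff_of_nonneg (s := fibS φ hφ a)
      (f := fun Q => ram φ Q - 1) fun Q _ => by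
        have := ram_pos hφ Q
        omega).1 h2 P (mem_fibS.2 ha)
    apply hP
    have h4 : ram φ P - 1 = 0 := h3
    omega
  refine ⟨(A.biUnion fun a => fibS φ hφ a) ∪ fibS (φ.comp invE) hφ' 0, hall, ?_⟩
  have hinj : ((2 * ∑ i, (d i : ℤ) : ℤ) : ℂ) =
      ((∑ P ∈ (A.biUnion fun a => fibS φ hφ a) ∪ fibS (φ.comp invE) hφ' 0, (ram φ P - 1) : ℤ) : ℂ) := by
    rw [Finset.sum_union hdis, Finset.sum_biUnion]
    · push_cast
      have h1 : ∀ a, ∑ P ∈ fibS φ hφ a, ((ram φ P : ℂ) - 1) = 2 * r a := by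
        intro a
        simp only [r]
        rw [Finset.mul_sum]
        refine Finset.sum_congr rfl fun P _ => ?_
        ring
      have h2 : ∑ P ∈ fibS (φ.comp invE) hφ' 0, ((ram φ P : ℂ) - 1) = 2 * r' := by
        simp only [r']
        rw [Finset.mul_sum]
        refine Finset.sum_congr rfl fun P _ => ?_
        rw [ram_inv hφ P]
        ring
      rw [Finset.sum_congr rfl fun a _ => h1 a, h2, ← Finset.mul_sum, hAs]
      ring
    · intro a _ a' _ haa
      rw [Function.onFun, Finset.disjoint_left]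
      intro P hP hP'
      rw [mem_fibS] at hP hP'
      exact haa (P.value_unique hP hP')
  exact_mod_cast hinj

/-- **The genus formula.**  There are finitely many ramified places, and `∑ (ram - 1) - 2 deg = 2 k` with an
integer `k ≥ -1`.  Proof: `exists_RB`, `RB_sum_all`, `∑ d i ≥ deg φ - 1` (`RB_zero`, as in
`genus_nonneg`). -/
theorem genus_all {φ : E →ₐ[ℂ] K} (hφ : FinC φ) :
    ∃ (T : Finset (Pl K)) (k : ℤ), (∀ P, ram φ P ≠ 1 → P ∈ T) ∧ -1 ≤ k ∧
      ∑ P ∈ T, (ram φ P - 1) = 2 * (deg φ : ℤ) + 2 * k := by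
  classical
  obtain ⟨b, d, hb⟩ := exists_RB φ hφ
  obtain ⟨T, hT, hs⟩ := RB_sum_all hφ hb
  have h1 : deg φ ≤ (∑ i, d i) + 1 := by
    have h2 : (Finset.univ.filter fun i => d i = 0).card ≤ 1 := by
      rw [Finset.card_le_one]
      intro i hi j hj
      exact RB_zero hφ hb (Finset.mem_filter.1 hi).2 (Finset.mem_filter.1 hj).2
    have h3 : ∑ i : Fin (deg φ), 1 ≤ ∑ i, (d i + if d i = 0 then 1 else 0) :=
      Finset.sum_le_sum fun i _ => by
        by_cases h4 : d i = 0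
        · rw [if_pos h4]
          omega
        · rw [if_neg h4]
          omega
    rw [Finset.sum_add_distrib, Finset.sum_const, Finset.card_univ, Fintype.card_fin,
      smul_eq_mul, mul_one, ← Finset.card_filter] at h3
    omega
  have h2 : (deg φ : ℤ) ≤ (∑ i, (d i : ℤ)) + 1 := by exact_mod_cast h1
  refine ⟨T, ∑ i, (d i : ℤ) - deg φ, hT, by linarith, ?_⟩
  rw [← hs]
  ring

/-- The sum does not depend on the set, as long as it contains all ramified places. -/
theorem sum_ram_eq {φ : E →ₐ[ℂ] K} {T T' : Finset (Pl K)} (hT : ∀ P, ram φ P ≠ 1 → P ∈ T)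
    (hT' : ∀ P, ram φ P ≠ 1 → P ∈ T') :
    ∑ P ∈ T, (ram φ P - 1) = ∑ P ∈ T', (ram φ P - 1) := by
  classical
  have key : ∀ {U : Finset (Pl K)}, (∀ P, ram φ P ≠ 1 → P ∈ U) →
      ∀ V : Finset (Pl K), U ⊆ V → ∑ P ∈ U, (ram φ P - 1) = ∑ P ∈ V, (ram φ P - 1) := by
    intro U hU V hUV
    refine Finset.sum_subset hUV fun P _ hP => ?_
    by_contra h
    exact hP (hU P fun h1 => h (by rw [h1]; norm_num))
  rw [key hT (T ∪ T') Finset.subset_union_left, key hT' (T ∪ T') Finset.subset_union_right]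

/-- Two coordinates have the same number `∑ (ram - 1) - 2 deg`.  Proof: `ram_invariance` with
`T0 = T ∪ T'`, `sum_ram_eq`. -/
theorem sum_ram_coord {φ ψ : E →ₐ[ℂ] K} (hφ : FinC φ) {T T' : Finset (Pl K)}
    (hT : ∀ P, ram φ P ≠ 1 → P ∈ T) (hT' : ∀ P, ram ψ P ≠ 1 → P ∈ T') :
    ∑ P ∈ T, (ram φ P - 1) - 2 * (deg φ : ℤ) = ∑ P ∈ T', (ram ψ P - 1) - 2 * (deg ψ : ℤ) := by
  classical
  obtain ⟨S, hS, hSe⟩ := ram_invariance (ψ := ψ) hφ (T ∪ T')
  rw [sum_ram_eq hT (T' := S) fun P hP => hS (Finset.mem_union_left _ (hT P hP)),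
    sum_ram_eq hT' (T' := S) fun P hP => hS (Finset.mem_union_right _ (hT' P hP))]
  exact hSe.symm

/-- `GenusLe` in terms of a set containing all ramified places.  Proof: `ram_pos`. -/
theorem genusLe_iff {φ : E →ₐ[ℂ] K} (hφ : FinC φ) {T : Finset (Pl K)}
    (hT : ∀ P, ram φ P ≠ 1 → P ∈ T) :
    GenusLe φ ↔ ∑ P ∈ T, (ram φ P - 1) ≤ 2 * (deg φ : ℤ) := by
  classical
  constructor
  · intro h
    exact h T
  · intro h T0
    have h1 : ∑ P ∈ T0, (ram φ P - 1) ≤ ∑ P ∈ T0 ∪ T, (ram φ P - 1) := by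
      apply Finset.sum_le_sum_of_subset_of_nonneg Finset.subset_union_left
      intro P _ _
      have := ram_pos hφ P
      omega
    rw [sum_ram_eq (T := T0 ∪ T) (fun P hP => Finset.mem_union_right _ (hT P hP)) hT] at h1
    exact h1.trans h

end WildTA
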