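import Pool.Agent.helper44.TA.Cnt
import Pool.Agent.helper44.TA.Rh
import Pool.Agent.helper44.TG.ChiA

/-! The Euler number of a subgroup is `2 g - 2` of its fixed field. -/

namespace WildTA

open Polynomial WildRat WildS WildV WildG WildH MulAction WildT

variable {N : Type} [Field N] [Algebra ℂ N] [Algebra E N] [IsScalarTower ℂ E N]
  [FiniteDimensional E N] [IsGalois E N] {R : Finset ℂ} {σ : ℂ → (N ≃ₐ[E] N)} {Q : ℂ → Pl N}

/-- The ramification of `t` on the fixed field over a point: `∑ (ram - 1)` over the places over `c` is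
`deg - number of places = (∑ g, (1 - 1 / period (σ c) (g J))) / card J`.

Proof.  `sum_pt`, `cnt` (the set of the places over `some c` is the coercion of the finset `S`), `deg_J`:
`deg (cJ J) = card G / card J = (∑ g, 1) / card J`. -/
theorem chi_pt (h : Inr R σ Q) (J : Subgroup (N ≃ₐ[E] N)) (c : ℂ) :
    ∃ S : Finset (Pl (FJ J)), (∀ P, P ∈ S ↔ Pt (cJ J) P (some c)) ∧
      ((∑ P ∈ S, (ram (cJ J) P - 1) : ℤ) : ℚ) =
        (∑ g : N ≃ₐ[E] N, (1 - 1 / (period (σ c) (g : (N ≃ₐ[E] N) ⧸ J) : ℚ))) / Nat.card J := by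
  obtain ⟨S, hS, hsum⟩ := sum_pt (finC_J J) (some c)
  refine ⟨S, hS, ?_⟩
  have h1 := cnt (h.pt c) (h.dec c) J
  have h2 : {P : Pl (FJ J) | Pt (cJ J) P (some c)} = (S : Set (Pl (FJ J))) := by
    ext P
    exact (hS P).symm
  rw [h2, Set.ncard_coe_finset] at h1
  have h3 := congrArg (Nat.cast : ℕ → ℚ) (deg_J J)
  rw [Nat.cast_mul] at h3
  have h4 : (Nat.card J : ℚ) ≠ 0 := by
    exact_mod_cast (Nat.card_pos (α := J)).ne'
  have h5 : ((∑ P ∈ S, (ram (cJ J) P - 1) : ℤ) : ℚ) = (deg (cJ J) : ℚ) - (S.card : ℚ) := by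
    rw [Finset.sum_sub_distrib, hsum, Finset.sum_const, nsmul_eq_mul, mul_one]
    push_cast
    ring
  rw [h5, h1, Finset.sum_sub_distrib, sub_div, Finset.sum_const, nsmul_eq_mul, mul_one,
    Finset.card_univ, ← Nat.card_eq_fintype_card, ← h3, mul_div_assoc, div_self h4, mul_one]

/-- Outside `R` everything is unramified.

Proof.  If `P` lies over `some c`, `c ∉ R`: `σ c = 1` (`unr`), so the right side of `chi_pt` is zero (the period of
the identity is one), and all terms on the left are nonnegative (`ram_pos`).  If `P` lies over infinity: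
take `Q'` with `rJ J Q' = P` (`rJ_surj`); its stabilizer is trivial (`inf`), `ram_N` with `σ = 1` gives
`ram (cN N) Q' = 1`, and `rJ_ram` gives `ram (cJ J) P = 1`.  (This argument works in the first case too.) -/
theorem chi_unr (h : Inr R σ Q) (J : Subgroup (N ≃ₐ[E] N)) {P : Pl (FJ J)}
    (hP : ram (cJ J) P ≠ 1) : ∃ c ∈ R, Pt (cJ J) P (some c) := by
  obtain ⟨Q', hQ'⟩ := rJ_surj J P
  obtain ⟨p, hp⟩ := exists_Pt (finC_N (N := N)) Q'
  have key : ram (cN N) Q' = 1 → False := by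
    intro h1
    have h2 := rJ_ram J Q'
    rw [h1, hQ'] at h2
    have h3 := (rJ_spec J Q').1
    have h4 := ram_pos (finC_J J) P
    have h5 : (1 : ℤ) ≤ eJ J Q' := by exact_mod_cast h3
    apply hP
    nlinarith
  cases p with
  | none =>
    exfalso
    apply key
    rw [ram_N hp (σ := 1), orderOf_one]
    · rfl
    · intro g
      rw [Subgroup.zpowers_one_eq_bot, Subgroup.mem_bot]
      constructor
      · exact h.inf Q' hp g
      · rintro rfl
        exact one_smul _ _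
  | some c =>
    by_cases hc : c ∈ R
    · refine ⟨c, hc, ?_⟩
      rw [← hQ', rJ_pt]
      exact hp
    · exfalso
      apply key
      obtain ⟨g, hg⟩ := N_trans (h.pt c) hp
      rw [← hg, act_ram, ram_N (h.pt c) (h.dec c), h.unr c hc, orderOf_one]
      rfl

/-- **The exact formula.**

Proof.  `chiJ = (∑ g, (∑ c ∈ R, (1 - 1 / period) - 2)) / card J`; exchange the sums; `chi_pt` for the `c ∈ R`
(the sets `S` for different `c` are disjoint, `Pt_unique`); `card G / card J = deg (cJ J)` (`deg_J`); by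
`chi_unr` the union of these sets contains all ramified places; `sum_ram_eq`. -/
theorem chi_eq (h : Inr R σ Q) (J : Subgroup (N ≃ₐ[E] N)) {T : Finset (Pl (FJ J))}
    (hT : ∀ P, ram (cJ J) P ≠ 1 → P ∈ T) :
    chiJ R σ J = ((∑ P ∈ T, (ram (cJ J) P - 1) - 2 * (deg (cJ J) : ℤ) : ℤ) : ℚ) := by
  classical
  choose S hS hsum using chi_pt h J
  have hU : ∀ P, ram (cJ J) P ≠ 1 → P ∈ R.biUnion S := by
    intro P hP
    obtain ⟨c, hc, hPc⟩ := chi_unr h J hP
    exact Finset.mem_biUnion.2 ⟨c, hc, (hS c P).2 hPc⟩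
  have hdis : (R : Set ℂ).PairwiseDisjoint S := by
    intro c _ c' _ hne
    rw [Function.onFun, Finset.disjoint_left]
    intro P hP hP'
    apply hne
    have h1 := Pt_unique ((hS c P).1 hP) ((hS c' P).1 hP')
    exact Option.some_injective _ h1
  rw [sum_ram_eq hT hU, Finset.sum_biUnion hdis]
  have h4 : (Nat.card J : ℚ) ≠ 0 := by
    exact_mod_cast (Nat.card_pos (α := J)).ne'
  have h3 := congrArg (Nat.cast : ℕ → ℚ) (deg_J J)
  rw [Nat.cast_mul] at h3
  have h5 : ((∑ c ∈ R, ∑ P ∈ S c, (ram (cJ J) P - 1) : ℤ) : ℚ) =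
      ∑ c ∈ R, (∑ g : N ≃ₐ[E] N, (1 - 1 / (period (σ c) (g : (N ≃ₐ[E] N) ⧸ J) : ℚ))) /
        Nat.card J := by
    rw [Int.cast_sum]
    exact Finset.sum_congr rfl fun c _ => hsum c
  rw [Int.cast_sub, h5, ← Finset.sum_div, Finset.sum_comm]
  unfold chiJ exz
  rw [Finset.sum_sub_distrib, sub_div, Finset.sum_const, nsmul_eq_mul, Finset.card_univ,
    ← Nat.card_eq_fintype_card, ← h3]
  congr 1
  push_cast
  field_simp

/-- **Parity.**  Proof: `genus_all`, `chi_eq`. -/
theorem chi_even (h : Inr R σ Q) (J : Subgroup (N ≃ₐ[E] N)) :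
    ∃ k : ℤ, -1 ≤ k ∧ chiJ R σ J = 2 * k := by
  obtain ⟨T, k, hT, hk, hs⟩ := genus_all (finC_J J)
  refine ⟨k, hk, ?_⟩
  rw [chi_eq h J hT, hs]
  push_cast
  ring

/-- Any other coordinate.  Proof: `chi_eq`, `genus_all` for a set `T0` with all ramified places of `cJ J`,
`sum_ram_coord`. -/
theorem chi_coord (h : Inr R σ Q) (J : Subgroup (N ≃ₐ[E] N)) (ψ : E →ₐ[ℂ] FJ J)
    {T : Finset (Pl (FJ J))} (hT : ∀ P, ram ψ P ≠ 1 → P ∈ T) :
    chiJ R σ J = ((∑ P ∈ T, (ram ψ P - 1) - 2 * (deg ψ : ℤ) : ℤ) : ℚ) := by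
  obtain ⟨T0, k, hT0, -, -⟩ := genus_all (finC_J J)
  rw [chi_eq h J hT0, sum_ram_coord (finC_J J) hT0 hT]

/-- Genus at most one.  Proof: `chi_coord`, `genusLe_iff`, `genus_all` (a finite set with all ramified
places of `ψ` exists; `ψ` is finite by `finC_all`). -/
theorem chi_genus (h : Inr R σ Q) (J : Subgroup (N ≃ₐ[E] N)) (ψ : E →ₐ[ℂ] FJ J) :
    chiJ R σ J ≤ 0 ↔ GenusLe ψ := by
  have hψ : FinC ψ := finC_all (cJ J) (finC_J J) ψ
  obtain ⟨T, k, hT, -, -⟩ := genus_all hψ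
  rw [genusLe_iff hψ hT, chi_coord h J ψ hT, Int.cast_nonpos]
  constructor
  · intro h1
    linarith
  · intro h1
    linarith

end WildTA
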