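import Pool.Agent.helper44.TG.Defs

/-! Counting orbits of a subgroup on a transitive set (double cosets). -/

namespace WildTA

open MulAction

theorem Dbl_fib {G : Type} [Group G] [Fintype G] (σ : G) (J : Subgroup G) (q : G ⧸ J) :
    Nat.card ((QuotientGroup.mk : G → G ⧸ J) ⁻¹' (orbit (Subgroup.zpowers σ) q) : Set G) =
      period σ q * Nat.card J := by
  classical
  rw [Nat.card_congr (QuotientGroup.preimageMkEquivSubgroupProdSet J _), Nat.card_prod, mul_comm]
  congr 1
  have : Fintype (orbit (Subgroup.zpowers σ) q) := Fintype.ofFinite _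
  rw [period, minimalPeriod_eq_card, Nat.card_eq_fintype_card]
  exact Fintype.card_congr (Equiv.refl _)

/-- **Double cosets.**  `X` a `G`-set, `Q ∈ X` with stabilizer generated by `σ`, `J` a subgroup, `S` a set which
parametrises the `J`-orbits on the orbit of `Q` through `π`.  The number of the elements of `S` is the
number of the orbits of `σ` on `G ⧸ J`, which is `(∑ g, 1 / period σ (g J)) / card J`.

Proof.  Let `D = zpowers σ`.  `period σ (g J) = card D / card (D ∩ g J g⁻¹)` (the orbit of `g J` under `D` has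
`period` elements).  So the right side is `(1 / (card D card J)) ∑ g, card (D ∩ g J g⁻¹)`.
The left side is the number of the `J`-orbits on the orbit `X0 = G Q`: `∑ x ∈ X0, 1 / card (J x)`, and
`card (J x) = card J / card (J ∩ stabilizer x)`, `x = g Q`, `stabilizer x = g D g⁻¹`, every `x` is
`g Q` for `card D` elements `g`: `(1 / (card J card D)) ∑ g, card (J ∩ g D g⁻¹)`.  The substitution `g ↦ g⁻¹`
gives the equality. -/
theorem dbl {G : Type} [Group G] [Fintype G] {X : Type} [MulAction G X] {Q : X} {σ : G}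
    (hσ : ∀ g : G, g • Q = Q ↔ g ∈ Subgroup.zpowers σ) (J : Subgroup G) {P : Type} (S : Set P)
    (π : X → P) (hS : ∀ p, p ∈ S ↔ ∃ g : G, π (g • Q) = p)
    (hsep : ∀ g h : G, π (g • Q) = π (h • Q) ↔ ∃ j ∈ J, j • g • Q = h • Q) :
    (S.ncard : ℚ) = (∑ g : G, 1 / (period σ (g : G ⧸ J) : ℚ)) / Nat.card J := by
  classical
  obtain ⟨φ, hφ⟩ : ∃ φ : G → P, φ = fun g => π (g • Q) := ⟨_, rfl⟩
  have hSφ : S = ((Finset.univ.image φ : Finset P) : Set P) := by
    ext p
    rw [hS, Finset.coe_image, Finset.coe_univ, Set.image_univ, Set.mem_range, hφ]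
  have hfib : ∀ g : G, (Finset.univ.filter fun h => φ h = φ g).card =
      period σ ((g⁻¹ : G) : G ⧸ J) * Nat.card J := by
    intro g
    rw [← Dbl_fib, ← Fintype.card_subtype, ← Nat.card_eq_fintype_card]
    refine Nat.card_congr ((Equiv.inv G).subtypeEquiv fun h => ?_)
    rw [Equiv.inv_apply, Set.mem_preimage, mem_orbit_iff, eq_comm, hφ]
    simp only
    rw [hsep]
    constructor
    · rintro ⟨j, hj, hjQ⟩
      have h1 : (h⁻¹ * j * g) • Q = Q := by
        rw [mul_smul, mul_smul, hjQ, inv_smul_smul]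
      refine ⟨⟨h⁻¹ * j * g, (hσ _).1 h1⟩, ?_⟩
      change (h⁻¹ * j * g) • ((g⁻¹ : G) : G ⧸ J) = ((h⁻¹ : G) : G ⧸ J)
      rw [MulAction.Quotient.smul_mk, QuotientGroup.eq, smul_eq_mul]
      have h2 : (h⁻¹ * j * g * g⁻¹)⁻¹ * h⁻¹ = j⁻¹ := by group
      rw [h2]
      exact J.inv_mem hj
    · rintro ⟨⟨d, hd⟩, hdq⟩
      change d • ((g⁻¹ : G) : G ⧸ J) = ((h⁻¹ : G) : G ⧸ J) at hdq
      rw [MulAction.Quotient.smul_mk, QuotientGroup.eq, smul_eq_mul] at hdq
      refine ⟨h * d * g⁻¹, ?_, ?_⟩
      · have h2 : h * d * g⁻¹ = ((d * g⁻¹)⁻¹ * h⁻¹)⁻¹ := by group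
        rw [h2]
        exact J.inv_mem hdq
      · rw [mul_smul, inv_smul_smul, mul_smul, (hσ d).2 hd]
  have hsum : ∑ g : G, 1 / ((Finset.univ.filter fun h => φ h = φ g).card : ℚ) =
      ((Finset.univ.image φ).card : ℚ) := by
    rw [← Finset.sum_fiberwise_of_maps_to (s := Finset.univ) (t := Finset.univ.image φ) (g := φ)
      (fun g _ => Finset.mem_image_of_mem φ (Finset.mem_univ g)), Finset.card_eq_sum_ones,
      Nat.cast_sum]
    refine Finset.sum_congr rfl fun p hp => ?_
    obtain ⟨g0, -, hg0⟩ := Finset.mem_image.1 hp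
    have h1 : ∀ g ∈ Finset.univ.filter (fun g => φ g = p),
        1 / ((Finset.univ.filter fun h => φ h = φ g).card : ℚ) =
          1 / ((Finset.univ.filter fun h => φ h = p).card : ℚ) := by
      intro g hg
      rw [(Finset.mem_filter.1 hg).2]
    rw [Finset.sum_congr rfl h1, Finset.sum_const, nsmul_eq_mul, Nat.cast_one]
    refine mul_one_div_cancel ?_
    have h2 : 0 < (Finset.univ.filter fun h => φ h = p).card :=
      Finset.card_pos.2 ⟨g0, Finset.mem_filter.2 ⟨Finset.mem_univ _, hg0⟩⟩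
    positivity
  rw [hSφ, Set.ncard_coe_finset, ← hsum, Finset.sum_div,
    ← Equiv.sum_comp (Equiv.inv G) (fun g : G => 1 / ((Finset.univ.filter fun h => φ h = φ g).card : ℚ))]
  refine Finset.sum_congr rfl fun g _ => ?_
  rw [hfib, Nat.cast_mul, Equiv.inv_apply, inv_inv, div_div]

/-- The period of the trivial coset space.  Proof: `σ ^ k g = g` iff `σ ^ k = 1`. -/
theorem period_bot {G : Type} [Group G] (σ g : G) :
    period σ (g : G ⧸ (⊥ : Subgroup G)) = orderOf σ := by
  have key : ∀ n : ℕ, period σ (g : G ⧸ (⊥ : Subgroup G)) ∣ n ↔ orderOf σ ∣ n := by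
    intro n
    rw [← pow_smul_eq_iff_period_dvd, orderOf_dvd_iff_pow_eq_one, MulAction.Quotient.smul_mk,
      QuotientGroup.eq, Subgroup.mem_bot, smul_eq_mul, mul_inv_rev, mul_assoc, inv_mul_eq_one]
    constructor
    · intro h
      have h2 : σ ^ n * g = g := by
        have := congrArg (fun t => σ ^ n * t) h
        simpa using this
      exact mul_eq_right.1 h2
    · intro h
      rw [h]
      simp
  exact Nat.dvd_antisymm ((key _).2 dvd_rfl) ((key _).1 dvd_rfl)

end WildTA
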