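import Pool.Agent.helper44.TA.Dec
import Pool.Agent.helper44.TA.Dbl

/-! The number of the places of a fixed field over a point. -/

namespace WildTA

open Polynomial WildRat WildS WildV WildG WildH MulAction

variable {N : Type} [Field N] [Algebra ℂ N] [Algebra E N] [IsScalarTower ℂ E N]
  [FiniteDimensional E N] [IsGalois E N]

/-- **The number of the places over a point.**

Proof.  `dbl` for `X = Pl N`, `P = Pl (FJ J)`, `S` = the set of the places over `p`, `π = rJ J`.  `hS`: `rJ_pt`, `act_pt`,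
`rJ_surj`, `N_trans`.  `hsep`: `rJ_act`, `rJ_trans`. -/
theorem cnt {Q : Pl N} {p : P1} (hQ : Pt (cN N) Q p) {σ : N ≃ₐ[E] N}
    (hσ : ∀ g : N ≃ₐ[E] N, g • Q = Q ↔ g ∈ Subgroup.zpowers σ) (J : Subgroup (N ≃ₐ[E] N)) :
    (({P : Pl (FJ J) | Pt (cJ J) P p}.ncard : ℕ) : ℚ) =
      (∑ g : N ≃ₐ[E] N, 1 / (period σ (g : (N ≃ₐ[E] N) ⧸ J) : ℚ)) / Nat.card J := by
  refine dbl hσ J {P : Pl (FJ J) | Pt (cJ J) P p} (rJ J) ?_ ?_
  · intro P
    rw [Set.mem_setOf_eq]
    constructor
    · intro hP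
      obtain ⟨Q', hQ'⟩ := rJ_surj J P
      rw [← hQ', rJ_pt] at hP
      obtain ⟨g, hg⟩ := N_trans hQ hP
      exact ⟨g, by rw [hg]; exact hQ'⟩
    · rintro ⟨g, hg⟩
      rw [← hg, rJ_pt, act_pt]
      exact hQ
  · intro g h
    constructor
    · intro he
      exact rJ_trans he
    · rintro ⟨j, hj, he⟩
      rw [← he, rJ_act hj]

/-- The places over a point are finitely many and their ramification numbers add up to the degree.
Proof: `fibS`, `sum_self`, `ram_fib`; at infinity the same for `φ.comp invE` and the point `0`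
(`mem_fib_inv`, `ram_inv`, `deg_comp_invE`). -/
theorem sum_pt {K : Type} [Field K] [Algebra ℂ K] {φ : E →ₐ[ℂ] K} (hφ : FinC φ) (p : P1) :
    ∃ S : Finset (Pl K), (∀ P, P ∈ S ↔ Pt φ P p) ∧ ∑ P ∈ S, ram φ P = deg φ := by
  cases p with
  | some a =>
    refine ⟨fibS φ hφ a, fun P => mem_fibS, ?_⟩
    rw [← sum_self φ hφ a]
    exact Finset.sum_congr rfl fun P hP => ram_fib (mem_fibS.1 hP)
  | none =>
    have hφ' : FinC (φ.comp invE) := finC_comp hφ finC_invE
    refine ⟨fibS (φ.comp invE) hφ' 0, fun P => ?_, ?_⟩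
    · rw [mem_fibS, mem_fib_inv]
      rfl
    · rw [← deg_comp_invE, ← sum_self (φ.comp invE) hφ' 0]
      refine Finset.sum_congr rfl fun P hP => ?_
      rw [← ram_inv hφ P]
      exact ram_fib (mem_fibS.1 hP)

/-- The ramification number of `N` is the order of `σ`.

Proof.  `cnt` for `J = ⊥` and `period_bot`: the number of the places of `FJ ⊥` over `p` is `card G / orderOf σ`;
or directly for `N`: the places over `p` are the `g • Q` (`N_trans`), so their number is the index of the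
stabilizer, `card G / orderOf σ` (`orbit-stabilizer`); all of them have the same ramification number
(`act_ram`), and the sum is `deg (cN N) = card G` (`sum_pt`, `deg_N`). -/
theorem ram_N {Q : Pl N} {p : P1} (hQ : Pt (cN N) Q p) {σ : N ≃ₐ[E] N}
    (hσ : ∀ g : N ≃ₐ[E] N, g • Q = Q ↔ g ∈ Subgroup.zpowers σ) :
    ram (cN N) Q = orderOf σ := by
  obtain ⟨S, hS, hsum⟩ := sum_pt (finC_N (N := N)) p
  have hstab : stabilizer (N ≃ₐ[E] N) Q = Subgroup.zpowers σ := by
    ext g
    rw [mem_stabilizer_iff]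
    exact hσ g
  have horb : (S : Set (Pl N)) = orbit (N ≃ₐ[E] N) Q := by
    ext Q'
    rw [Finset.mem_coe, hS Q', mem_orbit_iff]
    constructor
    · intro hQ'
      exact N_trans hQ hQ'
    · rintro ⟨g, hg⟩
      rw [← hg, act_pt]
      exact hQ
  have hidx : S.card * orderOf σ = Nat.card (N ≃ₐ[E] N) := by
    have h1 := index_stabilizer (N ≃ₐ[E] N) Q
    rw [← horb, Set.ncard_coe_finset, hstab] at h1
    rw [← h1, ← Nat.card_zpowers, mul_comm]
    exact Subgroup.card_mul_index _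
  have hram : ∀ Q' ∈ S, ram (cN N) Q' = ram (cN N) Q := by
    intro Q' hQ'
    obtain ⟨g, hg⟩ := N_trans hQ ((hS Q').1 hQ')
    rw [← hg, act_ram]
  rw [Finset.sum_congr rfl hram, Finset.sum_const, nsmul_eq_mul, deg_N, ← hidx] at hsum
  have hpos : 0 < S.card := Finset.card_pos.2 ⟨Q, (hS Q).2 hQ⟩
  have hpos' : (S.card : ℤ) ≠ 0 := by exact_mod_cast hpos.ne'
  push_cast at hsum
  exact mul_left_cancel₀ hpos' hsum

end WildTA
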