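import Pool.Agent.helper44.TA.Plc

/-! Decomposition groups are cyclic. -/

namespace WildTA

open Polynomial WildRat WildS WildV WildG WildH

variable {N : Type} [Field N] [Algebra ℂ N] [Algebra E N] [IsScalarTower ℂ E N]
  [FiniteDimensional E N] [IsGalois E N]

/-- The ramification index over the fixed field of the stabilizer (or a subgroup of it) is the order of
the group.

Proof.  `Q` is the only place over `rJ J Q` (`rJ_trans`), so `Over_fin` (or `sum_rix`) gives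
`eJ J Q * deg (cJ J) = deg (cN N)`, and `deg_J`, `deg_N`. -/
theorem eJ_stab {J : Subgroup (N ≃ₐ[E] N)} {Q : Pl N} (h : ∀ g ∈ J, g • Q = Q) :
    eJ J Q = Nat.card J := by
  classical
  obtain ⟨S, hS, hsum⟩ := Over_fin (iJ J) (finC_J J) (finC_iJ J) (rJ J Q)
  have hd : deg ((iJ J).comp (cJ J)) = deg (cJ J) * Nat.card J := by
    rw [iJ_comp, deg_N, deg_J]
  have hpos : 0 < deg ((iJ J).comp (cJ J)) := deg_pos (finC_iJ J)
  have hQ : ∀ Q' ∈ S, Q' = Q := by
    intro Q' hQ'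
    obtain ⟨g, hg, hgQ⟩ := rJ_trans (J := J) (Q := Q) (Q' := Q') (hS Q' hQ').symm
    rw [← hgQ, h g hg]
  have hne : S.Nonempty := by
    rw [Finset.nonempty_iff_ne_empty]
    rintro rfl
    rw [Finset.sum_empty, zero_mul] at hsum
    have : (0 : ℤ) < deg ((iJ J).comp (cJ J)) := by exact_mod_cast hpos
    omega
  have hS' : S = {Q} := by
    apply Finset.eq_singleton_iff_nonempty_unique_mem.2
    exact ⟨hne, hQ⟩
  rw [hS', Finset.sum_singleton, hd] at hsum
  have h1 : (eJ J Q) * deg (cJ J) = deg (cJ J) * Nat.card J := by exact_mod_cast hsum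
  have h2 : 0 < deg (cJ J) := deg_pos (finC_J J)
  rw [mul_comm] at h1
  exact Nat.eq_of_mul_eq_mul_left h2 h1

omit [Algebra E N] [IsScalarTower ℂ E N] [FiniteDimensional E N] [IsGalois E N] in
theorem Dec_iff (Q : Pl N) (u : N) (c : ℂ) :
    (u = algebraMap ℂ N c ∨ 0 < Q.ord (u - algebraMap ℂ N c)) ↔
      Q.v (u - algebraMap ℂ N c) < 1 := by
  by_cases h : u - algebraMap ℂ N c = 0
  · rw [h, map_zero]
    exact ⟨fun _ => zero_lt_one, fun _ => Or.inl (sub_eq_zero.1 h)⟩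
  · rw [← Q.ord_pos_iff h]
    refine ⟨fun h' => ?_, Or.inr⟩
    rcases h' with h' | h'
    · exact absurd (sub_eq_zero.2 h') h
    · exact h'

omit [Algebra E N] [IsScalarTower ℂ E N] [FiniteDimensional E N] [IsGalois E N] in
theorem Dec_C (Q : Pl N) (c : ℂ) : Q.v (algebraMap ℂ N c) ≤ 1 := by
  by_cases h : c = 0
  · rw [h, map_zero, map_zero]
    exact zero_le_one
  · exact (Q.triv c h).le

omit [Algebra E N] [IsScalarTower ℂ E N] [FiniteDimensional E N] [IsGalois E N] in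
theorem Dec_le (Q : Pl N) {u : N} {c : ℂ} (h : Q.v (u - algebraMap ℂ N c) < 1) : Q.v u ≤ 1 := by
  have h1 := Q.v.map_add_le h.le (Dec_C Q c)
  rwa [sub_add_cancel] at h1

omit [Algebra E N] [IsScalarTower ℂ E N] [FiniteDimensional E N] [IsGalois E N] in
theorem Dec_mul (Q : Pl N) {u w : N} {a b : ℂ} (hu : Q.v (u - algebraMap ℂ N a) < 1)
    (hw : Q.v (w - algebraMap ℂ N b) < 1) : Q.v (u * w - algebraMap ℂ N (a * b)) < 1 := by
  have h1 : u * w - algebraMap ℂ N (a * b) =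
      (u - algebraMap ℂ N a) * w + algebraMap ℂ N a * (w - algebraMap ℂ N b) := by
    rw [map_mul]
    ring
  rw [h1]
  refine Q.v.map_add_lt ?_ ?_
  · rw [map_mul]
    exact mul_lt_one_of_lt_of_le hu (Dec_le Q hw)
  · rw [map_mul]
    exact lt_of_le_of_lt (mul_le_of_le_one_left' (Dec_C Q a)) hw

omit [Algebra E N] [IsScalarTower ℂ E N] [FiniteDimensional E N] [IsGalois E N] in
theorem Dec_uniq (Q : Pl N) {u : N} {a b : ℂ} (ha : Q.v (u - algebraMap ℂ N a) < 1)
    (hb : Q.v (u - algebraMap ℂ N b) < 1) : a = b := by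
  by_contra hne
  have h1 : algebraMap ℂ N (a - b) = (u - algebraMap ℂ N b) - (u - algebraMap ℂ N a) := by
    rw [map_sub]
    ring
  have h2 := Q.triv (a - b) (sub_ne_zero.2 hne)
  rw [h1] at h2
  have h3 : Q.v ((u - algebraMap ℂ N b) - (u - algebraMap ℂ N a)) < 1 :=
    Q.v.map_sub_lt hb ha
  rw [h2] at h3
  exact lt_irrefl _ h3

omit [FiniteDimensional E N] [IsGalois E N] in
theorem Dec_act {Q : Pl N} {g : N ≃ₐ[E] N} (hg : g • Q = Q) (u : N) : Q.v (g u) = Q.v u := by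
  have h1 : g⁻¹ • Q = Q := by
    rw [inv_smul_eq_iff]
    exact hg.symm
  have h2 : (g⁻¹ • Q).v u = Q.v (g⁻¹⁻¹ u) := rfl
  rw [h1, inv_inv] at h2
  exact h2.symm

omit [FiniteDimensional E N] [IsGalois E N] in
theorem Dec_algC (g : N ≃ₐ[E] N) (c : ℂ) : g (algebraMap ℂ N c) = algebraMap ℂ N c := by
  rw [IsScalarTower.algebraMap_apply ℂ E N, g.commutes]

/-- **The character.**  `t` an element of order one at `Q`.  For `g` with `g • Q = Q` the element `g t / t` has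
order zero and a nonzero value `χ g ∈ ℂ` at `Q` (`exists_res`); the value is multiplicative in `g`
(`g h t / t = g (h t / t) * (g t / t)`, and `g` preserves the elements of positive order). -/
theorem exists_char (Q : Pl N) {t : N} (ht : t ≠ 0) (h1 : Q.ord t = 1) :
    ∃ χ : MulAction.stabilizer (N ≃ₐ[E] N) Q →* ℂ,
      ∀ g : MulAction.stabilizer (N ≃ₐ[E] N) Q,
        (g : N ≃ₐ[E] N) t / t = algebraMap ℂ N (χ g) ∨
          0 < Q.ord ((g : N ≃ₐ[E] N) t / t - algebraMap ℂ N (χ g)) := by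
  have hex : ∀ g : MulAction.stabilizer (N ≃ₐ[E] N) Q, ∃ c : ℂ,
      Q.v ((g : N ≃ₐ[E] N) t / t - algebraMap ℂ N c) < 1 := by
    intro g
    have h2 : Q.v ((g : N ≃ₐ[E] N) t / t) = 1 := by
      rw [map_div₀, Dec_act (MulAction.mem_stabilizer_iff.1 g.2)]
      exact div_self ((Valuation.ne_zero_iff _).2 ht)
    obtain ⟨c, hc⟩ := exists_res (cN N) finC_N Q ((g : N ≃ₐ[E] N) t / t)
      ((Q.ord_nonneg_iff _).2 h2.le)
    exact ⟨c, (Dec_iff Q _ c).1 hc⟩
  choose χ hχ using hex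
  refine ⟨{ toFun := χ, map_one' := ?_, map_mul' := ?_ }, ?_⟩
  · refine Dec_uniq Q (hχ 1) ?_
    rw [OneMemClass.coe_one, AlgEquiv.one_apply, div_self ht, map_one, sub_self, map_zero]
    exact zero_lt_one
  · intro g h
    refine Dec_uniq Q (hχ (g * h)) ?_
    have h2 : ((g * h : MulAction.stabilizer (N ≃ₐ[E] N) Q) : N ≃ₐ[E] N) t / t =
        (g : N ≃ₐ[E] N) t / t * (g : N ≃ₐ[E] N) ((h : N ≃ₐ[E] N) t / t) := by
      have h3 : (g : N ≃ₐ[E] N) t ≠ 0 := by
        rw [Ne, map_eq_zero_iff _ (g : N ≃ₐ[E] N).injective]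
        exact ht
      rw [Subgroup.coe_mul, AlgEquiv.mul_apply, map_div₀]
      field_simp
    rw [h2]
    refine Dec_mul Q (hχ g) ?_
    have h4 : (g : N ≃ₐ[E] N) ((h : N ≃ₐ[E] N) t / t) - algebraMap ℂ N (χ h) =
        (g : N ≃ₐ[E] N) ((h : N ≃ₐ[E] N) t / t - algebraMap ℂ N (χ h)) := by
      rw [map_sub, Dec_algC]
    rw [h4, Dec_act (MulAction.mem_stabilizer_iff.1 g.2)]
    exact hχ h
  · intro g
    exact (Dec_iff Q _ _).2 (hχ g)

/-- The character is injective.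

Proof.  Let `χ g = 1`, `J = zpowers g` (finite, of order `m`), all of whose elements have `χ = 1`.
`u = ∑ h ∈ J, h t`: `u / t - m = ∑ (h t / t - 1)` is zero or has positive order, so `u ≠ 0`, `Q.ord u = 1`, and `u` is
fixed by `J`.  So `u = iJ J u'` and `1 = eJ J Q * (rJ J Q).ord u'`, hence `eJ J Q = 1`; by `eJ_stab`
`J` is trivial. -/
theorem char_inj {Q : Pl N} {t : N} (ht : t ≠ 0) (h1 : Q.ord t = 1)
    {χ : MulAction.stabilizer (N ≃ₐ[E] N) Q →* ℂ}
    (hχ : ∀ g : MulAction.stabilizer (N ≃ₐ[E] N) Q,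
      (g : N ≃ₐ[E] N) t / t = algebraMap ℂ N (χ g) ∨
        0 < Q.ord ((g : N ≃ₐ[E] N) t / t - algebraMap ℂ N (χ g))) :
    Function.Injective χ := by
  classical
  set J : Subgroup (N ≃ₐ[E] N) :=
    χ.ker.map (MulAction.stabilizer (N ≃ₐ[E] N) Q).subtype with hJ
  have hJ1 : ∀ g ∈ J, g • Q = Q := by
    rintro g ⟨g', -, rfl⟩
    exact MulAction.mem_stabilizer_iff.1 g'.2
  have hJ2 : ∀ g ∈ J, Q.v (g t / t - 1) < 1 := by
    rintro g ⟨g', hg', rfl⟩
    have h2 := (Dec_iff Q _ _).1 (hχ g')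
    have h3 : χ g' = 1 := hg'
    rw [h3, map_one] at h2
    exact h2
  have : Fintype J := Fintype.ofFinite J
  set u : N := ∑ h : J, (h : N ≃ₐ[E] N) t with hu
  have hfix : ∀ g ∈ J, g u = u := by
    intro g hg
    rw [hu, map_sum]
    refine Fintype.sum_equiv (Equiv.mulLeft (⟨g, hg⟩ : J)) _ _ fun h => ?_
    rfl
  obtain ⟨w, hw⟩ := (mem_J J u).2 hfix
  have hsum : u / t - algebraMap ℂ N (Fintype.card J) = ∑ h : J, ((h : N ≃ₐ[E] N) t / t - 1) := by
    rw [Finset.sum_sub_distrib, ← Finset.sum_div, ← hu, Finset.sum_const, Finset.card_univ,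
      nsmul_eq_mul, mul_one, map_natCast]
  have hlt : Q.v (u / t - algebraMap ℂ N (Fintype.card J)) < 1 := by
    rw [hsum]
    exact Q.v.map_sum_lt one_ne_zero fun h _ => hJ2 h h.2
  have hcard : Q.v (algebraMap ℂ N (Fintype.card J)) = 1 :=
    Q.triv _ (Nat.cast_ne_zero.2 Fintype.card_ne_zero)
  have hv : Q.v (u / t) = 1 := by
    have h2 := Q.v.map_add_eq_of_lt_right (x := u / t - algebraMap ℂ N (Fintype.card J))
      (y := algebraMap ℂ N (Fintype.card J)) (by rw [hcard]; exact hlt)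
    rw [sub_add_cancel, hcard] at h2
    exact h2
  have hv' : Q.v u = Q.v t := by
    rw [map_div₀] at hv
    exact (div_eq_one_iff_eq ((Valuation.ne_zero_iff _).2 ht)).1 hv
  have hord : Q.ord u = 1 := by
    rw [← h1]
    unfold Pl.ord
    rw [hv']
  have hspec := (rJ_spec J Q).2 w
  rw [hw, hord] at hspec
  have he : eJ J Q = 1 := by
    have h2 : ((eJ J Q : ℕ) : ℤ) ∣ 1 := ⟨_, hspec⟩
    have h3 : (eJ J Q) ∣ 1 := by exact_mod_cast h2
    exact Nat.dvd_one.1 h3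
  rw [eJ_stab hJ1] at he
  have hbot : J = ⊥ := Subgroup.card_eq_one.1 he
  rw [injective_iff_map_eq_one]
  intro g hg
  have h2 : (g : N ≃ₐ[E] N) ∈ J := ⟨g, hg, rfl⟩
  rw [hbot, Subgroup.mem_bot] at h2
  exact Subtype.ext h2

/-- **The stabilizer of a place is cyclic.**  Proof: `isCyclic_of_subgroup_isDomain` (a finite group with
an injective homomorphism to a field). -/
theorem dec_cyclic (Q : Pl N) : ∃ σ : N ≃ₐ[E] N, ∀ g : N ≃ₐ[E] N,
    g • Q = Q ↔ g ∈ Subgroup.zpowers σ := by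
  obtain ⟨t, ht, h1⟩ := Q.exists_unif
  obtain ⟨χ, hχ⟩ := exists_char Q ht h1
  have hinj := char_inj ht h1 hχ
  have : IsCyclic (MulAction.stabilizer (N ≃ₐ[E] N) Q) := isCyclic_of_injective_ringHom χ hinj
  obtain ⟨σ, hσ⟩ := IsCyclic.exists_generator (α := MulAction.stabilizer (N ≃ₐ[E] N) Q)
  refine ⟨σ, fun g => ⟨fun hg => ?_, fun hg => ?_⟩⟩
  · obtain ⟨k, hk⟩ := Subgroup.mem_zpowers_iff.1 (hσ ⟨g, MulAction.mem_stabilizer_iff.2 hg⟩)
    refine Subgroup.mem_zpowers_iff.2 ⟨k, ?_⟩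
    have h2 := congrArg (Subtype.val) hk
    rw [← Subgroup.coe_zpow, h2]
  · have h2 : Subgroup.zpowers (σ : N ≃ₐ[E] N) ≤ MulAction.stabilizer (N ≃ₐ[E] N) Q := by
      rw [Subgroup.zpowers_le]
      exact σ.2
    exact MulAction.mem_stabilizer_iff.1 (h2 hg)

end WildTA
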