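import Mathlib.FieldTheory.Galois.Basic
import Pool.Agent.helper44.Gen.Place
import Pool.Agent.helper44.Gen.Over
import Pool.Agent.helper44.Gen.InvB
import Pool.Agent.helper21.GN.Nonneg
import Pool.Agent.helper21.HD.Defs
import Pool.Agent.helper44.TG.Defs

/-!
# Wild rational functions of large degree, decomposable case: algebra (helper44, helper21,
MP_11236d_an, stage 7): definitions

`N` is a finite Galois extension of `E = ℂ(t)`, `G = N ≃ₐ[E] N` its group.
-/

namespace WildTA

open Polynomial WildRat WildS WildV WildG WildH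

section

variable (N : Type) [Field N] [Algebra ℂ N] [Algebra E N] [IsScalarTower ℂ E N]

/-- The coordinate `t` of `N`. -/
noncomputable def cN : E →ₐ[ℂ] N := IsScalarTower.toAlgHom ℂ E N

end

variable {N : Type} [Field N] [Algebra ℂ N] [Algebra E N] [IsScalarTower ℂ E N]

/-- The fixed field of a subgroup. -/
noncomputable abbrev FJ (J : Subgroup (N ≃ₐ[E] N)) : IntermediateField E N := IntermediateField.fixedField J

/-- The coordinate `t` of the fixed field. -/
noncomputable def cJ (J : Subgroup (N ≃ₐ[E] N)) : E →ₐ[ℂ] FJ J :=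
  IsScalarTower.toAlgHom ℂ E (FJ J)

/-- The inclusion of the fixed field. -/
noncomputable def iJ (J : Subgroup (N ≃ₐ[E] N)) : FJ J →ₐ[ℂ] N := (FJ J).val.restrictScalars ℂ

/-- An element of the group as an automorphism over `ℂ`. -/
noncomputable def gC (g : N ≃ₐ[E] N) : N ≃ₐ[ℂ] N := g.restrictScalars ℂ

theorem gC_apply (g : N ≃ₐ[E] N) (u : N) : gC g u = g u := rfl

/-- The group acts on the places: `(g • P).ord u = P.ord (g⁻¹ u)`. -/
noncomputable instance : MulAction (N ≃ₐ[E] N) (Pl N) where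
  smul g P := plc (gC g⁻¹) P
  one_smul P := by
    apply Pl.ext'
    intro u
    show P.v (gC (1 : N ≃ₐ[E] N)⁻¹ u) = P.v u
    rw [gC_apply, inv_one, AlgEquiv.one_apply]
  mul_smul g h P := by
    apply Pl.ext'
    intro u
    show P.v (gC (g * h)⁻¹ u) = P.v (gC h⁻¹ (gC g⁻¹ u))
    rw [gC_apply, gC_apply, gC_apply, mul_inv_rev, AlgEquiv.mul_apply]

theorem smul_ord (g : N ≃ₐ[E] N) (P : Pl N) (u : N) : (g • P).ord u = P.ord (g⁻¹ u) := rfl

/-- The solutions of `A(z) = t` in `N`. -/
abbrev Om (A : RF) (N : Type) [Field N] [Algebra ℂ N] [Algebra E N] [IsScalarTower ℂ E N] : Type :=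
  {z : N // Sol A (cN N RatFunc.X) z}

theorem cN_fix (g : N ≃ₐ[E] N) (v : E) : g (cN N v) = cN N v := g.commutes v

theorem sol_map {A : RF} (g : N ≃ₐ[E] N) {z : N} (h : Sol A (cN N RatFunc.X) z) :
    Sol A (cN N RatFunc.X) (g z) := by
  have h1 : ∀ p : ℂ[X], aeval (g z) p = g (aeval z p) := fun p =>
    aeval_algHom_apply (gC g) z p
  show aeval (g z) A.P = cN N RatFunc.X * aeval (g z) A.Q
  rw [h1, h1, show aeval z A.P = cN N RatFunc.X * aeval z A.Q from h, map_mul, cN_fix]

/-- The group acts on the solutions. -/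
noncomputable instance (A : RF) : MulAction (N ≃ₐ[E] N) (Om A N) where
  smul g z := ⟨g z.1, sol_map g z.2⟩
  one_smul _ := Subtype.ext rfl
  mul_smul _ _ _ := Subtype.ext rfl

theorem smul_val {A : RF} (g : N ≃ₐ[E] N) (z : Om A N) : ((g • z : Om A N) : N) = g z := rfl

/-- `N` is the splitting field of `P - t Q`. -/
structure Spl (A : RF) (N : Type) [Field N] [Algebra ℂ N] [Algebra E N] [IsScalarTower ℂ E N] :
    Prop where
  card : Nat.card (Om A N) = A.n
  gen : IntermediateField.adjoin E {z : N | Sol A (cN N RatFunc.X) z} = ⊤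

/-- The inertia data: `Q c` is a place over `c`, its stabilizer is generated by `σ c`; the extension is
unramified outside `R`. -/
structure Inr (R : Finset ℂ) (σ : ℂ → (N ≃ₐ[E] N)) (Q : ℂ → Pl N) : Prop where
  pt : ∀ c, Pt (cN N) (Q c) (some c)
  dec : ∀ c g, g • Q c = Q c ↔ g ∈ Subgroup.zpowers (σ c)
  unr : ∀ c, c ∉ R → σ c = 1
  inf : ∀ Q' : Pl N, Pt (cN N) Q' none → ∀ g : N ≃ₐ[E] N, g • Q' = Q' → g = 1

end WildTA
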