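import Pool.Agent.helper44.TA.Fix
import Pool.Agent.helper44.Gen.IffG
import Pool.Agent.helper21.HD.Gal

/-! The splitting field attached to a solution in a field of genus at most one. -/

namespace WildTA

open Polynomial WildRat WildS WildV WildG WildH WildT

variable {K : Type} [Field K] [Algebra ℂ K] {A : RF}

private theorem Hone_self (hn : 1 ≤ A.n) {L : Type} [Field L] [Algebra ℂ L] (κ : K →ₐ[ℂ] L)
    (φ : E →ₐ[ℂ] K) {t : K} (ht : φ (elt A) = t) : Sol A (κ t) (κ (φ RatFunc.X)) := by
  have h1 : aeval (φ RatFunc.X) A.P = φ (elt A) * aeval (φ RatFunc.X) A.Q := by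
    rw [coord_elt]
    unfold RF.app
    rw [div_mul_cancel₀]
    exact (coord_nonConst φ).aeval_ne_zero (A.Q_ne_zero hn)
  subst ht
  have h2 : ∀ p : ℂ[X], aeval (κ (φ RatFunc.X)) p = κ (aeval (φ RatFunc.X) p) := fun p =>
    aeval_algHom_apply κ _ p
  show aeval (κ _) A.P = κ _ * aeval (κ _) A.Q
  rw [h2, h2, h1, map_mul]

private theorem Hone_Sol_map {L L' : Type} [Field L] [Algebra ℂ L] [Field L'] [Algebra ℂ L']
    (f : L →ₐ[ℂ] L') (t z : L) : Sol A (f t) (f z) ↔ Sol A t z := by
  show aeval (f z) A.P = f t * aeval (f z) A.Q ↔ aeval z A.P = t * aeval z A.Q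
  rw [aeval_algHom_apply, aeval_algHom_apply, ← map_mul]
  exact ⟨fun h => f.toRingHom.injective h, fun h => congrArg f h⟩

private theorem Hone_Sol_iff {L : Type} [Field L] [Algebra ℂ L] [Algebra E L]
    [IsScalarTower ℂ E L] (N : IntermediateField E L) (z : N) :
    Sol A (cN N RatFunc.X) z ↔ Sol A (algebraMap E L RatFunc.X) (z : L) :=
  (Hone_Sol_map (N.val.restrictScalars ℂ) (cN N RatFunc.X) z).symm

private theorem Hone_N {L : Type} [Field L] [Algebra ℂ L] [Algebra E L] [IsScalarTower ℂ E L]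
    (s : Finset L) (hs : ∀ z, z ∈ s ↔ Sol A (algebraMap E L RatFunc.X) z) (hc : s.card = A.n)
    (hp : A.P.map (algebraMap ℂ L) - C (algebraMap E L RatFunc.X) * A.Q.map (algebraMap ℂ L) =
        ∏ z ∈ s, (X - C z)) :
    FiniteDimensional E (IntermediateField.adjoin E (s : Set L)) ∧
      IsGalois E (IntermediateField.adjoin E (s : Set L)) ∧
      Spl A (IntermediateField.adjoin E (s : Set L)) := by
  set p : E[X] := A.P.map (algebraMap ℂ E) - C RatFunc.X * A.Q.map (algebraMap ℂ E) with hpdef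
  have hpL : p.map (algebraMap E L) = ∏ z ∈ s, (X - C z) := by
    rw [hpdef, Polynomial.map_sub, Polynomial.map_mul, map_C, Polynomial.map_map,
      Polynomial.map_map, ← IsScalarTower.algebraMap_eq ℂ E L, hp]
  have hroots : p.rootSet L = (s : Set L) := by
    classical
    rw [rootSet, aroots, hpL, roots_prod_X_sub_C]
    simp
  have hspl : (p.map (algebraMap E L)).Splits := by
    rw [hpL]
    exact Splits.prod fun z _ => Splits.X_sub_C z
  have hsf : IsSplittingField E (IntermediateField.adjoin E (s : Set L)) p := by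
    rw [← hroots]
    exact IntermediateField.adjoin_rootSet_isSplittingField hspl
  have hfd : FiniteDimensional E (IntermediateField.adjoin E (s : Set L)) :=
    IsSplittingField.finiteDimensional _ p
  have hno : Normal E (IntermediateField.adjoin E (s : Set L)) := Normal.of_isSplittingField p
  refine ⟨hfd, ⟨⟩, ?_, ?_⟩
  · rw [← hc, ← Nat.card_eq_finsetCard s]
    exact Nat.card_congr
      { toFun := fun z => ⟨z.1.1, (hs _).2 ((Hone_Sol_iff _ z.1).1 z.2)⟩
        invFun := fun w => ⟨⟨w.1, IntermediateField.subset_adjoin E _ w.2⟩,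
          (Hone_Sol_iff _ _).2 ((hs _).1 w.2)⟩
        left_inv := fun z => rfl
        right_inv := fun w => rfl }
  · apply IntermediateField.map_injective (IntermediateField.adjoin E (s : Set L)).val
    rw [IntermediateField.adjoin_map, ← AlgHom.fieldRange_eq_map, IntermediateField.fieldRange_val]
    congr 1
    ext z
    constructor
    · rintro ⟨w, hw, rfl⟩
      exact (hs _).2 ((Hone_Sol_iff _ w).1 hw)
    · intro hz
      exact ⟨⟨z, IntermediateField.subset_adjoin E _ hz⟩, (Hone_Sol_iff _ _).2 ((hs _).1 hz), rfl⟩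

/-- **The splitting field.**

Proof.  `L = AlgebraicClosure K`, `κ = algebraMap`; `amb_closure` (with `φ` finite by `hK.fin`) gives `δ` with
`δ X = κ (φ (elt A))` and `Amb δ`.  `L` is an algebra over `E` through `δ` (`δ.toRingHom.toAlgebra`), `IsScalarTower ℂ E L`.
`N = IntermediateField.adjoin E {z | Sol A (δ X) z}`, `ι = N.val`.  The set is finite with `A.n` elements
(`Amb.roots`), all are algebraic over `E`, so `N` is finite over `E`; it is the splitting field of
`P - t Q ∈ E[T]` (`Amb.roots`: this polynomial splits in `L`, its roots are the solutions), so normal, and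
separable in characteristic zero.  `Spl.card`: the solutions in `L` lie in `N`.  `Spl.gen`: `adjoin` inside `N` is
everything (`IntermediateField.adjoin_map`/`lift_adjoin` or the universal property).  `x`, `y` are the elements
`κ (φ X)`, `κ (ψ X)` of `N`: they are solutions because `φ (elt A) = ψ (elt A)` (`coord_elt`, denominators not zero), and
different by `coord_ne`. -/
theorem exists_N (hK : Good K) (hA : NormG A) {φ ψ : E →ₐ[ℂ] K} (hne : φ ≠ ψ)
    (h0 : φ (elt A) = ψ (elt A)) :
    ∃ (N : Type) (_ : Field N) (_ : Algebra ℂ N) (_ : Algebra E N) (_ : IsScalarTower ℂ E N)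
      (_ : FiniteDimensional E N) (_ : IsGalois E N) (x y : Om A N), Spl A N ∧ x ≠ y ∧
      ∃ (L : Type) (_ : Field L) (_ : Algebra ℂ L) (ι : N →ₐ[ℂ] L) (κ : K →ₐ[ℂ] L),
        ι x = κ (φ RatFunc.X) ∧ ι y = κ (ψ RatFunc.X) ∧
        ι (cN N RatFunc.X) = κ (φ (elt A)) := by
  have hn : 1 ≤ A.n := le_trans (by norm_num) hA.two
  obtain ⟨δ, hδ, hamb⟩ := amb_closure (K := K) hn (hK.fin φ)
  obtain ⟨s, hs, hc, hp⟩ := hamb.roots hn hA.monic hA.lt
  let a1 : Algebra E (AlgebraicClosure K) := δ.toRingHom.toAlgebra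
  have hst : IsScalarTower ℂ E (AlgebraicClosure K) :=
    IsScalarTower.of_algebraMap_eq fun c => (δ.commutes c).symm
  obtain ⟨h1, h2, h3⟩ := Hone_N (A := A) (L := AlgebraicClosure K) s hs hc hp
  let κ : K →ₐ[ℂ] AlgebraicClosure K := IsScalarTower.toAlgHom ℂ K (AlgebraicClosure K)
  have hX : κ (φ RatFunc.X) ∈ s := by
    rw [hs, hδ]
    exact Hone_self hn κ φ rfl
  have hY : κ (ψ RatFunc.X) ∈ s := by
    rw [hs, hδ]
    exact Hone_self hn κ ψ h0.symm
  refine ⟨IntermediateField.adjoin E (s : Set (AlgebraicClosure K)), inferInstance, inferInstance,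
    inferInstance, inferInstance, h1, h2,
    ⟨⟨_, IntermediateField.subset_adjoin E _ hX⟩, (Hone_Sol_iff _ _).2 ((hs _).1 hX)⟩,
    ⟨⟨_, IntermediateField.subset_adjoin E _ hY⟩, (Hone_Sol_iff _ _).2 ((hs _).1 hY)⟩, h3, ?_,
    AlgebraicClosure K, inferInstance, inferInstance,
    (IntermediateField.adjoin E (s : Set (AlgebraicClosure K))).val.restrictScalars ℂ, κ,
    rfl, rfl, hδ⟩
  intro h
  have h4 : κ (φ RatFunc.X) = κ (ψ RatFunc.X) :=
    congrArg Subtype.val (congrArg Subtype.val h)
  exact coord_ne hne (κ.toRingHom.injective h4)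

/-- **The fixed field of the stabilizer of the two solutions embeds into `K`.**

Proof.  `g ∈ st2 x y ↔ g x = x ∧ g y = y`, so every element of the fixed field lies in `E(x, y)` (`J_adjoin` with
`S = {x, y}`).  The elements `u` of `N` with `ι u ∈ range κ` form an intermediate field over `E` (it contains
the image of `E`: `ι (cN N v)` for `v ∈ E`; `ι ∘ cN N` and `κ ∘ φ ∘ (X ↦ elt A)` (`exists_subst`, `elt_nonConst`) are two
homomorphisms `E →ₐ[ℂ] L` with the same value at `X`, so they are equal by `coord_ext`), and it contains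
`x`, `y`; so it contains `E(x, y)`.  `κ` is injective: `θ w` is the unique `k` with `κ k = ι (iJ w)`. -/
theorem exists_emb {N : Type} [Field N] [Algebra ℂ N] [Algebra E N] [IsScalarTower ℂ E N]
    [FiniteDimensional E N] [IsGalois E N] {x y : Om A N} {L : Type} [Field L] [Algebra ℂ L]
    (hn : 1 ≤ A.n) {φ ψ : E →ₐ[ℂ] K}
    (ι : N →ₐ[ℂ] L) (κ : K →ₐ[ℂ] L) (hx : ι x = κ (φ RatFunc.X)) (hy : ι y = κ (ψ RatFunc.X))
    (ht : ι (cN N RatFunc.X) = κ (φ (elt A))) :
    Nonempty (FJ (st2 (N ≃ₐ[E] N) x y) →ₐ[ℂ] K) := by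
  obtain ⟨α, hα⟩ := exists_subst (elt_nonConst A hn)
  have hcomp : ι.comp (cN N) = κ.comp (φ.comp α) := by
    apply coord_ext
    rw [AlgHom.comp_apply, AlgHom.comp_apply, AlgHom.comp_apply, hα, ht]
  let M : IntermediateField E N :=
    { toSubalgebra :=
        { carrier := {u | ι u ∈ κ.fieldRange}
          mul_mem' := fun {a b} ha hb => by
            show ι (a * b) ∈ κ.fieldRange
            rw [map_mul]
            exact mul_mem ha hb
          add_mem' := fun {a b} ha hb => by
            show ι (a + b) ∈ κ.fieldRange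
            rw [map_add]
            exact add_mem ha hb
          algebraMap_mem' := fun v => by
            show ι (cN N v) ∈ κ.fieldRange
            have h1 : ι (cN N v) = κ (φ (α v)) := DFunLike.congr_fun hcomp v
            rw [h1]
            exact ⟨_, rfl⟩ }
      inv_mem' := fun a ha => by
        show ι a⁻¹ ∈ κ.fieldRange
        rw [map_inv₀]
        exact inv_mem ha }
  have hM : ∀ w : FJ (st2 (N ≃ₐ[E] N) x y), ι (iJ _ w) ∈ κ.fieldRange := by
    intro w
    have h1 := J_adjoin (st2 (N ≃ₐ[E] N) x y) {x.1, y.1} (fun g => by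
      rw [Subgroup.mem_inf, MulAction.mem_stabilizer_iff, MulAction.mem_stabilizer_iff,
        Subtype.ext_iff, Subtype.ext_iff, smul_val, smul_val]
      simp) w
    have h2 : IntermediateField.adjoin E {x.1, y.1} ≤ M := by
      rw [IntermediateField.adjoin_le_iff]
      rintro z (rfl | rfl)
      · exact ⟨_, hx.symm⟩
      · exact ⟨_, hy.symm⟩
    exact h2 h1
  let e := AlgEquiv.ofInjective κ κ.toRingHom.injective
  exact ⟨(e.symm : κ.range →ₐ[ℂ] K).comp ((ι.comp (iJ (st2 (N ≃ₐ[E] N) x y))).codRestrict κ.range hM)⟩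

/-- **The genus is at most one.**

Proof.  `exists_N`, `exists_emb`: `θ`.  `genusLe_of_good` for `θ.comp (cJ _)`, `GenusLe.sub` (`finC_J`, `hK.fin`). -/
theorem exists_Hone (hK : Good K) (hA : NormG A) {φ ψ : E →ₐ[ℂ] K} (hne : φ ≠ ψ)
    (h0 : φ (elt A) = ψ (elt A)) :
    ∃ (N : Type) (_ : Field N) (_ : Algebra ℂ N) (_ : Algebra E N) (_ : IsScalarTower ℂ E N)
      (_ : FiniteDimensional E N) (_ : IsGalois E N) (x y : Om A N), Spl A N ∧ x ≠ y ∧
      GenusLe (cJ (st2 (N ≃ₐ[E] N) x y)) := by
  obtain ⟨N, i1, i2, i3, i4, i5, i6, x, y, hS, hxy, L, j1, j2, ι, κ, hx, hy, ht⟩ :=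
    exists_N hK hA hne h0
  obtain ⟨θ⟩ := exists_emb (le_trans (by norm_num) hA.two) ι κ hx hy ht
  exact ⟨N, i1, i2, i3, i4, i5, i6, x, y, hS, hxy, GenusLe.sub θ (finC_J _) (hK.fin _)
    (genusLe_of_good hK _)⟩

end WildTA
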