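import Pool.Agent.helper44.TA.Tame
import Pool.Agent.helper44.TA.Hone
import Pool.Agent.helper44.TA.NormW
import Pool.Agent.helper44.TG.Main2
import Pool.Agent.helper21.LD.LargeE

/-! Wild rational functions of large degree: assembly. -/

namespace WildTA

open Polynomial WildRat WildS WildV WildG WildH WildN MulAction WildT WildLA

section

variable {N : Type} [Field N] [Algebra ℂ N] [Algebra E N] [IsScalarTower ℂ E N]
  [FiniteDimensional E N] [IsGalois E N] {R : Finset ℂ} {σ : ℂ → (N ≃ₐ[E] N)} {Q : ℂ → Pl N}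
  {A : RF}

/-- **The system.** -/
theorem exists_Sys (hA : NormG A) (hS : Spl A N) (h : Inr R σ Q)
    (ht : ∀ B C : RF, A.IsComp B C → 2 ≤ C.n → C.n < A.n → ¬ C.Wild) (hG : ¬ GalLe A)
    {x y : Om A N} (hne : x ≠ y) (hg : GenusLe (cJ (st2 (N ≃ₐ[E] N) x y))) :
    Sys R σ x y where
  tr := hS.trans (le_trans (by norm_num) hA.two)
  faith := hS.faith
  base := chi_base hA hS h
  even := chi_even h
  tame := fun _ hr hp _ _ hne hx => tame_two hA hS h ht hr hp hne hx
  tame2 := fun _ hr hp h2 _ _ hne hx h28 => tame_four hA hS h ht hr hp h2 hne hx h28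
  gal := chi_gal hA hS h hG
  ne := hne
  low := (chi_genus h _ (cJ _)).2 hg

/-- If the group is doubly transitive on the solutions, the curve is irreducible. -/
theorem two_all (hA : NormG A) (hS : Spl A N)
    (h2 : ∀ a b a' b' : Om A N, a ≠ b → a' ≠ b' → ∃ g : N ≃ₐ[E] N, g • a = a' ∧ g • b = b')
    (x : Om A N) : DTm A := by
  refine two_irr hA hS (WildLD.comp_self A) hA (r := fun _ _ => True) ?_ ?_ x
  · intro x y
    refine ⟨fun _ => ?_, fun _ => trivial⟩
    show aeval (x : N) A.P * aeval (y : N) A.Q = aeval (y : N) A.P * aeval (x : N) A.Q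
    have h1 : aeval (x : N) A.P = cN N RatFunc.X * aeval (x : N) A.Q := x.2
    have h2 : aeval (y : N) A.P = cN N RatFunc.X * aeval (y : N) A.Q := y.2
    rw [h1, h2]
    ring
  · intro x a b _ _ ha hb
    obtain ⟨g, h1, h2⟩ := h2 x a x b ha.symm hb.symm
    exact ⟨g, h1, h2⟩

end

variable {K : Type} [Field K] [Algebra ℂ K]

/-- **The normalised case.** -/
theorem norm_main (hK : Good K) {A : RF} (hA : NormG A) {φ ψ : E →ₐ[ℂ] K} (hne : φ ≠ ψ)
    (h0 : φ (elt A) = ψ (elt A))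
    (ht : ∀ B C : RF, A.IsComp B C → 2 ≤ C.n → C.n < A.n → ¬ C.Wild) :
    GalLe A ∨ TypAB A ∨ A.n ≤ N2 100 := by
  classical
  by_cases hG : GalLe A
  · exact Or.inl hG
  obtain ⟨N, i1, i2, i3, i4, i5, i6, x, y, hS, hxy, hg⟩ := exists_Hone hK hA hne h0
  obtain ⟨R, σ, Q, h⟩ := exists_Inr hA hS
  have hsys := exists_Sys hA hS h ht hG hxy hg
  have hcard := hS.card
  have hfin : Finite (Om A N) := by
    refine Nat.finite_of_card_ne_zero ?_
    rw [hcard]
    have := hA.two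
    omega
  have hft : Fintype (Om A N) := Fintype.ofFinite _
  by_cases h2 : ∀ a b a' b' : Om A N, a ≠ b → a' ≠ b' → ∃ g : N ≃ₐ[E] N, g • a = a' ∧ g • b = b'
  · rcases le_or_gt 11 A.n with h11 | h11
    · rcases large_two hK hA (two_all hA hS h2 x) hne h0 h11 with h3 | h3
      · exact Or.inl h3
      · exact Or.inr (Or.inl h3)
    · right; right
      have h3 : 11 ≤ tp 100 := by
        have h4 : tp 2 ≤ tp 100 := by
          rw [tp_def, tp_def]
          exact pow_le_pow_right₀ (by norm_num) (pow_le_pow_right₀ (by norm_num) (by norm_num))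
        refine le_trans ?_ h4
        rw [tp_def]
        norm_num
      exact le_trans h11.le (le_trans h3 (tp_le_N2 100))
  · right; right
    have h3 := main2 hsys h2
    rw [← hcard, Nat.card_eq_fintype_card]
    exact h3

/-- **A solution in a field of genus at most one; all proper right factors tame.** -/
theorem star_good (hK : Good K) (A : RF) (hn : 2 ≤ A.n) (hsol : A.SolIn K)
    (ht : ∀ B C : RF, A.IsComp B C → 2 ≤ C.n → C.n < A.n → ¬ C.Wild) :
    GalLe A ∨ TypAB A ∨ A.n ≤ N2 100 := by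
  obtain ⟨U, V, hU, hUV, hE⟩ := hsol
  have hn1 : 1 ≤ A.n := by omega
  have hV : NonConst V := RF.Eqn.nonConst hn1 hU hE
  obtain ⟨φ, hφ⟩ := exists_subst hU
  obtain ⟨ψ, hψ⟩ := exists_subst hV
  have hne : φ ≠ ψ := by
    rintro rfl
    exact hUV (hφ.symm.trans hψ)
  have h : φ (elt A) = ψ (elt A) := by
    rw [coord_elt, coord_elt, hφ, hψ]
    exact RF.Eqn.app_eq hn1 hU hE
  obtain ⟨A', hA', hn', htr, ⟨σ, T, hEq⟩, hback⟩ := normaliseW A hn
  obtain ⟨φ', ψ', hne', h'⟩ := htr K φ ψ hne h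
  have ht' : ∀ B C : RF, A'.IsComp B C → 2 ≤ C.n → C.n < A'.n → ¬ C.Wild := by
    intro B' C' hcomp h2 hlt hw
    obtain ⟨B, C, h1, -, h3, h4⟩ := hback B' C' hcomp (by omega)
    exact ht B C h1 (by omega) (by omega) (h4 hw)
  rcases norm_main hK hA' hne' h' ht' with h1 | h1 | h1
  · exact Or.inl (galLe_of_eqv hn1 hEq h1)
  · exact Or.inr (Or.inl (hEq.typAB h1))
  · exact Or.inr (Or.inr (by rw [← hn']; exact h1))

/-- Right factors of right factors. -/
theorem isComp_trans {A B C B1 C1 : RF} (hA : 1 ≤ A.n) (hC : 1 ≤ C.n) (hC1 : 1 ≤ C1.n)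
    (h : A.IsComp B C) (h' : C.IsComp B1 C1) : ∃ B2 : RF, A.IsComp B2 C1 := by
  obtain ⟨hB, -, -, -⟩ := comp_facts h hA hC
  obtain ⟨hB1, -, -, -⟩ := comp_facts h' hC hC1
  obtain ⟨B2, hB2, -⟩ := exists_comp B B1 hB hB1
  refine ⟨B2, ?_⟩
  have hX := ratFuncX_nonConst
  have hC1X := C1.app_nonConst hC1 hX
  show A.app (RatFunc.X : RatFunc ℂ) = B2.app (C1.app (RatFunc.X : RatFunc ℂ))
  rw [h.app_eq hX, h'.app_eq hX, hB2.app_eq hC1X]

/-- **Main theorem, hard direction.** -/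
theorem star_hard : ∀ (m : ℕ) (A : RF), A.n ≤ m → 2 ≤ A.n → A.Wild →
    ∃ B C : RF, A.IsComp B C ∧ 2 ≤ C.n ∧ (GalLe C ∨ TypAB C ∨ (C.Wild ∧ C.n ≤ N2 100)) := by
  intro m
  induction m with
  | zero =>
    intro A h1 h2 _
    omega
  | succ m ih =>
    intro A hm hn hw
    by_cases hex : ∃ B C : RF, A.IsComp B C ∧ 2 ≤ C.n ∧ C.n < A.n ∧ C.Wild
    · obtain ⟨B, C, hcomp, h2, hlt, hCw⟩ := hex
      obtain ⟨B1, C1, h3, h4, h5⟩ := ih C (by omega) h2 hCw
      obtain ⟨B2, h6⟩ := isComp_trans (by omega) (by omega) (by omega) hcomp h3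
      exact ⟨B2, C1, h6, h4, h5⟩
    · have ht : ∀ B C : RF, A.IsComp B C → 2 ≤ C.n → C.n < A.n → ¬ C.Wild :=
        fun B C h1 h2 h3 h4 => hex ⟨B, C, h1, h2, h3, h4⟩
      have hmain : GalLe A ∨ TypAB A ∨ A.n ≤ N2 100 := by
        rcases id hw with hr | ⟨f, hf3, hsq, hsol⟩
        · exact star_good good_E A hn hr ht
        · have := kf_fact f (by rw [hf3]; decide)
          exact star_good (good_KF f hf3 hsq) A hn hsol ht
      refine ⟨Normal_id, A, WildLD.comp_self A, hn, ?_⟩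
      rcases hmain with h1 | h1 | h1
      · exact Or.inl h1
      · exact Or.inr (Or.inl h1)
      · exact Or.inr (Or.inr ⟨hw, h1⟩)

end WildTA
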