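import Pool.Agent.helper44.TA.Defs

/-! Fixed fields: degrees and inclusions.  Proved by helper11. -/

namespace WildTA

open Polynomial WildRat WildS WildV WildG WildH

variable {N : Type} [Field N] [Algebra ℂ N] [Algebra E N] [IsScalarTower ℂ E N]
  [FiniteDimensional E N] [IsGalois E N]

private theorem Fix_alg {K : Type} [Field K] [Algebra ℂ K] [inst : Algebra E K] (φ : E →ₐ[ℂ] K)
    (h : ∀ v, φ v = algebraMap E K v) : deg φ = Module.finrank E K := by
  have h1 : φ.toRingHom.toAlgebra = inst := Algebra.algebra_ext _ _ h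
  unfold deg
  rw [h1]

omit [FiniteDimensional E N] [IsGalois E N] in
private theorem Fix_deg_N : deg (cN N) = Module.finrank E N :=
  Fix_alg (cN N) fun _ => rfl

omit [FiniteDimensional E N] [IsGalois E N] in
private theorem Fix_deg_J (J : Subgroup (N ≃ₐ[E] N)) : deg (cJ J) = Module.finrank E (FJ J) :=
  Fix_alg (cJ J) fun _ => rfl

private theorem Fix_tower {K L : Type} [Field K] [Field L] [Algebra ℂ K] [Algebra ℂ L]
    (χ : E →ₐ[ℂ] K) (θ : K →ₐ[ℂ] L) :
    deg (θ.comp χ) = deg χ *
      (letI : Algebra K L := θ.toRingHom.toAlgebra; Module.finrank K L) := by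
  let a1 : Algebra E K := χ.toRingHom.toAlgebra
  let a2 : Algebra K L := θ.toRingHom.toAlgebra
  let a3 : Algebra E L := (θ.comp χ).toRingHom.toAlgebra
  have : IsScalarTower E K L := IsScalarTower.of_algebraMap_eq fun _ => rfl
  exact (Module.finrank_mul_finrank E K L).symm

private theorem Fix_incl {N K L : Type} [Field N] [Field K] [Field L] [Algebra ℂ K] [Algebra ℂ L]
    [Algebra K N] [Algebra L N] [Module.Finite K N] (θ : K →ₐ[ℂ] L)
    (h : ∀ w, algebraMap L N (θ w) = algebraMap K N w) :
    θ.toRingHom.Finite ∧ (letI : Algebra K L := θ.toRingHom.toAlgebra; Module.finrank K L) *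
      Module.finrank L N = Module.finrank K N := by
  let a2 : Algebra K L := θ.toRingHom.toAlgebra
  have : IsScalarTower K L N := IsScalarTower.of_algebraMap_eq fun w => (h w).symm
  have hf : Module.Finite K L := Module.Finite.left K L N
  exact ⟨hf, Module.finrank_mul_finrank K L N⟩

omit [IsGalois E N] in
/-- Proof: the algebra structure `(cN N).toRingHom.toAlgebra` is the given one (`Algebra.algebra_ext`),
`Module.Finite`. -/
theorem finC_N : FinC (cN N) := by
  have h1 : (cN N).toRingHom = algebraMap E N := rfl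
  unfold FinC
  rw [h1, RingHom.finite_algebraMap]
  infer_instance

/-- Proof: `deg` is `Module.finrank E N` (see `finC_N`), `IsGalois.card_aut_eq_finrank`. -/
theorem deg_N : deg (cN N) = Nat.card (N ≃ₐ[E] N) := by
  rw [Fix_deg_N, IsGalois.card_aut_eq_finrank]

omit [IsGalois E N] in
theorem finC_J (J : Subgroup (N ≃ₐ[E] N)) : FinC (cJ J) := by
  have h1 : (cJ J).toRingHom = algebraMap E (FJ J) := rfl
  unfold FinC
  rw [h1, RingHom.finite_algebraMap]
  infer_instance

/-- Proof: `IntermediateField.finrank_fixedField_eq_card`, `Module.finrank_mul_finrank`,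
`IsGalois.card_aut_eq_finrank`. -/
theorem deg_J (J : Subgroup (N ≃ₐ[E] N)) : deg (cJ J) * Nat.card J = Nat.card (N ≃ₐ[E] N) := by
  rw [Fix_deg_J, ← IntermediateField.finrank_fixedField_eq_card J, Module.finrank_mul_finrank,
    IsGalois.card_aut_eq_finrank]

omit [FiniteDimensional E N] [IsGalois E N] in
theorem iJ_comp (J : Subgroup (N ≃ₐ[E] N)) : (iJ J).comp (cJ J) = cN N := by
  exact AlgHom.ext fun v => rfl

omit [IsGalois E N] in
theorem finC_iJ (J : Subgroup (N ≃ₐ[E] N)) : FinC ((iJ J).comp (cJ J)) := by
  rw [iJ_comp]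
  exact finC_N

omit [FiniteDimensional E N] [IsGalois E N] in
theorem iJ_inj (J : Subgroup (N ≃ₐ[E] N)) : Function.Injective (iJ J) := by
  exact (iJ J).toRingHom.injective

omit [FiniteDimensional E N] [IsGalois E N] in
/-- The elements of the fixed field. -/
theorem mem_J (J : Subgroup (N ≃ₐ[E] N)) (z : N) :
    (∃ w : FJ J, iJ J w = z) ↔ ∀ g ∈ J, g z = z := by
  constructor
  · rintro ⟨w, rfl⟩
    exact (IntermediateField.mem_fixedField_iff J _).mp w.2
  · intro h
    exact ⟨⟨z, (IntermediateField.mem_fixedField_iff J _).mpr h⟩, rfl⟩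

/-- The fixing group of an intermediate field given by a set: if `J` is the group of the automorphisms
fixing all the elements of `S`, then every element of the fixed field lies in `E(S)`.  Proof: Galois
correspondence: `IsGalois.fixedField_fixingSubgroup`. -/
theorem J_adjoin (J : Subgroup (N ≃ₐ[E] N)) (S : Set N)
    (hJ : ∀ g : N ≃ₐ[E] N, g ∈ J ↔ ∀ s ∈ S, g s = s) (w : FJ J) :
    iJ J w ∈ IntermediateField.adjoin E S := by
  have h1 : (IntermediateField.adjoin E S).fixingSubgroup = J := by
    ext g
    rw [hJ, IntermediateField.mem_fixingSubgroup_iff]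
    constructor
    · intro h s hs
      exact h s (IntermediateField.subset_adjoin E S hs)
    · intro h x hx
      have h2 : IntermediateField.adjoin E S ≤
          IntermediateField.fixedField (Subgroup.zpowers g) := by
        rw [IntermediateField.adjoin_le_iff]
        intro s hs
        rw [SetLike.mem_coe, IntermediateField.mem_fixedField_iff]
        intro k hk
        have h3 : Subgroup.zpowers g ≤ MulAction.stabilizer (N ≃ₐ[E] N) s := by
          rw [Subgroup.zpowers_le]
          exact h s hs
        exact h3 hk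
      exact (IntermediateField.mem_fixedField_iff _ _).mp (h2 hx) g (Subgroup.mem_zpowers g)
  have h2 : IntermediateField.fixedField J = IntermediateField.adjoin E S := by
    rw [← h1, IsGalois.fixedField_fixingSubgroup]
  have h3 : iJ J w ∈ IntermediateField.fixedField J := w.2
  rwa [h2] at h3

/-- For `J' ≤ J` there is an inclusion of the fixed fields, with the degree of a coordinate multiplied by
the index. -/
theorem incl_deg {J' J : Subgroup (N ≃ₐ[E] N)} (h : J' ≤ J) :
    ∃ θ : FJ J →ₐ[ℂ] FJ J', (∀ w, iJ J' (θ w) = iJ J w) ∧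
      ∀ χ : E →ₐ[ℂ] FJ J, FinC χ → FinC (θ.comp χ) ∧
        deg (θ.comp χ) * Nat.card J' = deg χ * Nat.card J := by
  have hle : FJ J ≤ FJ J' := IntermediateField.fixedField_antitone h
  have key := IntermediateField.finrank_fixedField_eq_card J
  have key' := IntermediateField.finrank_fixedField_eq_card J'
  obtain ⟨hf, hmul⟩ := Fix_incl (N := N) (K := FJ J) (L := FJ J')
    ((IntermediateField.inclusion hle).restrictScalars ℂ) (fun w => rfl)
  rw [key, key'] at hmul
  refine ⟨(IntermediateField.inclusion hle).restrictScalars ℂ, fun w => rfl, fun χ hχ => ⟨?_, ?_⟩⟩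
  · exact RingHom.Finite.comp hf hχ
  · rw [Fix_tower, mul_assoc, hmul]

end WildTA
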