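import Pool.Agent.helper44.Gen.CntF
import Pool.Agent.helper21.HD.PrimeS
import Pool.Agent.helper21.WV.DTFacts

/-! The total weight of an irreducible curve of genus at most two. -/

namespace WildTA

open Polynomial WildRat WildS WildV WildG WildH

variable {K : Type} [Field K] [Algebra ℂ K]

/-- The component is the whole curve.

Proof.  As `DT_deg` (WV/DTFacts.lean): `NN_dvd` gives `(T - x) mu ∣ GG C = (T - x) mu0`, so `mu ∣ mu0`; `mu` is monic and
not a unit (`mu_pos`), `mu0` is irreducible and monic, so `mu = mu0` (`eq_of_monic_of_associated`). -/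
theorem mu_eq {C : RF} (hn : 1 ≤ C.n) {mu0 : E[X]} (hi : Irreducible mu0) (hm : mu0.Monic)
    (hgg : GG C = (X - Polynomial.C RatFunc.X) * mu0) {φ ψ : E →ₐ[ℂ] K} (hφ : FinC φ)
    (hne : φ ≠ ψ) (h : φ (elt C) = ψ (elt C)) : mu φ (ψ RatFunc.X) = mu0 := by
  have h1 := NN_dvd C hn hne h
  unfold NN at h1
  rw [hgg] at h1
  have h2 : mu φ (ψ RatFunc.X) ∣ mu0 := (mul_dvd_mul_iff_left (X_sub_C_ne_zero _)).1 h1
  obtain ⟨hmm, hpos⟩ := mu_pos φ hφ (ψ RatFunc.X)
  have h3 : ¬ IsUnit (mu φ (ψ RatFunc.X)) := by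
    intro hu
    have := natDegree_eq_zero_of_isUnit hu
    omega
  obtain ⟨q, hq⟩ := h2
  refine eq_of_monic_of_associated hmm hm ?_
  rcases hi.isUnit_or_isUnit hq with h | h
  · exact absurd h h3
  · rw [hq]
    exact associated_mul_unit_right _ _ h

/-- **The ramification over the critical values is the total weight.**

Proof.  Let `S` be the union of the sets `PT hφ ψ a b` for `t0 ∈ crit C`, `a, b ∈ fC C t0`.  They are disjoint: a place
lies over one value of `φ X` and of `ψ X` (`mem_PT`, `Pl.value_unique`), and `a` determines `t0` (see the proof of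
`cmp_le` in Gen/CntF.lean).  `PT_ram` (with `mu = mu0`, `mu_eq`, and `(mu φ (ψ X)).natDegree = deg φ` from `DT_deg` and `hdeg`):
the sum over `PT hφ ψ a b` of `ram φ P - 1` is `(e_b - gcd (e_a, e_b)) / e_a * ord_a (mu0 (b))`, and `fam_ord` for
`Fs = {mu0}` gives `ord_a (mu0 (b)) = e_a` if `a ≠ b` (for `a = b` the first factor is zero), exactly as in the
proof of `exists_genusLe`.  `CntF_wt`. -/
theorem sum_wt {C : RF} (hC : NormG C) (hD : DTm C) {φ ψ : E →ₐ[ℂ] K} (hφ : FinC φ) (hne : φ ≠ ψ)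
    (h : φ (elt C) = ψ (elt C)) (hdeg : deg φ + 1 = C.n) :
    ∃ S : Finset (Pl K),
      ∑ t0 ∈ crit C, (wt (pas C (some t0)) : ℤ) = ∑ P ∈ S, (ram φ P - 1) := by
  classical
  have hn := CntF_n hC
  obtain ⟨mu0, hirr, hm0, hGG⟩ := hD
  have hmu := mu_eq hn hirr hm0 hGG hφ hne h
  have hdt := DT_deg hn ⟨mu0, hirr, hGG⟩ hφ hne h
  have hdeg' : (mu φ (ψ RatFunc.X)).natDegree = deg φ := by omega
  have hGG1 : GG C = (X - Polynomial.C RatFunc.X) * ∏ F ∈ ({mu0} : Finset E[X]), F := by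
    rw [Finset.prod_singleton]
    exact hGG
  have hfa : ∀ {a a' : ℂ} {P : Pl K}, P ∈ fib φ a → P ∈ fib φ a' → a = a' := fun h1 h2 =>
    Pl.value_unique _ h1 h2
  have hfb : ∀ {b b' : ℂ} {P : Pl K}, P ∈ fib ψ b → P ∈ fib ψ b' → b = b' := fun h1 h2 =>
    Pl.value_unique _ h1 h2
  refine ⟨(crit C).biUnion fun t0 => (fC C t0).biUnion fun a => (fC C t0).biUnion fun b =>
    PT hφ ψ a b, ?_⟩
  have hdis1 : ((crit C : Finset ℂ) : Set ℂ).PairwiseDisjoint fun t0 =>
      (fC C t0).biUnion fun a => (fC C t0).biUnion fun b => PT hφ ψ a b := by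
    intro t0 _ t1 _ hne
    rw [Function.onFun, Finset.disjoint_left]
    intro P hP hP'
    simp only [Finset.mem_biUnion] at hP hP'
    obtain ⟨a, ha, b, hb, hPT⟩ := hP
    obtain ⟨a', ha', b', hb', hPT'⟩ := hP'
    have h1 := hfa ((mem_PT hφ).1 hPT).1 ((mem_PT hφ).1 hPT').1
    subst h1
    have h2 := (mem_fC hn).1 ha
    have h3 := (mem_fC hn).1 ha'
    rw [h2] at h3
    exact hne (Option.some_injective _ h3)
  rw [Finset.sum_biUnion hdis1]
  refine Finset.sum_congr rfl fun t0 _ => ?_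
  have hdis2 : ((fC C t0 : Finset ℂ) : Set ℂ).PairwiseDisjoint fun a =>
      (fC C t0).biUnion fun b => PT hφ ψ a b := by
    intro a _ a' _ hne
    rw [Function.onFun, Finset.disjoint_left]
    intro P hP hP'
    simp only [Finset.mem_biUnion] at hP hP'
    obtain ⟨b, hb, hPT⟩ := hP
    obtain ⟨b', hb', hPT'⟩ := hP'
    exact hne (hfa ((mem_PT hφ).1 hPT).1 ((mem_PT hφ).1 hPT').1)
  rw [Finset.sum_biUnion hdis2]
  have hkey : ((wt (pas C (some t0)) : ℕ) : ℚ) =
      ((∑ a ∈ fC C t0, ∑ P ∈ (fC C t0).biUnion fun b => PT hφ ψ a b, (ram φ P - 1) : ℤ) : ℚ) := by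
    rw [CntF_wt hC t0, Int.cast_sum]
    refine Finset.sum_congr rfl fun a ha => ?_
    have hdis3 : ((fC C t0 : Finset ℂ) : Set ℂ).PairwiseDisjoint fun b => PT hφ ψ a b := by
      intro b _ b' _ hne
      rw [Function.onFun, Finset.disjoint_left]
      intro P hP hP'
      exact hne (hfb ((mem_PT hφ).1 hP).2 ((mem_PT hφ).1 hP').2)
    rw [Finset.sum_biUnion hdis3, Int.cast_sum]
    refine Finset.sum_congr rfl fun b hb => ?_
    rw [PT_ram hC hφ hdeg' h ha, hmu]
    have h1 := fam_ord hC hGG1 ha hb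
    rw [Finset.sum_singleton] at h1
    rw [h1]
    have hea : (C.e (some a) : ℚ) ≠ 0 := by
      have := C.one_le_e hn (some a)
      exact_mod_cast (by omega : C.e (some a) ≠ 0)
    by_cases hab : a = b
    · subst hab
      rw [Nat.gcd_self, sub_self, zero_div, zero_mul]
    · rw [if_neg hab, sub_zero, Int.cast_natCast, div_mul_cancel₀ _ hea]
  exact_mod_cast hkey

theorem Gtwo_wt_zero {C : RF} (hn : 1 ≤ C.n) {c : P1} (h : ∀ z, C.val z = c → C.e z = 1) :
    wt (pas C c) = 0 := by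
  have h0 : ∀ e ∈ pas C c, e = 1 := by
    intro e he
    obtain ⟨z, hz, rfl⟩ := Multiset.mem_map.1 he
    exact h z ((mem_fibP hn).1 hz)
  have h1 : pas C c = Multiset.replicate (Multiset.card (pas C c)) 1 :=
    Multiset.eq_replicate.2 ⟨rfl, h0⟩
  rw [h1]
  unfold wt
  simp

/-- Only the finite critical values contribute.

Proof.  `wt (pas C c) = 0` if all indices over `c` are one (`Types_ones`, `Types_wt_zero` in NI/Types.lean or
directly: `pas C c = replicate n 1`): this is the case for `c = ∞` (`NormG.unram`) and for `some t0`, `t0 ∉ crit C`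
(`mem_crit`; the points over `some t0` are finite because `C.val none = none` for a normalised `C`). -/
theorem wt_le_crit {C : RF} (hC : NormG C) (T : Finset P1) :
    ∑ c ∈ T, (wt (pas C c) : ℤ) ≤ ∑ t0 ∈ crit C, (wt (pas C (some t0)) : ℤ) := by
  classical
  have hn := CntF_n hC
  have hz : ∀ c : P1, wt (pas C c) ≠ 0 → ∃ t0 ∈ crit C, some t0 = c := by
    intro c hc
    have h1 : ¬ ∀ z, C.val z = c → C.e z = 1 := fun h2 => hc (Gtwo_wt_zero hn h2)
    push Not at h1
    obtain ⟨z, hz, he⟩ := h1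
    have hv0 : C.val none = none := Quad_val_none C hC.lt
    cases c with
    | none => exact absurd (hC.unram z hz) he
    | some t0 =>
      cases z with
      | none =>
        rw [hv0] at hz
        exact absurd hz (by simp)
      | some a => exact ⟨t0, (mem_crit hn).2 ⟨a, hz, he⟩, rfl⟩
  have h1 : ∑ t0 ∈ crit C, wt (pas C (some t0)) =
      ∑ c ∈ (crit C).map ⟨some, Option.some_injective ℂ⟩, wt (pas C c) := by
    rw [Finset.sum_map]
    rfl
  have h2 : ∑ c ∈ T, wt (pas C c) ≤ ∑ t0 ∈ crit C, wt (pas C (some t0)) := by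
    rw [h1]
    refine Finset.sum_le_sum_of_ne_zero fun c _ hc => ?_
    obtain ⟨t0, ht0, hct⟩ := hz c hc
    rw [Finset.mem_map]
    exact ⟨t0, ht0, hct⟩
  exact_mod_cast h2

/-- **Genus at most two.**  Proof: `wt_le_crit`, `sum_wt`, `hg`. -/
theorem wt_genus_two {C : RF} (hC : NormG C) (hD : DTm C) {φ ψ : E →ₐ[ℂ] K} (hφ : FinC φ)
    (hne : φ ≠ ψ) (h : φ (elt C) = ψ (elt C)) (hdeg : deg φ + 1 = C.n)
    (hg : ∀ T : Finset (Pl K), ∑ P ∈ T, (ram φ P - 1) ≤ 2 * (deg φ : ℤ) + 2) (T : Finset P1) :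
    ∑ c ∈ T, (wt (pas C c) : ℤ) ≤ 2 * C.n := by
  obtain ⟨S, hS⟩ := sum_wt hC hD hφ hne h hdeg
  have h1 := wt_le_crit hC T
  have h2 := hg S
  rw [hS] at h1
  have h3 : (deg φ : ℤ) + 1 = C.n := by exact_mod_cast hdeg
  linarith

end WildTA
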