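import Pool.Agent.helper21.NI.Ev

/-! Numerical classification for irreducible curves of genus at most two and degree at least `28`
(proofs: helper59, after NI/Ineq.lean and NI/Large.lean of helper21). -/

namespace WildTA

open Multiset WildV WildRat WildS WildH WildN

/-- The hypotheses: as `NumD` (NI/Defs), with `2 n` instead of `2 n - 2` and `6` instead of `4`. -/
structure NumD2 {ι : Type} (T : Finset ι) (L : ι → Multiset ℕ) (n : ℕ) : Prop where
  pos : ∀ i ∈ T, ∀ e ∈ L i, 1 ≤ e
  sum : ∀ i ∈ T, (L i).sum = n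
  lt : ∀ i ∈ T, card (L i) < n
  rh : ∑ i ∈ T, ((n : ℤ) - card (L i)) = 2 * n - 2
  tw : ∑ i ∈ T, (wt (L i) : ℤ) ≤ 2 * n
  ev : ∑ i ∈ T, countP Even (L i) ≤ 6
  gcd : ∀ i ∈ T, ∀ j ∈ T, i ≠ j → ∀ d, 2 ≤ d → ¬ (DD d (L i) ∧ DD d (L j))

private theorem Num2_countP_sum (p : ℕ → Prop) [DecidablePred p] (c : ℕ) (L : Multiset ℕ) :
    (L.map fun b => if p b then c else 0).sum = c * countP p L := by
  induction L using Multiset.induction_on with
  | empty => simp
  | cons b L ih =>
    rw [Multiset.map_cons, Multiset.sum_cons, ih, Multiset.countP_cons, mul_add, add_comm]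
    split_ifs with h
    · rw [mul_one]
    · rw [mul_zero]

private theorem Num2_term (f g : ℕ → ℕ) (L : Multiset ℕ) (h : ∀ a ∈ L, f a ≤ g a)
    (hs : (L.map g).sum ≤ (L.map f).sum) : ∀ a ∈ L, g a = f a := by
  induction L using Multiset.induction_on with
  | empty =>
    intro a ha
    exact absurd ha (Multiset.notMem_zero a)
  | cons b L ih =>
    rw [Multiset.map_cons, Multiset.map_cons, Multiset.sum_cons, Multiset.sum_cons] at hs
    have h1 := h b (Multiset.mem_cons_self b L)
    have h2 : (L.map f).sum ≤ (L.map g).sum :=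
      Multiset.sum_map_le_sum_map _ _ fun a ha => h a (Multiset.mem_cons_of_mem ha)
    intro a ha
    rw [Multiset.mem_cons] at ha
    rcases ha with rfl | ha
    · omega
    · exact ih (fun a ha => h a (Multiset.mem_cons_of_mem ha)) (by omega) a ha

private theorem Num2_nd_ge {L : Multiset ℕ} (h : ∀ e ∈ L, 1 ≤ e) {d : ℕ} (hd : 3 ≤ d) :
    2 * nd d L + card L ≤ L.sum := by
  induction L using Multiset.induction_on with
  | empty => simp [nd]
  | cons b L ih =>
    have h1 := ih fun e he => h e (Multiset.mem_cons_of_mem he)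
    have h2 := h b (Multiset.mem_cons_self b L)
    unfold nd at h1 ⊢
    rw [Multiset.countP_cons, Multiset.card_cons, Multiset.sum_cons]
    split_ifs with h3
    · have h4 := Nat.le_of_dvd (by omega) h3
      omega
    · omega

private theorem Num2_nd_le {L : Multiset ℕ} (h : ∀ e ∈ L, 1 ≤ e) (hev : countP Even L ≤ 6) {d : ℕ}
    (hd : 2 ≤ d) : 2 * nd d L + card L ≤ max (12 + card L) L.sum := by
  rcases Nat.lt_or_ge d 3 with h3 | h3
  · have h2 : d = 2 := by omega
    subst h2
    have h4 : nd 2 L = countP Even L := by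
      unfold nd
      refine Multiset.countP_congr rfl fun x _ => ?_
      exact propext (even_iff_two_dvd (a := x)).symm
    rw [h4]
    exact le_max_of_le_left (by omega)
  · exact le_max_of_le_right (Num2_nd_ge h h3)

private theorem Num2_big_ram {L : Multiset ℕ} (h : ∀ e ∈ L, 1 ≤ e) (hev : countP Even L ≤ 6)
    (hn : 20 ≤ L.sum) {d : ℕ} (hd : d.Prime) (hj : card L ≤ nd d L + 1) :
    2 * L.sum ≤ 3 * (L.sum - card L) + 2 := by
  have hc := Wt_card_le h
  rcases Nat.lt_or_ge d 3 with h3 | h3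
  · have h2 : d = 2 := by
      have := hd.two_le
      omega
    subst h2
    have h4 : nd 2 L = countP Even L := by
      unfold nd
      refine Multiset.countP_congr rfl fun x _ => ?_
      exact propext (even_iff_two_dvd (a := x)).symm
    rw [h4] at hj
    omega
  · have h4 := Num2_nd_ge h h3
    omega

private theorem Num2_big_ram_eq {L : Multiset ℕ} (h : ∀ e ∈ L, 1 ≤ e) (hev : countP Even L ≤ 6)
    (hn : 20 ≤ L.sum) {d : ℕ} (hd : d.Prime) (hj : card L ≤ nd d L + 1)
    (heq : 2 * L.sum = 3 * (L.sum - card L) + 2) :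
    ∃ k, L.sum = 3 * k + 1 ∧ L = 1 ::ₘ replicate k 3 := by
  have hc := Wt_card_le h
  rcases Nat.lt_or_ge d 3 with h3 | h3
  · exfalso
    have h2 : d = 2 := by
      have := hd.two_le
      omega
    subst h2
    have h4 : nd 2 L = countP Even L := by
      unfold nd
      refine Multiset.countP_congr rfl fun x _ => ?_
      exact propext (even_iff_two_dvd (a := x)).symm
    rw [h4] at hj
    omega
  · have h4 := Num2_nd_ge h h3
    have h5 : nd d L + 1 = card L := by omega
    have h6 : L.sum = 2 * nd d L + card L := by omega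
    have h7 : ∀ a ∈ L, a = 1 + if d ∣ a then 2 else 0 := by
      refine Num2_term (fun a => 1 + if d ∣ a then 2 else 0) (fun a => a) L ?_ ?_
      · intro a ha
        have h8 := h a ha
        split_ifs with h9
        · have h10 := Nat.le_of_dvd (by omega) h9
          omega
        · omega
      · rw [Multiset.map_id', Multiset.sum_map_add, Multiset.map_const', Multiset.sum_replicate,
          smul_eq_mul, mul_one, Num2_countP_sum (d ∣ ·) 2 L, h6]
        unfold nd
        omega
    refine ⟨nd d L, by omega, ?_⟩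
    have h8 := Multiset.filter_add_not (d ∣ ·) L
    have h9 : L.filter (d ∣ ·) = replicate (nd d L) 3 := by
      rw [Multiset.eq_replicate]
      refine ⟨(Multiset.countP_eq_card_filter (d ∣ ·) L).symm, fun b hb => ?_⟩
      rw [Multiset.mem_filter] at hb
      have h10 := h7 b hb.1
      rw [if_pos hb.2] at h10
      exact h10
    have h11 : L.filter (fun x => ¬ d ∣ x) = replicate 1 1 := by
      rw [Multiset.eq_replicate]
      refine ⟨?_, fun b hb => ?_⟩
      · have h12 := congrArg card h8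
        rw [Multiset.card_add, h9, Multiset.card_replicate] at h12
        omega
      · rw [Multiset.mem_filter] at hb
        have h10 := h7 b hb.1
        rw [if_neg hb.2] at h10
        exact h10
    rw [h9, h11] at h8
    have h13 : replicate (nd d L) 3 + replicate 1 1 = 1 ::ₘ replicate (nd d L) 3 := by
      rw [Multiset.replicate_one, add_comm, Multiset.singleton_add]
    exact h8.symm.trans h13

private theorem Num2_sum {ι : Type} [DecidableEq ι] {T : Finset ι} {L : ι → Multiset ℕ} {n : ℕ} (h : NumD2 T L n) (N : ι → ℕ)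
    (hN : ∀ i ∈ T, ∀ d, 2 ≤ d → nd d (L i) ≤ N i) :
    ∑ i ∈ T, ((card (L i) : ℤ) - N i - 1) * ((n : ℤ) - card (L i)) ≤ 2 := by
  have h1 : ∀ i ∈ T, ((card (L i) : ℤ) - N i) * ((n : ℤ) - card (L i)) ≤ wt (L i) := by
    intro i hi
    have h2 := wt_ge_N (h.pos i hi) (hN i hi)
    rwa [h.sum i hi] at h2
  have h3 := Finset.sum_le_sum h1
  have h4 := h.tw
  have h5 := h.rh
  have h6 : ∑ i ∈ T, ((card (L i) : ℤ) - N i - 1) * ((n : ℤ) - card (L i)) =
      ∑ i ∈ T, ((card (L i) : ℤ) - N i) * ((n : ℤ) - card (L i)) -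
        ∑ i ∈ T, ((n : ℤ) - card (L i)) := by
    rw [← Finset.sum_sub_distrib]
    apply Finset.sum_congr rfl
    intro i _
    ring
  rw [h6]
  linarith

private theorem Num2_mid {L : Multiset ℕ} {n : ℕ} (h : ∀ e ∈ L, 1 ≤ e) (hs : L.sum = n)
    (hev : countP Even L ≤ 6) (hn : 28 ≤ n) {ρ : ℕ} (hρ : card L + ρ = n) (h3 : 3 ≤ ρ)
    (h9 : 3 * ρ + 9 ≤ 2 * n) : 2 * n < wt L := by
  have hb : ∀ d, 2 ≤ d → nd d L ≤ max 6 (ρ / 2) := by
    intro d hd
    have h1 := Num2_nd_le h hev hd
    rw [hs] at h1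
    rcases le_max_iff.1 h1 with h2 | h2
    · exact le_max_of_le_left (by omega)
    · exact le_max_of_le_right (by omega)
  have h2 := wt_ge_N h hb
  rw [hs] at h2
  have hρ' : (n : ℤ) - card L = ρ := by omega
  have hc : (card L : ℤ) = n - ρ := by omega
  rw [hρ', hc] at h2
  rcases le_or_gt ρ 12 with h8 | h8
  · have h4 : max 6 (ρ / 2) = 6 := max_eq_left (by omega)
    rw [h4] at h2
    have h5 : (2 * n : ℤ) < wt L := by
      interval_cases ρ <;> push_cast at h2 <;> omega
    omega
  · have h4 : max 6 (ρ / 2) = ρ / 2 := max_eq_right (by omega)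
    rw [h4] at h2
    have h5 : (2 : ℤ) * ((ρ / 2 : ℕ) : ℤ) ≤ ρ := by omega
    have h6 : (ρ : ℤ) * (2 * n - 3 * ρ) ≤ 2 * wt L := by
      nlinarith
    have h7 : (0 : ℤ) ≤ ((ρ : ℤ) - 12) * (2 * n - 3 * ρ - 9) := by
      apply mul_nonneg <;> omega
    have h8' : (2 * n : ℤ) < wt L := by
      have h9 : (9 : ℤ) ≤ 2 * n - 3 * ρ := by omega
      have h10 : (13 : ℤ) ≤ ρ := by omega
      nlinarith
    omega

private theorem Num2_one {L : Multiset ℕ} {n : ℕ} (hs : L.sum = n) (hc : card L = 1) :
    L = {n} := by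
  obtain ⟨x, rfl⟩ := card_eq_one.1 hc
  rw [sum_singleton] at hs
  rw [hs]

private theorem Num2_DD {L : Multiset ℕ} {d : ℕ} (h : nd d L = card L) : DD d L :=
  fun e he => (countP_eq_card.1 h) e he

private theorem Num2_weight {L : Multiset ℕ} {d : ℕ} (h : ∀ e ∈ L, 1 ≤ e) (hd : 5 ≤ d) :
    4 * nd d L + card L ≤ L.sum := by
  induction L using Multiset.induction_on with
  | empty => simp [nd]
  | cons a L ih =>
    have h1 := ih fun e he => h e (mem_cons_of_mem he)
    have ha := h a (mem_cons_self a L)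
    rw [sum_cons, card_cons]
    by_cases hda : d ∣ a
    · have hc : nd d (a ::ₘ L) = nd d L + 1 := countP_cons_of_pos _ hda
      have h2 := Nat.le_of_dvd (by omega) hda
      omega
    · have hc : nd d (a ::ₘ L) = nd d L := countP_cons_of_neg _ hda
      omega

private theorem Num2_five {L : Multiset ℕ} {n d : ℕ} (h : ∀ e ∈ L, 1 ≤ e) (hs : L.sum = n)
    (hd : 5 ≤ d) (hj : card L ≤ nd d L + 1) : 5 * card L ≤ n + 4 := by
  have h1 := Num2_weight h hd
  omega

private theorem Num2_three {L : Multiset ℕ} (hj : card L = nd 3 L + 1) (h3 : 3 ∣ L.sum) :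
    False := by
  have h1 := filter_add_not (3 ∣ ·) L
  have h2 : card (filter (fun a => ¬ 3 ∣ a) L) = 1 := by
    have h3 := congrArg card h1
    rw [card_add] at h3
    unfold nd at hj
    rw [countP_eq_card_filter] at hj
    omega
  obtain ⟨x, hx⟩ := card_eq_one.1 h2
  have hx3 : ¬ 3 ∣ x := by
    have : x ∈ filter (fun a => ¬ 3 ∣ a) L := by rw [hx]; simp
    exact (mem_filter.1 this).2
  apply hx3
  have h4 : (filter (3 ∣ ·) L).sum + x = L.sum := by
    have h5 := congrArg Multiset.sum h1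
    rw [sum_add, hx, sum_singleton] at h5
    exact h5
  have h5 : 3 ∣ (filter (3 ∣ ·) L).sum := dvd_sum fun a ha => (mem_filter.1 ha).2
  rw [← h4] at h3
  exact (Nat.dvd_add_right h5).1 h3

private theorem Num2_13 {L L' : Multiset ℕ} {n d : ℕ} (hn : 28 ≤ n) (h : ∀ e ∈ L', 1 ≤ e)
    (hs : L.sum = n) (hs' : L'.sum = n) (hc : card L = 1) (hc' : card L' = 3)
    (hbest : ∀ d', 2 ≤ d' → nd d' L' ≤ nd d L') (hd : d.Prime) (hw : wt L' ≤ 8)
    (hgcd : ∀ d', 2 ≤ d' → ¬ (DD d' L ∧ DD d' L')) : False := by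
  have h0 : nd d L' ≤ card L' := countP_le_card _ _
  rcases Nat.lt_or_ge (nd d L') 3 with h1 | h1
  · have h2 := wt_ge_N h (N := 2) (fun d' hd' => le_trans (hbest d' hd') (by omega))
    rw [hs', hc'] at h2
    push_cast at h2
    omega
  · have h2 : DD d L' := Num2_DD (by omega)
    apply hgcd d hd.two_le
    refine ⟨?_, h2⟩
    rw [Num2_one hs hc]
    intro e he
    rw [mem_singleton.1 he, ← hs']
    exact dvd_sum h2

/-- **Degree at least `28`.**  Copy the proof of `num_large` (NI/Large.lean, 700 lines, with the lemmas of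
NI/Ineq.lean: `big_ram`, `big_ram_eq`, `nd_le` have to be copied with `6` instead of `4`) with these
changes.

`nd_le`: `2 nd d L + r ≤ max (12 + r) n`.  `big_ram` for `n ≥ 20` (if `d = 2`: `r ≤ 7`).
`Large_sum`: `∑ (j i - 1) ρ i ≤ 2`, `j i = r i - N i`, `ρ i = n - r i`.
`Large_mid` (`n ≥ 28`, `ρ ≥ 3`, `3 ρ + 9 ≤ 2 n` imply `2 n < wt`): `N ≤ max (6, ρ / 2)`; for `ρ ≤ 12`: `ρ (n - ρ - 6)` is at
least `min (3 (n - 9), 12 (n - 18)) > 2 n`; for `ρ ≥ 12` with `u = 2 n - 3 ρ ≥ 9`:
`2 wt - 4 n ≥ ρ u - 6 ρ - 2 u = (ρ - 2) (u - 6) - 12 > 0`.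
`S = {j i ≤ 1}`, `D` the rest, `A = {j i = 0}`.  `card S = 3`: `C333` as before.  `D` is not empty as before.
`card S = 0`: `2 n - 2 = ∑ ρ ≤ ∑ (j - 1) ρ ≤ 2`.
`card S = 1`, `S = {a}`: `∑ over D of (j - 1) ρ ≤ 2 + ρ a` (`j a - 1 ≥ -1`), `∑ over D of ρ = 2 n - 2 - ρ a`, so
`∑ over D of (j - 2) ρ ≤ 2 ρ a + 4 - 2 n ≤ 2`.  If `j i ≥ 3` for some `i ∈ D`, then `ρ i ≤ 2`, so `N i ≤ 6`, `j i ≥ n - 8 ≥ 20`, a
contradiction.  So all `j i = 2` on `D`, hence `ρ i ≥ n - 8` or `3 ρ i ≥ 2 n - 4`, in both cases `3 ρ i ≥ 2 n - 4`.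
`2 n - 2 - ρ a ≤ ρ a + 2`, so `∑ over D of ρ ≤ n`: `card D = 1` (otherwise `4 n - 8 ≤ 3 n`), `ρ i ≥ n - 1`, `r i = 1`, but
`j i = 2`, a contradiction.
`card S = 2`, `S = {a, b}`, `R = ∑ over D of ρ = r a + r b - 2`, `3 r ≤ n + 2` on `S`.  All `i ∈ D` have `ρ i ≤ 2`: otherwise
(`Large_mid`) `3 ρ i + 9 > 2 n`, `3 (r a + r b) ≥ 2 n - 2`, `3 r a, 3 r b ≥ n - 4`; `d = 2` gives `r ≤ 7`, `n ≤ 25`;
`d ≥ 5` gives `n ≤ 16`; so `d = 3` for both; `3 ∣ n`: `j a = j b = 0` contradicts `gcd`; `3 ∤ n`: `j a = j b = 1`, then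
`∑ over D of ρ ≤ ∑ over D of (j - 1) ρ ≤ 2`, a contradiction to `ρ i ≥ 3`.  Weights on `D`: `n - 2` or at least `2 n - 8`; the
sum is at most `2 n`, so `R ≤ 2`.  `R = 1`: `CAB`.  `R = 2`: `wt (L a) + wt (L b) ≤ 8`.  `{1, 3}`: as before (`n - 3 > 8`).
`{2, 2}`: `j = 1` gives a weight `≥ n - 2 > 8`; so `j a = j b = 0`, `g + g' ≥ n - 4`, one of `g, g'` is at most `n / 3`, the
other at most `n / 2`: `n ≤ 24`. -/
theorem num_large2 {ι : Type} [DecidableEq ι] {T : Finset ι} {L : ι → Multiset ℕ} {n : ℕ}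
    (h : NumD2 T L n) (hn : 28 ≤ n) : CAB T L ∨ C333 T L n := by
  classical
  choose d hd hbest using fun i => exists_best (L i)
  -- basic facts
  have hsum : ∀ i ∈ T, (L i).sum = n := h.sum
  have hr : ∀ i ∈ T, 1 ≤ card (L i) := by
    intro i hi
    rw [Nat.one_le_iff_ne_zero, Ne, card_eq_zero]
    intro h0
    have := hsum i hi
    rw [h0, sum_zero] at this
    omega
  have hrn : ∀ i ∈ T, card (L i) < n := h.lt
  have hNr : ∀ i, nd (d i) (L i) ≤ card (L i) := fun i => countP_le_card _ _
  have hev : ∀ i ∈ T, countP Even (L i) ≤ 6 := by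
    intro i hi
    exact le_trans (Finset.single_le_sum (f := fun i => countP Even (L i))
      (fun _ _ => Nat.zero_le _) hi) h.ev
  have hLS := Num2_sum h (fun i => nd (d i) (L i)) (fun i _ d' hd' => hbest i d' hd')
  have hrh := h.rh
  have htw := h.tw
  set S := T.filter (fun i => card (L i) ≤ nd (d i) (L i) + 1) with hS
  set D := T.filter (fun i => ¬ card (L i) ≤ nd (d i) (L i) + 1) with hD
  have hST : ∀ i ∈ S, i ∈ T := fun i hi => (Finset.mem_filter.1 hi).1
  have hDT : ∀ i ∈ D, i ∈ T := fun i hi => (Finset.mem_filter.1 hi).1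
  have hSj : ∀ i ∈ S, card (L i) ≤ nd (d i) (L i) + 1 := fun i hi => (Finset.mem_filter.1 hi).2
  have hDj : ∀ i ∈ D, nd (d i) (L i) + 2 ≤ card (L i) := fun i hi => by
    have := (Finset.mem_filter.1 hi).2
    omega
  have hsplit : ∀ f : ι → ℤ, ∑ i ∈ S, f i + ∑ i ∈ D, f i = ∑ i ∈ T, f i := fun f =>
    Finset.sum_filter_add_sum_filter_not T _ f
  have hbig : ∀ i ∈ S, (2 * n - 2 : ℤ) ≤ 3 * ((n : ℤ) - card (L i)) := by
    intro i hi
    have h1 := Num2_big_ram (h.pos i (hST i hi)) (hev i (hST i hi)) (by rw [hsum i (hST i hi)]; omega)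
      (hd i) (hSj i hi)
    rw [hsum i (hST i hi)] at h1
    have h2 := hrn i (hST i hi)
    omega
  have hDnn : ∀ i ∈ D, ((n : ℤ) - card (L i)) ≤
      ((card (L i) : ℤ) - nd (d i) (L i) - 1) * ((n : ℤ) - card (L i)) := by
    intro i hi
    have h1 := hDj i hi
    have h2 := hrn i (hDT i hi)
    have h3 : (1 : ℤ) ≤ (card (L i) : ℤ) - nd (d i) (L i) - 1 := by omega
    have h4 : (0 : ℤ) < (n : ℤ) - card (L i) := by omega
    nlinarith
  have hDρ : ∀ i ∈ D, (1 : ℤ) ≤ (n : ℤ) - card (L i) := by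
    intro i hi
    have h2 := hrn i (hDT i hi)
    omega
  rw [← hsplit] at hLS hrh htw
  have hDsum := Finset.sum_le_sum hDnn
  have hDwt : ∀ i ∈ D, (0 : ℤ) ≤ (wt (L i) : ℤ) := fun i _ => Int.natCast_nonneg _
  have hDρ0 : (0 : ℤ) ≤ ∑ i ∈ D, ((n : ℤ) - card (L i)) :=
    Finset.sum_nonneg fun i hi => by linarith [hDρ i hi]
  have hcardS : S.card ≤ 3 := by
    have h1 := Finset.sum_le_sum hbig
    rw [Finset.sum_const, nsmul_eq_mul, ← Finset.mul_sum] at h1
    by_contra hcon
    push Not at hcon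
    have h2 : (4 : ℤ) ≤ (S.card : ℤ) := by exact_mod_cast hcon
    have h3 : (40 : ℤ) ≤ 2 * n - 2 := by omega
    nlinarith
  rcases Nat.lt_or_ge S.card 3 with hlt3 | hge3
  swap
  · -- three strongly ramified fibres
    right
    have hS3 : S.card = 3 := le_antisymm hcardS hge3
    have h1 := Finset.sum_le_sum hbig
    rw [Finset.sum_const, nsmul_eq_mul, ← Finset.mul_sum, hS3] at h1
    have hD0 : D = ∅ := by
      rw [Finset.eq_empty_iff_forall_notMem]
      intro i hi
      have h2 := Finset.single_le_sum (f := fun i => (n : ℤ) - card (L i))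
        (fun j hj => by linarith [hDρ j hj]) hi
      have h3 := hDρ i hi
      push_cast at h1
      linarith
    have hTS : T = S := by
      ext i
      constructor
      · intro hi
        by_contra hcon
        have : i ∈ D := Finset.mem_filter.2 ⟨hi, fun hle => hcon (Finset.mem_filter.2 ⟨hi, hle⟩)⟩
        rw [hD0] at this
        simp at this
      · exact hST i
    have heq : ∀ i ∈ S, (2 * n - 2 : ℤ) = 3 * ((n : ℤ) - card (L i)) := by
      rw [← Finset.sum_eq_sum_iff_of_le hbig, Finset.sum_const, nsmul_eq_mul, ← Finset.mul_sum,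
        hS3]
      rw [hD0, Finset.sum_empty, add_zero] at hrh
      rw [hrh]
      push_cast
      ring
    have hform : ∀ i ∈ S, ∃ k, n = 3 * k + 1 ∧ L i = 1 ::ₘ replicate k 3 := by
      intro i hi
      have h2 := Num2_big_ram_eq (h.pos i (hST i hi)) (hev i (hST i hi))
        (by rw [hsum i (hST i hi)]; omega) (hd i) (hSj i hi) (by
          rw [hsum i (hST i hi)]
          have h3 := heq i hi
          have h4 := hrn i (hST i hi)
          omega)
      rwa [hsum i (hST i hi)] at h2
    obtain ⟨a, ha⟩ : S.Nonempty := by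
      rw [← Finset.card_pos]
      omega
    obtain ⟨k, hk, -⟩ := hform a ha
    refine ⟨k, hk, by rw [hTS]; exact hS3, fun i hi => ?_⟩
    obtain ⟨k', hk', hL⟩ := hform i (by rw [← hTS]; exact hi)
    have : k' = k := by omega
    rw [hL, this]
  left
  -- the sum over S in the main inequality
  rcases Nat.lt_or_ge S.card 1 with hlt1 | hge1
  · exfalso
    have hS0 : S = ∅ := by
      rw [← Finset.card_eq_zero]
      omega
    rw [hS0, Finset.sum_empty, zero_add] at hLS hrh
    omega
  rcases Nat.lt_or_ge S.card 2 with hlt2 | hge2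
  · -- one strongly ramified fibre: impossible
    exfalso
    obtain ⟨a, ha⟩ := Finset.card_eq_one.1 (by omega : S.card = 1)
    have haS : a ∈ S := by rw [ha]; simp
    rw [ha, Finset.sum_singleton] at hLS hrh
    have h1 := hr a (hST a haS)
    have h1' := hrn a (hST a haS)
    have h2 := hNr a
    have h3 : -((n : ℤ) - card (L a)) ≤
        ((card (L a) : ℤ) - nd (d a) (L a) - 1) * ((n : ℤ) - card (L a)) := by
      have h4 : (0 : ℤ) ≤ (card (L a) : ℤ) - nd (d a) (L a) := by omega
      have h5 : (0 : ℤ) < (n : ℤ) - card (L a) := by omega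
      nlinarith
    have hle : ∑ i ∈ D, ((card (L i) : ℤ) - nd (d i) (L i) - 1) * ((n : ℤ) - card (L i)) ≤
        ((n : ℤ) - card (L a)) + 2 := by
      linarith
    have hDn1 : ∑ i ∈ D, ((n : ℤ) - card (L i)) ≤ n := by linarith
    have hDn2 : (n : ℤ) - 1 ≤ ∑ i ∈ D, ((n : ℤ) - card (L i)) := by linarith
    have hle2 : ∑ i ∈ D, ((card (L i) : ℤ) - nd (d i) (L i) - 2) * ((n : ℤ) - card (L i)) ≤ 2 := by
      have h6 : ∑ i ∈ D, ((card (L i) : ℤ) - nd (d i) (L i) - 2) * ((n : ℤ) - card (L i)) =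
          ∑ i ∈ D, ((card (L i) : ℤ) - nd (d i) (L i) - 1) * ((n : ℤ) - card (L i)) -
            ∑ i ∈ D, ((n : ℤ) - card (L i)) := by
        rw [← Finset.sum_sub_distrib]
        apply Finset.sum_congr rfl
        intro i _
        ring
      rw [h6]
      have h7 : (1 : ℤ) ≤ card (L a) := by exact_mod_cast h1
      linarith
    have hj2 : ∀ i ∈ D, card (L i) = nd (d i) (L i) + 2 := by
      intro i hi
      by_contra hne
      have h4 := hDj i hi
      have h5 := hDρ i hi
      have h6 := Finset.single_le_sum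
        (f := fun i => ((card (L i) : ℤ) - nd (d i) (L i) - 2) * ((n : ℤ) - card (L i)))
        (fun j hj => mul_nonneg (by have := hDj j hj; omega) (by linarith [hDρ j hj])) hi
      have h7 : ((card (L i) : ℤ) - nd (d i) (L i) - 2) * ((n : ℤ) - card (L i)) ≤ 2 := by
        linarith
      have h8 : (1 : ℤ) ≤ (card (L i) : ℤ) - nd (d i) (L i) - 2 := by omega
      have h9 : (n : ℤ) - card (L i) ≤ 2 := by nlinarith
      have h10 : (card (L i) : ℤ) - nd (d i) (L i) - 2 ≤ 2 := by nlinarith
      have h11 := Num2_nd_le (h.pos i (hDT i hi)) (hev i (hDT i hi)) (hd i).two_le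
      rw [hsum i (hDT i hi)] at h11
      rcases le_max_iff.1 h11 with h12 | h12 <;> omega
    have hρ3 : ∀ i ∈ D, (2 * n - 4 : ℤ) ≤ 3 * ((n : ℤ) - card (L i)) := by
      intro i hi
      have h7 := hj2 i hi
      have h8 := Num2_nd_le (h.pos i (hDT i hi)) (hev i (hDT i hi)) (hd i).two_le
      rw [hsum i (hDT i hi)] at h8
      rcases le_max_iff.1 h8 with h9 | h9 <;> omega
    have hDne : D.Nonempty := by
      rw [Finset.nonempty_iff_ne_empty]
      intro h0
      rw [h0, Finset.sum_empty] at hDn2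
      omega
    obtain ⟨i, hi⟩ := hDne
    by_cases hex : ∃ i' ∈ D, i' ≠ i
    · obtain ⟨i', hi', hne⟩ := hex
      have h4 : ((n : ℤ) - card (L i)) + ((n : ℤ) - card (L i')) ≤
          ∑ i ∈ D, ((n : ℤ) - card (L i)) := by
        have hsub : ({i, i'} : Finset ι) ⊆ D := by
          intro x hx
          rcases Finset.mem_insert.1 hx with rfl | hx
          · exact hi
          · rw [Finset.mem_singleton.1 hx]
            exact hi'
        have h5 := Finset.sum_le_sum_of_subset_of_nonneg (f := fun i => (n : ℤ) - card (L i)) hsub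
          (fun j hj _ => by linarith [hDρ j hj])
        rwa [Finset.sum_pair (Ne.symm hne)] at h5
      have h5 := hρ3 i hi
      have h6 := hρ3 i' hi'
      linarith
    · push Not at hex
      have hDi : D = {i} := by
        ext x
        rw [Finset.mem_singleton]
        exact ⟨fun hx => hex x hx, fun hx => by rw [hx]; exact hi⟩
      rw [hDi, Finset.sum_singleton] at hDn2
      have h4 := hDj i hi
      omega
  -- two strongly ramified fibres
  obtain ⟨a, b, hab, hSab⟩ := Finset.card_eq_two.1 (by omega : S.card = 2)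
  have haS : a ∈ S := by rw [hSab]; simp
  have hbS : b ∈ S := by rw [hSab]; simp
  have haT := hST a haS
  have hbT := hST b hbS
  rw [hSab, Finset.sum_pair hab] at hLS hrh htw
  have ha1 := hr a haT
  have hb1 := hr b hbT
  have han := hrn a haT
  have hbn := hrn b hbT
  have hgcd := h.gcd a haT b hbT hab
  have hDne : D.Nonempty := by
    rw [Finset.nonempty_iff_ne_empty]
    intro h0
    rw [h0, Finset.sum_empty, add_zero] at hrh
    have h1 : card (L a) = 1 := by omega
    have h2 : card (L b) = 1 := by omega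
    apply hgcd n (by omega)
    rw [Num2_one (hsum a haT) h1, Num2_one (hsum b hbT) h2]
    constructor <;> intro e he <;> rw [Multiset.mem_singleton.1 he]
  have hwti : ∀ i ∈ D, (wt (L i) : ℤ) ≤ 2 * n := by
    intro i hi
    have h1 := Finset.single_le_sum (f := fun i => (wt (L i) : ℤ)) hDwt hi
    have h2 : (0 : ℤ) ≤ (wt (L a) : ℤ) := Int.natCast_nonneg _
    have h3 : (0 : ℤ) ≤ (wt (L b) : ℤ) := Int.natCast_nonneg _
    linarith
  have hba := hbig a haS
  have hbb := hbig b hbS
  have hD2 : ∀ i ∈ D, (n : ℤ) - card (L i) ≤ 2 := by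
    intro i hi
    by_contra hcon
    push Not at hcon
    have h1 := hrn i (hDT i hi)
    have h2 : ¬ (3 * (n - card (L i)) + 9 ≤ 2 * n) := by
      intro h9
      have h3 := Num2_mid (h.pos i (hDT i hi)) (hsum i (hDT i hi)) (hev i (hDT i hi)) hn
        (ρ := n - card (L i)) (by omega) (by omega) h9
      have h4 := hwti i hi
      omega
    have h3 := Finset.single_le_sum (f := fun i => (n : ℤ) - card (L i))
        (fun j hj => by linarith [hDρ j hj]) hi
    have h4 : (n : ℤ) - 4 ≤ 3 * card (L a) := by omega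
    have h5 : (n : ℤ) - 4 ≤ 3 * card (L b) := by omega
    have hd3 : ∀ x ∈ T, card (L x) ≤ nd (d x) (L x) + 1 → (n : ℤ) - 4 ≤ 3 * card (L x) →
        d x = 3 := by
      intro x hx hj h6
      have h7 := (hd x).two_le
      by_contra hne
      rcases Nat.lt_or_ge (d x) 5 with h8 | h8
      · have h9 : d x = 2 ∨ d x = 4 := by omega
        rcases h9 with h9 | h9
        · have h10 : nd (d x) (L x) ≤ 6 := by
            refine le_trans (le_of_eq ?_) (hev x hx)
            unfold nd
            rw [h9]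
            apply Multiset.countP_congr rfl
            intro e _
            exact propext even_iff_two_dvd.symm
          omega
        · have h10 := hd x
          rw [h9] at h10
          exact absurd h10 (by norm_num)
      · have h9 := Num2_five (h.pos x hx) (hsum x hx) h8 hj
        omega
    have hda := hd3 a haT (hSj a haS) h4
    have hdb := hd3 b hbT (hSj b hbS) h5
    have hja := hSj a haS
    have hjb := hSj b hbS
    rw [hda] at hja hLS
    rw [hdb] at hjb hLS
    have hNa : nd 3 (L a) ≤ card (L a) := countP_le_card _ _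
    have hNb : nd 3 (L b) ≤ card (L b) := countP_le_card _ _
    by_cases h3n : 3 ∣ n
    · have h6 : nd 3 (L a) = card (L a) := by
        by_contra hne
        exact Num2_three (by omega : card (L a) = nd 3 (L a) + 1) (by rw [hsum a haT]; exact h3n)
      have h7 : nd 3 (L b) = card (L b) := by
        by_contra hne
        exact Num2_three (by omega : card (L b) = nd 3 (L b) + 1) (by rw [hsum b hbT]; exact h3n)
      exact hgcd 3 (by norm_num) ⟨Num2_DD h6, Num2_DD h7⟩
    · have h6 : nd 3 (L a) ≠ card (L a) := by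
        intro h6
        apply h3n
        rw [← hsum a haT]
        exact Multiset.dvd_sum (Num2_DD h6)
      have h7 : nd 3 (L b) ≠ card (L b) := by
        intro h6
        apply h3n
        rw [← hsum b hbT]
        exact Multiset.dvd_sum (Num2_DD h6)
      have h8 : (card (L a) : ℤ) - nd 3 (L a) - 1 = 0 := by omega
      have h9 : (card (L b) : ℤ) - nd 3 (L b) - 1 = 0 := by omega
      rw [h8, h9, zero_mul, zero_mul, zero_add, zero_add] at hLS
      linarith
  -- weights on D
  have hDw : ∀ i ∈ D, ((n : ℤ) - card (L i) = 1 ∧ (wt (L i) : ℤ) = n - 2) ∨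
      ((n : ℤ) - card (L i) = 2 ∧ (2 * n - 8 : ℤ) ≤ wt (L i)) := by
    intro i hi
    have h1 := hD2 i hi
    have h2 := hDρ i hi
    have h3 : (n : ℤ) - card (L i) = 1 ∨ (n : ℤ) - card (L i) = 2 := by omega
    rcases h3 with h3 | h3
    · left
      have h4 := ram_one (h.pos i (hDT i hi)) (by rw [hsum i (hDT i hi)]; omega)
      rw [hsum i (hDT i hi)] at h4
      exact ⟨h3, by omega⟩
    · right
      have h4 := ram_two (h.pos i (hDT i hi)) (by rw [hsum i (hDT i hi)]; omega)
      rw [hsum i (hDT i hi)] at h4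
      exact ⟨h3, by omega⟩
  have hDfin : ∑ i ∈ D, ((n : ℤ) - card (L i)) = 1 ∨
      (∑ i ∈ D, ((n : ℤ) - card (L i)) = 2 ∧ (2 * n - 8 : ℤ) ≤ ∑ i ∈ D, (wt (L i) : ℤ)) := by
    have hlow : ∀ i ∈ D, (n - 2 : ℤ) * ((n : ℤ) - card (L i)) - 4 *
        (((n : ℤ) - card (L i)) - 1) ≤ (wt (L i) : ℤ) := by
      intro i hi
      rcases hDw i hi with ⟨h1, h2⟩ | ⟨h1, h2⟩
      · rw [h1, h2]
        linarith
      · rw [h1]
        linarith
    have hlow2 : ∀ i ∈ D, (n - 4 : ℤ) * ((n : ℤ) - card (L i)) ≤ (wt (L i) : ℤ) := by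
      intro i hi
      rcases hDw i hi with ⟨h1, h2⟩ | ⟨h1, h2⟩
      · rw [h1, h2]
        linarith
      · rw [h1]
        linarith
    have h1 := Finset.sum_le_sum hlow2
    rw [← Finset.mul_sum] at h1
    have h2 : (0 : ℤ) ≤ (wt (L a) : ℤ) := Int.natCast_nonneg _
    have h3 : (0 : ℤ) ≤ (wt (L b) : ℤ) := Int.natCast_nonneg _
    have h4 : ∑ i ∈ D, ((n : ℤ) - card (L i)) ≤ 2 := by
      by_contra hcon
      push Not at hcon
      have h5 : (3 : ℤ) ≤ ∑ i ∈ D, ((n : ℤ) - card (L i)) := hcon
      have h6 : (17 : ℤ) ≤ n - 4 := by omega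
      nlinarith
    obtain ⟨i, hi⟩ := hDne
    have h5 := Finset.single_le_sum (f := fun i => (n : ℤ) - card (L i))
        (fun j hj => by linarith [hDρ j hj]) hi
    have h6 := hDρ i hi
    have h7 : ∑ i ∈ D, ((n : ℤ) - card (L i)) = 1 ∨ ∑ i ∈ D, ((n : ℤ) - card (L i)) = 2 := by
      omega
    rcases h7 with h7 | h7
    · exact Or.inl h7
    · right
      refine ⟨h7, ?_⟩
      rw [h7] at h1
      linarith
  rcases hDfin with h1 | ⟨h1, h2⟩
  · rw [h1] at hrh
    have h3 : card (L a) + card (L b) = 3 := by omega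
    rcases Nat.lt_or_ge (card (L a)) 2 with h4 | h4
    · exact ⟨a, haT, b, hbT, by omega, by omega⟩
    · exact ⟨b, hbT, a, haT, by omega, by omega⟩
  · exfalso
    rw [h1] at hrh
    have h3 : card (L a) + card (L b) = 4 := by omega
    have h4 : (wt (L a) : ℤ) + wt (L b) ≤ 8 := by linarith
    rcases Nat.lt_or_ge (card (L a)) 2 with h5 | h5
    · exact Num2_13 hn (h.pos b hbT) (hsum a haT) (hsum b hbT) (by omega) (by omega)
        (fun d' hd' => hbest b d' hd') (hd b) (by omega) (fun d' hd' => hgcd d' hd')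
    · rcases Nat.lt_or_ge (card (L b)) 2 with h6 | h6
      · exact Num2_13 hn (h.pos a haT) (hsum b hbT) (hsum a haT) (by omega) (by omega)
          (fun d' hd' => hbest a d' hd') (hd a) (by omega)
          (fun d' hd' h7 => hgcd d' hd' ⟨h7.2, h7.1⟩)
      · obtain ⟨g, hg1, hg2, hg3⟩ := wt_pair (h.pos a haT) (by omega)
        obtain ⟨g', hg1', hg2', hg3'⟩ := wt_pair (h.pos b hbT) (by omega)
        rw [hsum a haT] at hg3
        rw [hsum b hbT] at hg3'
        obtain ⟨k, hk⟩ : g ∣ n := by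
          rw [← hsum a haT]
          exact Multiset.dvd_sum hg2
        obtain ⟨k', hk'⟩ : g' ∣ n := by
          rw [← hsum b hbT]
          exact Multiset.dvd_sum hg2'
        have hk2 : 2 ≤ k := by
          by_contra hcon
          have h7 : k = 0 ∨ k = 1 := by omega
          rcases h7 with h7 | h7
          · rw [h7] at hk
            omega
          · rw [h7, mul_one] at hk
            omega
        have hk2' : 2 ≤ k' := by
          by_contra hcon
          have h7 : k' = 0 ∨ k' = 1 := by omega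
          rcases h7 with h7 | h7
          · rw [h7] at hk'
            omega
          · rw [h7, mul_one] at hk'
            omega
        have hsum' : n ≤ g + g' + 4 := by omega
        have hne : k ≠ k' := by
          intro heq
          have h7 : g = g' := by
            rw [heq] at hk
            rw [hk] at hk'
            exact Nat.eq_of_mul_eq_mul_right (by omega) hk'
          rw [← h7] at hg2'
          exact hgcd g (by omega) ⟨hg2, hg2'⟩
        have h7 : (2 ≤ k ∧ 3 ≤ k') ∨ (3 ≤ k ∧ 2 ≤ k') := by omega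
        rcases h7 with ⟨h7, h8⟩ | ⟨h7, h8⟩
        · have h9 : g * 2 ≤ n := by
            rw [hk]
            exact Nat.mul_le_mul_left g h7
          have h10 : g' * 3 ≤ n := by
            rw [hk']
            exact Nat.mul_le_mul_left g' h8
          omega
        · have h9 : g * 3 ≤ n := by
            rw [hk]
            exact Nat.mul_le_mul_left g h7
          have h10 : g' * 2 ≤ n := by
            rw [hk']
            exact Nat.mul_le_mul_left g' h8
          omega

/-- **Explicit types, genus at most two.**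

Proof.  `even_le` (Gen/InvD.lean) for `R = critV C` gives `∑ countP Even ≤ 6` (as `ev_le` in NI/Ev.lean), and
the rest is as `types_of_DT` (NI/Types.lean) with `num_large2`. -/
theorem irr_types2 {C : RF} (h28 : 28 ≤ C.n) (hD : DT C)
    (h : ∀ T : Finset P1, ∑ c ∈ T, (wt (pas C c) : ℤ) ≤ 2 * C.n) : TypAB C ∨ Ty333 C := by
  classical
  have hn3 : 3 ≤ C.n := by omega
  have hn1 : 1 ≤ C.n := by omega
  have hN : NumD2 (critV C hn1) (pas C) C.n := by
    constructor
    · intro c _
      exact pas_pos hn1 c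
    · intro c _
      exact pas_sum hn1 c
    · intro c hc
      obtain ⟨z, hz, he⟩ := (mem_critV hn1).1 hc
      exact card_pas_lt hn1 hz he
    · exact rh_fibres hn1
    · exact h _
    · have h1 := WildG.even_le hn3 hD (critV C hn1) (fun z hz => (mem_critV hn1).2 ⟨z, rfl, by
        have := C.one_le_e hn1 z
        omega⟩)
      have h2 := h (critV C hn1)
      rw [← Nat.cast_sum] at h2
      omega
    · intro c _ c' _ hcc d hd hdd
      exact Types_gcd hn3 hD hcc hd (fun z hz => hdd.1 _ (mem_pas hn1 hz))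
        (fun z hz => hdd.2 _ (mem_pas hn1 hz))
  rcases num_large2 hN h28 with ⟨c, -, c', -, h1, h2⟩ | ⟨k, hk, hT, hL⟩
  · left
    obtain ⟨a, ha⟩ := Multiset.card_eq_one.1 h1
    obtain ⟨b1, b2, hb⟩ := Multiset.card_eq_two.1 h2
    obtain ⟨z, hz, he, -⟩ := exists_one hn1 (M := 0) (a := a) (by rw [ha]; rfl)
    obtain ⟨z1, z2, h12, hz1, hz2, he1, he2, -⟩ := exists_two hn1 (M := 0) (a := b1) (b := b2)
      (by rw [hb]; rfl)
    have hsa := pas_sum hn1 c
    have hsb := pas_sum hn1 c'
    rw [ha, Multiset.sum_singleton] at hsa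
    rw [hb] at hsb
    refine ⟨by omega, z, z1, z2, by rw [he, hsa], h12, by rw [hz1, hz2], ?_⟩
    rw [he1, he2, ← hsb]
    simp
  · right
    refine ⟨k, hk, ?_⟩
    have h1 : (critV C hn1).val.map (pas C) =
        ((List.map (fun l : List ℕ => (l : Multiset ℕ))
          (List.replicate 3 (1 :: List.replicate k 3)) : List (Multiset ℕ)) :
            Multiset (Multiset ℕ)) := by
      rw [List.map_replicate, Multiset.coe_replicate]
      rw [Multiset.eq_replicate]
      refine ⟨by rw [Multiset.card_map]; exact hT, ?_⟩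
      intro b hb
      obtain ⟨z, hz, rfl⟩ := Multiset.mem_map.1 hb
      exact hL z hz
    obtain ⟨c, hc, -, hcL⟩ := Types_enum (pas C) _ (critV C hn1) h1
    exact ⟨c, hc, hcL⟩

end WildTA
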