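import Pool.Agent.helper44.TA.Fix

/-! The action of the group on the places, and restriction to the fixed fields. -/

namespace WildTA

open Polynomial WildRat WildS WildV WildG WildH

variable {N : Type} [Field N] [Algebra ℂ N] [Algebra E N] [IsScalarTower ℂ E N]
  [FiniteDimensional E N] [IsGalois E N]

omit [FiniteDimensional E N] [IsGalois E N] in
theorem Plc_ordX (g : N ≃ₐ[E] N) (P : Pl N) :
    (g • P).ord (cN N RatFunc.X) = P.ord (cN N RatFunc.X) := by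
  rw [smul_ord, cN_fix]

omit [FiniteDimensional E N] [IsGalois E N] in
theorem Plc_ordXa (g : N ≃ₐ[E] N) (P : Pl N) (a : ℂ) :
    (g • P).ord (cN N RatFunc.X - algebraMap ℂ N a) =
      P.ord (cN N RatFunc.X - algebraMap ℂ N a) := by
  have h1 : g⁻¹ (algebraMap ℂ N a) = algebraMap ℂ N a := (gC g⁻¹).commutes a
  rw [smul_ord, map_sub, cN_fix, h1]

omit [FiniteDimensional E N] [IsGalois E N] in
theorem Plc_fib (g : N ≃ₐ[E] N) (P : Pl N) (a : ℂ) :
    g • P ∈ fib (cN N) a ↔ P ∈ fib (cN N) a := by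
  show 0 < (g • P).ord (cN N RatFunc.X - algebraMap ℂ N a) ↔
    0 < P.ord (cN N RatFunc.X - algebraMap ℂ N a)
  rw [Plc_ordXa]

omit [FiniteDimensional E N] [IsGalois E N] in
theorem act_pt (g : N ≃ₐ[E] N) (P : Pl N) (p : P1) : Pt (cN N) (g • P) p ↔ Pt (cN N) P p := by
  cases p with
  | none =>
    show (g • P).ord (cN N RatFunc.X) < 0 ↔ P.ord (cN N RatFunc.X) < 0
    rw [Plc_ordX]
  | some a => exact Plc_fib g P a

omit [FiniteDimensional E N] [IsGalois E N] in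
theorem act_ram (g : N ≃ₐ[E] N) (P : Pl N) : ram (cN N) (g • P) = ram (cN N) P := by
  by_cases h : ∃ a, P ∈ fib (cN N) a
  · obtain ⟨a, ha⟩ := h
    rw [ram_fib ha, ram_fib ((Plc_fib g P a).2 ha), Plc_ordXa]
  · have h' : ¬ ∃ a, g • P ∈ fib (cN N) a := by
      rintro ⟨a, ha⟩
      exact h ⟨a, (Plc_fib g P a).1 ha⟩
    unfold ram
    rw [dif_neg h, dif_neg h', Plc_ordX]

/-- The restriction of a place to the fixed field. -/
noncomputable def rJ (J : Subgroup (N ≃ₐ[E] N)) (Q : Pl N) : Pl (FJ J) := rst (iJ J) (finC_iJ J) Q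

/-- The ramification index over the fixed field. -/
noncomputable def eJ (J : Subgroup (N ≃ₐ[E] N)) (Q : Pl N) : ℕ := rix (iJ J) (finC_iJ J) Q

theorem rJ_spec (J : Subgroup (N ≃ₐ[E] N)) (Q : Pl N) :
    1 ≤ eJ J Q ∧ ∀ z : FJ J, Q.ord (iJ J z) = eJ J Q * (rJ J Q).ord z :=
  rst_spec (iJ J) (finC_iJ J) Q

/-- Proof: `rst_ram`, `iJ_comp`. -/
theorem rJ_ram (J : Subgroup (N ≃ₐ[E] N)) (Q : Pl N) :
    ram (cN N) Q = eJ J Q * ram (cJ J) (rJ J Q) := by
  have h : ram (cN N) Q = ram ((iJ J).comp (cJ J)) Q := by rw [iJ_comp]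
  rw [h]
  exact rst_ram (iJ J) (finC_iJ J) Q

/-- Two places of a field whose orders are proportional are equal (the orders are surjective). -/
theorem pl_eq_of_prop {K : Type} [Field K] [Algebra ℂ K] {P P' : Pl K} {a b : ℕ} (ha : 1 ≤ a)
    (hb : 1 ≤ b) (h : ∀ z : K, (a : ℤ) * P.ord z = b * P'.ord z) : P = P' := by
  have hab : (a : ℤ) = b := by
    obtain ⟨t, -, ht⟩ := P.exists_unif
    obtain ⟨t', -, ht'⟩ := P'.exists_unif
    have h1 := h t
    have h2 := h t'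
    rw [ht, mul_one] at h1
    rw [ht', mul_one] at h2
    have h3 : b ∣ a := by
      have : (b : ℤ) ∣ (a : ℤ) := ⟨_, h1⟩
      exact_mod_cast this
    have h4 : a ∣ b := by
      have : (a : ℤ) ∣ (b : ℤ) := ⟨_, h2.symm⟩
      exact_mod_cast this
    exact_mod_cast Nat.dvd_antisymm h4 h3
  have hb0 : (b : ℤ) ≠ 0 := by omega
  have hord : ∀ z : K, P.ord z = P'.ord z := by
    intro z
    have h1 := h z
    rw [hab] at h1
    exact mul_left_cancel₀ hb0 h1
  apply Pl.ext'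
  intro u
  by_cases hu : u = 0
  · rw [hu, map_zero, map_zero]
  · have h1 : P.v u ≠ 0 := (Valuation.ne_zero_iff _).2 hu
    have h2 : P'.v u ≠ 0 := (Valuation.ne_zero_iff _).2 hu
    have h3 : WithZero.log (P.v u) = WithZero.log (P'.v u) := by
      have h4 : - WithZero.log (P.v u) = - WithZero.log (P'.v u) := hord u
      omega
    rw [← WithZero.exp_log h1, ← WithZero.exp_log h2, h3]

/-- Elements of `J` do not change the restriction.  Proof: they fix the elements of the fixed field, so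
the orders of `rJ J (g • Q)` and `rJ J Q` are proportional; `pl_eq_of_prop`. -/
theorem rJ_act {J : Subgroup (N ≃ₐ[E] N)} {g : N ≃ₐ[E] N} (hg : g ∈ J) (Q : Pl N) :
    rJ J (g • Q) = rJ J Q := by
  obtain ⟨h1, h2⟩ := rJ_spec J (g • Q)
  obtain ⟨h3, h4⟩ := rJ_spec J Q
  refine pl_eq_of_prop h1 h3 fun z => ?_
  rw [← h2 z, ← h4 z, smul_ord]
  rw [(mem_J J (iJ J z)).1 ⟨z, rfl⟩ g⁻¹ (J.inv_mem hg)]

theorem rJ_pt (J : Subgroup (N ≃ₐ[E] N)) (Q : Pl N) (p : P1) :
    Pt (cJ J) (rJ J Q) p ↔ Pt (cN N) Q p := by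
  rw [← iJ_comp J]
  cases p with
  | none =>
    obtain ⟨h1, h2⟩ := rJ_spec J Q
    have h3 : Q.ord (((iJ J).comp (cJ J)) RatFunc.X) =
        eJ J Q * (rJ J Q).ord (cJ J RatFunc.X) := h2 _
    show (rJ J Q).ord (cJ J RatFunc.X) < 0 ↔ Q.ord (((iJ J).comp (cJ J)) RatFunc.X) < 0
    rw [h3]
    have h4 : (0 : ℤ) < eJ J Q := by omega
    constructor
    · exact fun h => mul_neg_of_pos_of_neg h4 h
    · intro h
      by_contra h5
      exact absurd h (not_lt.2 (mul_nonneg h4.le (not_lt.1 h5)))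
  | some a => exact (rst_fib (iJ J) (finC_iJ J) Q a).symm

/-- An element of order one at `P` and of order zero at the other places over the same point, also
at infinity.  Proof: `Over_elt`, for the coordinate `φ.comp invE` and the point `0` at infinity
(`mem_fib_inv`). -/
theorem exists_sep {K : Type} [Field K] [Algebra ℂ K] {φ : E →ₐ[ℂ] K} (hφ : FinC φ) {p : P1}
    {P : Pl K} (hP : Pt φ P p) :
    ∃ z : K, z ≠ 0 ∧ P.ord z = 1 ∧ ∀ P' : Pl K, Pt φ P' p → P' ≠ P → P'.ord z = 0 := by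
  cases p with
  | none =>
    have h0 : FinC (φ.comp invE) := finC_comp hφ finC_invE
    obtain ⟨z, h1, h2, h3⟩ := Over_elt h0 ((mem_fib_inv φ P).2 hP)
    exact ⟨z, h1, h2, fun P' hP' hne => h3 P' ((mem_fib_inv φ P').2 hP') hne⟩
  | some a =>
    obtain ⟨z, h1, h2, h3⟩ := Over_elt hφ hP
    exact ⟨z, h1, h2, fun P' hP' hne => h3 P' hP' hne⟩

/-- **Transitivity.**

Proof.  Let `p` be the point of `cN N` at `Q` (`exists_Pt`); it is also the point at `Q'` (`rJ_pt`).  Suppose `g • Q ≠ Q'`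
for all `g ∈ J`.  Let `z` be the element of `exists_sep` for `Q'`, and `w = ∏ g ∈ J, g z`, which is fixed by
`J`, so `w = iJ J w'` (`mem_J`), `w ≠ 0`.  `Q.ord w = ∑ g, Q.ord (g z) = ∑ g, (g⁻¹ • Q).ord z = 0` (`g⁻¹ • Q ≠ Q'`,
`act_pt`), and `Q'.ord w = ∑ g, (g⁻¹ • Q').ord z ≥ 1` (the term `g = 1` is `1`, the other ones are `0` or
`1`).  But `Q.ord w = eJ J Q * (rJ J Q).ord w'` and `Q'.ord w = eJ J Q' * (rJ J Q').ord w'`
(`rJ_spec`), a contradiction. -/
theorem rJ_trans {J : Subgroup (N ≃ₐ[E] N)} {Q Q' : Pl N} (h : rJ J Q = rJ J Q') :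
    ∃ g ∈ J, g • Q = Q' := by
  classical
  by_contra hcon
  push Not at hcon
  obtain ⟨p, hp⟩ := exists_Pt (finC_N (N := N)) Q
  have hp' : Pt (cN N) Q' p := by
    rw [← rJ_pt J, ← h, rJ_pt J]
    exact hp
  obtain ⟨z, hz, hz1, hz2⟩ := exists_sep (finC_N (N := N)) hp'
  let _ : Fintype J := Fintype.ofFinite _
  set w : N := ∏ g : J, (g : N ≃ₐ[E] N) z with hw
  have hgz : ∀ g : N ≃ₐ[E] N, g z ≠ 0 := fun g h0 => hz (g.injective (by rw [h0, map_zero]))
  have hw0 : w ≠ 0 := Finset.prod_ne_zero_iff.2 fun g _ => hgz g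
  have hfix : ∀ k ∈ J, k w = w := by
    intro k hk
    rw [hw, map_prod]
    exact Fintype.prod_equiv (Equiv.mulLeft (⟨k, hk⟩ : J)) _ _ fun g => rfl
  obtain ⟨w', hw'⟩ := (mem_J J w).2 hfix
  have hsum : ∀ R : Pl N, R.ord w = ∑ g : J, ((g : N ≃ₐ[E] N)⁻¹ • R).ord z := by
    intro R
    rw [hw]
    refine (R.ord_prod Finset.univ (fun g : J => (g : N ≃ₐ[E] N) z) fun g _ => hgz g).trans ?_
    refine Finset.sum_congr rfl fun g _ => ?_
    rw [smul_ord, inv_inv]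
  have hQ : Q.ord w = 0 := by
    rw [hsum]
    refine Finset.sum_eq_zero fun g _ => ?_
    exact hz2 _ ((act_pt _ _ _).2 hp) (hcon _ (J.inv_mem g.2))
  have hQ' : 1 ≤ Q'.ord w := by
    rw [hsum, ← Finset.sum_erase_add _ _ (Finset.mem_univ (1 : J))]
    have h1 : ((((1 : J) : N ≃ₐ[E] N))⁻¹ • Q').ord z = 1 := by
      rw [OneMemClass.coe_one, inv_one, one_smul, hz1]
    rw [h1]
    have h2 : 0 ≤ ∑ g ∈ Finset.univ.erase (1 : J), ((g : N ≃ₐ[E] N)⁻¹ • Q').ord z := by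
      refine Finset.sum_nonneg fun g _ => ?_
      by_cases h3 : (g : N ≃ₐ[E] N)⁻¹ • Q' = Q'
      · rw [h3, hz1]
        exact zero_le_one
      · rw [hz2 _ ((act_pt _ _ _).2 hp') h3]
    omega
  obtain ⟨h1, h2⟩ := rJ_spec J Q
  obtain ⟨h3, h4⟩ := rJ_spec J Q'
  have h5 := h2 w'
  have h6 := h4 w'
  rw [hw', hQ] at h5
  rw [hw', ← h] at h6
  have h7 : (rJ J Q).ord w' = 0 := by
    rcases mul_eq_zero.1 h5.symm with h8 | h8
    · omega
    · exact h8
  rw [h7, mul_zero] at h6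
  omega

/-- Every place of the fixed field is a restriction.  Proof: `Over_fin`: the sum of the indices over
`P` times `deg (cJ J)` is `deg > 0`, so the set is not empty. -/
theorem rJ_surj (J : Subgroup (N ≃ₐ[E] N)) (P : Pl (FJ J)) : ∃ Q : Pl N, rJ J Q = P := by
  obtain ⟨S, hS, hsum⟩ := Over_fin (iJ J) (finC_J J) (finC_iJ J) P
  have hpos : (0 : ℤ) < deg ((iJ J).comp (cJ J)) := by exact_mod_cast deg_pos (finC_iJ J)
  rcases S.eq_empty_or_nonempty with h | ⟨Q, hQ⟩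
  · rw [h, Finset.sum_empty, zero_mul] at hsum
    omega
  · exact ⟨Q, hS Q hQ⟩

theorem Plc_one {K : Type} [Field K] [Algebra ℂ K] {φ : E →ₐ[ℂ] K} (hφ : FinC φ)
    (hd : deg φ = 1) {a : ℂ} {P P' : Pl K} (h : P ∈ fib φ a) (h' : P' ∈ fib φ a) : P = P' := by
  classical
  by_contra hne
  have h1 := sum_self φ hφ a
  rw [hd] at h1
  have h2 : ∀ R ∈ fibS φ hφ a, (1 : ℤ) ≤ R.ord (φ RatFunc.X - algebraMap ℂ K a) := by
    intro R hR
    have h3 : 0 < R.ord (φ RatFunc.X - algebraMap ℂ K a) := mem_fibS.1 hR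
    omega
  have h3 : ({P, P'} : Finset (Pl K)) ⊆ fibS φ hφ a := by
    intro R hR
    rw [Finset.mem_insert, Finset.mem_singleton] at hR
    rcases hR with rfl | rfl
    · exact mem_fibS.2 h
    · exact mem_fibS.2 h'
  have h4 := Finset.card_le_card h3
  rw [Finset.card_pair hne] at h4
  have h5 := Finset.card_nsmul_le_sum (fibS φ hφ a)
    (fun R => R.ord (φ RatFunc.X - algebraMap ℂ K a)) 1 h2
  rw [h1, nsmul_eq_mul, mul_one] at h5
  have h6 : (fibS φ hφ a).card ≤ 1 := by exact_mod_cast h5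
  omega

theorem Plc_one' {K : Type} [Field K] [Algebra ℂ K] {φ : E →ₐ[ℂ] K} (hφ : FinC φ)
    (hd : deg φ = 1) {p : P1} {P P' : Pl K} (h : Pt φ P p) (h' : Pt φ P' p) : P = P' := by
  cases p with
  | none =>
    have h0 : FinC (φ.comp invE) := finC_comp hφ finC_invE
    refine Plc_one h0 ?_ (a := 0) ((mem_fib_inv φ P).2 h) ((mem_fib_inv φ P').2 h')
    rw [deg_comp_invE, hd]
  | some a => exact Plc_one hφ hd h h'

/-- Places over the same point are conjugate.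

Proof.  `J = ⊤`: the fixed field has degree one over `E` (`deg_J`), so it has only one place over `p`:
`sum_self` (or for infinity `sum_self` for `comp invE`): the sum of the ramification numbers, all at
least one, over the places over `p` is one.  `rJ_trans`. -/
theorem N_trans {Q Q' : Pl N} {p : P1} (h : Pt (cN N) Q p) (h' : Pt (cN N) Q' p) :
    ∃ g : N ≃ₐ[E] N, g • Q = Q' := by
  have hd : deg (cJ (⊤ : Subgroup (N ≃ₐ[E] N))) = 1 := by
    have h1 := deg_J (⊤ : Subgroup (N ≃ₐ[E] N))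
    have h2 : Nat.card (⊤ : Subgroup (N ≃ₐ[E] N)) = Nat.card (N ≃ₐ[E] N) :=
      Subgroup.card_top
    rw [h2] at h1
    have h3 : 0 < Nat.card (N ≃ₐ[E] N) := Nat.card_pos
    exact Nat.eq_of_mul_eq_mul_right h3 (by rw [h1, one_mul])
  have h1 : rJ ⊤ Q = rJ ⊤ Q' :=
    Plc_one' (finC_J _) hd ((rJ_pt ⊤ Q p).2 h) ((rJ_pt ⊤ Q' p).2 h')
  obtain ⟨g, -, hg⟩ := rJ_trans h1
  exact ⟨g, hg⟩

/-- There is a place over every point.  Proof: `sum_self`, `deg_pos`. -/
theorem exists_over {K : Type} [Field K] [Algebra ℂ K] {φ : E →ₐ[ℂ] K} (hφ : FinC φ) (p : P1) :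
    ∃ Q : Pl K, Pt φ Q p := by
  have key : ∀ {ψ : E →ₐ[ℂ] K} (_ : FinC ψ) (a : ℂ), ∃ Q : Pl K, Q ∈ fib ψ a := by
    intro ψ hψ a
    have h1 := sum_self ψ hψ a
    have hpos : (0 : ℤ) < deg ψ := by exact_mod_cast deg_pos hψ
    rcases (fibS ψ hψ a).eq_empty_or_nonempty with h | ⟨Q, hQ⟩
    · rw [h, Finset.sum_empty] at h1
      omega
    · exact ⟨Q, mem_fibS.1 hQ⟩
  cases p with
  | none =>
    obtain ⟨Q, hQ⟩ := key (finC_comp hφ finC_invE) 0
    exact ⟨Q, (mem_fib_inv φ Q).1 hQ⟩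
  | some a => exact key hφ a

end WildTA
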