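import Pool.Agent.helper44.TA.Fin
import Pool.Agent.helper44.TG.Num

/-! Wild rational functions: the classification up to functions of bounded degree. -/

namespace WildTA

open Polynomial WildRat WildS WildV WildG WildH WildN MulAction WildT WildLA

/-- **Main theorem.** -/
theorem star_iff (A : RF) (hn : 2 ≤ A.n) : A.Wild ↔
    ∃ B C : RF, A.IsComp B C ∧ 2 ≤ C.n ∧ (GalLe C ∨ TypAB C ∨ (C.Wild ∧ C.n ≤ tp 140)) := by
  have hn1 : 1 ≤ A.n := by omega
  constructor
  · intro hw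
    obtain ⟨B, C, h1, h2, h3⟩ := star_hard A.n A le_rfl hn hw
    refine ⟨B, C, h1, h2, ?_⟩
    rcases h3 with h3 | h3 | ⟨h3, h4⟩
    · exact Or.inl h3
    · exact Or.inr (Or.inl h3)
    · exact Or.inr (Or.inr ⟨h3, h4.trans N2_le⟩)
  · rintro ⟨B, C, h1, h2, h3⟩
    have hC : C.Wild := by
      rcases h3 with h3 | h3 | ⟨h3, -⟩
      · exact galLe_wild h2 (Or.inl h3)
      · exact galLe_wild h2 (Or.inr h3)
      · exact h3
    exact wild_of_comp h1 hn1 (by omega) hC

/-- In terms of the genus of the components. -/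
theorem star_genus (A : RF) (hn : 2 ≤ A.n) : (A.GenusZero ∨ A.GenusOne) ↔
    ∃ B C : RF, A.IsComp B C ∧ 2 ≤ C.n ∧
      (GalLe C ∨ TypAB C ∨ ((C.GenusZero ∨ C.GenusOne) ∧ C.n ≤ tp 140)) := by
  rw [← WildG.wild_iff_genus (by omega : 1 ≤ A.n), star_iff A hn]
  refine exists_congr fun B => exists_congr fun C => and_congr_right fun _ =>
    and_congr_right fun h2 => ?_
  rw [← WildG.wild_iff_genus (by omega : 1 ≤ C.n)]

/-- The exceptional functions: wild, of bounded degree, all proper right factors are tame, and not of one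
of the kinds for which the classification is complete. -/
structure Exc (C : RF) : Prop where
  wild : C.Wild
  le : C.n ≤ tp 140
  cls : ¬ WildLD.Cls C
  min : ∀ D F : RF, C.IsComp D F → 2 ≤ F.n → F.n < C.n → ¬ F.Wild

/-- A wild right factor all of whose proper right factors are tame. -/
theorem exists_min : ∀ (m : ℕ) (A : RF), A.n ≤ m → 2 ≤ A.n → A.Wild →
    ∃ B C : RF, A.IsComp B C ∧ 2 ≤ C.n ∧ C.Wild ∧
      ∀ D F : RF, C.IsComp D F → 2 ≤ F.n → F.n < C.n → ¬ F.Wild := by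
  intro m
  induction m with
  | zero =>
    intro A h1 h2 _
    omega
  | succ m ih =>
    intro A hm hn hw
    by_cases hex : ∃ B C : RF, A.IsComp B C ∧ 2 ≤ C.n ∧ C.n < A.n ∧ C.Wild
    · obtain ⟨B, C, hcomp, h2, hlt, hCw⟩ := hex
      obtain ⟨B1, C1, h3, h4, h5⟩ := ih C (by omega) h2 hCw
      obtain ⟨B2, h6⟩ := isComp_trans (by omega) (by omega) (by omega) hcomp h3
      exact ⟨B2, C1, h6, h4, h5⟩
    · exact ⟨Normal_id, A, WildLD.comp_self A, hn, hw,
        fun B C h1 h2 h3 h4 => hex ⟨B, C, h1, h2, h3, h4⟩⟩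

/-- **Main theorem, refined.** -/
theorem star_fine (A : RF) (hn : 2 ≤ A.n) : A.Wild ↔
    ∃ B C : RF, A.IsComp B C ∧ 2 ≤ C.n ∧ (WildLD.Lst C ∨ Exc C) := by
  have hn1 : 1 ≤ A.n := by omega
  constructor
  · intro hw
    obtain ⟨B, C, h1, h2, h3, h4⟩ := exists_min A.n A le_rfl hn hw
    by_cases hc : WildLD.Cls C
    · obtain ⟨B1, C1, h5, h6, h7⟩ := WildLD.cls_hard C h2 hc h3
      obtain ⟨B2, h8⟩ := isComp_trans hn1 (by omega) (by omega) h1 h5
      exact ⟨B2, C1, h8, h6, Or.inl h7⟩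
    · have hmain : GalLe C ∨ TypAB C ∨ C.n ≤ N2 100 := by
        rcases id h3 with hr | ⟨f, hf3, hsq, hsol⟩
        · exact star_good good_E C h2 hr h4
        · have := kf_fact f (by rw [hf3]; decide)
          exact star_good (good_KF f hf3 hsq) C h2 hsol h4
      refine ⟨B, C, h1, h2, ?_⟩
      rcases hmain with h5 | h5 | h5
      · exact Or.inl (Or.inl h5)
      · exact Or.inl (Or.inr (Or.inl h5))
      · exact Or.inr ⟨h3, h5.trans N2_le, hc, h4⟩
  · rintro ⟨B, C, h1, h2, h3 | h3⟩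
    · exact WildLD.wild_of_lst hn1 h1 h2 h3
    · exact wild_of_comp h1 hn1 (by omega) h3.wild

end WildTA
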