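import Pool.Agent.helper44.TA.Unr
import Pool.Agent.helper44.TA.Gtwo
import Pool.Agent.helper44.TA.Num2
import Pool.Agent.helper44.LA.Final

/-! Two points of a proper block of a function all of whose proper right factors are tame.
(proofs: helper41) -/

namespace WildTA

open Polynomial WildRat WildS WildV WildG WildH WildN MulAction WildT WildLA

variable {N : Type} [Field N] [Algebra ℂ N] [Algebra E N] [IsScalarTower ℂ E N]
  [FiniteDimensional E N] [IsGalois E N] {R : Finset ℂ} {σ : ℂ → (N ≃ₐ[E] N)} {Q : ℂ → Pl N}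
  {A : RF}

theorem Tame_ext {K L₁ L₂ : Type} [Field K] [Field L₁] [Field L₂] {d₁ : K →+* L₁} {d₂ : K →+* L₂}
    (c₁ : IsAlgClosed L₁) (i₁ : d₁.IsIntegral) (c₂ : IsAlgClosed L₂) (i₂ : d₂.IsIntegral) :
    ∃ τ : L₁ ≃+* L₂, ∀ x, τ (d₁ x) = d₂ x := by
  let := d₁.toAlgebra
  let := d₂.toAlgebra
  have h1 : Algebra.IsIntegral K L₁ := ⟨i₁⟩
  have h2 : Algebra.IsIntegral K L₂ := ⟨i₂⟩
  have h3 : IsAlgClosure K L₁ := ⟨c₁, inferInstance⟩
  have h4 : IsAlgClosure K L₂ := ⟨c₂, inferInstance⟩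
  refine ⟨(IsAlgClosure.equiv K L₁ L₂).toRingEquiv, fun x => ?_⟩
  exact (IsAlgClosure.equiv K L₁ L₂).commutes x

theorem Tame_aeval {K L : Type} [Field K] [Algebra ℂ K] [Field L] [Algebra ℂ L] (ι : K →ₐ[ℂ] L)
    (z : K) (p : ℂ[X]) : aeval (ι z) p = ι (aeval z p) := aeval_algHom_apply ι z p

theorem Tame_Sm {K L : Type} [Field K] [Algebra ℂ K] [Field L] [Algebra ℂ L] (ι : K →ₐ[ℂ] L)
    (C : RF) (z w : K) : Sm C (ι z) (ι w) ↔ Sm C z w := by
  unfold Sm
  rw [Tame_aeval, Tame_aeval, Tame_aeval, Tame_aeval, ← map_mul, ← map_mul]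
  exact ι.toRingHom.injective.eq_iff

/-- **The ambient field.**  The solutions in it are those in `N`, the automorphisms of `N` extend and the
automorphisms fixing `t` restrict to `N`.

Proof.  `L = AlgebraicClosure N`, `ι = algebraMap`, `δ = ι ∘ cN N`.  `Amb`: `N` is finite over `E`, `L` is algebraic over
`N`.  Solutions: `ι` maps the `A.n` elements of `Om A N` (`Spl.card`) injectively into the set of the solutions in `L`,
which has `A.n` elements (`Amb.roots`).  Extension: `AlgEquiv.liftNormal` (with `L` as an `E`-algebra through `δ`,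
`L` is normal over `E`) or `IsAlgClosure.equivOfEquiv`.  Restriction: `N` is normal over `E`,
`AlgEquiv.restrictNormal`; `τ` fixes the range of `δ` (`coord_ext`).  See `Conj_core`, `exists_sigma` in HD/Conj.lean. -/
theorem exists_L (hA : NormG A) (hS : Spl A N) :
    ∃ (L : Type) (_ : Field L) (_ : Algebra ℂ L) (ι : N →ₐ[ℂ] L) (δ : E →ₐ[ℂ] L), Amb δ ∧
      ι (cN N RatFunc.X) = δ RatFunc.X ∧
      (∀ z, Sol A (δ RatFunc.X) z ↔ ∃ x : Om A N, ι x = z) ∧
      (∀ g : N ≃ₐ[E] N, ∃ τ : L ≃ₐ[ℂ] L, τ (δ RatFunc.X) = δ RatFunc.X ∧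
        ∀ u, τ (ι u) = ι (g u)) ∧
      ∀ τ : L ≃ₐ[ℂ] L, τ (δ RatFunc.X) = δ RatFunc.X → ∃ g : N ≃ₐ[E] N, ∀ u, τ (ι u) = ι (g u) := by
  classical
  have hn : 1 ≤ A.n := le_trans (by norm_num) hA.two
  have hfin : Finite (Om A N) := Nat.finite_of_card_ne_zero (by rw [hS.card]; omega)
  let ι : N →ₐ[ℂ] AlgebraicClosure N := IsScalarTower.toAlgHom ℂ N (AlgebraicClosure N)
  let δ : E →ₐ[ℂ] AlgebraicClosure N := ι.comp (cN N)
  have hint : (algebraMap N (AlgebraicClosure N)).IsIntegral := by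
    rw [algebraMap_isIntegral_iff]
    infer_instance
  have hδ : Amb δ := by
    refine ⟨inferInstance, ?_⟩
    exact RingHom.IsIntegral.trans (cN N).toRingHom (algebraMap N (AlgebraicClosure N))
      (RingHom.Finite.to_isIntegral finC_N) hint
  have hsol : ∀ x : N, Sol A (cN N RatFunc.X) x → Sol A (δ RatFunc.X) (ι x) := by
    intro x hx
    show aeval (ι x) A.P = ι (cN N RatFunc.X) * aeval (ι x) A.Q
    rw [Tame_aeval, Tame_aeval, ← map_mul]
    exact congrArg ι hx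
  have hι : Function.Injective ι := ι.toRingHom.injective
  refine ⟨AlgebraicClosure N, inferInstance, inferInstance, ι, δ, hδ, rfl, ?_, ?_, ?_⟩
  · obtain ⟨s, hs1, hs2, -⟩ := hδ.roots hn hA.monic hA.lt
    have _ := Fintype.ofFinite (Om A N)
    have hsub : (Finset.univ.image fun x : Om A N => ι x) ⊆ s := by
      intro w hw
      obtain ⟨x, -, rfl⟩ := Finset.mem_image.1 hw
      exact (hs1 _).2 (hsol x x.2)
    have hcard : (Finset.univ.image fun x : Om A N => ι x).card = A.n := by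
      rw [Finset.card_image_of_injective _ (fun x y h => Subtype.ext (hι h)), Finset.card_univ,
        ← Nat.card_eq_fintype_card, hS.card]
    have heq := Finset.eq_of_subset_of_card_le hsub (by rw [hs2, hcard])
    intro z
    rw [← hs1, ← heq, Finset.mem_image]
    constructor
    · rintro ⟨x, -, hx⟩
      exact ⟨x, hx⟩
    · rintro ⟨x, hx⟩
      exact ⟨x, Finset.mem_univ _, hx⟩
  · intro g
    have hi2 : ((algebraMap N (AlgebraicClosure N)).comp (g : N →+* N)).IsIntegral :=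
      RingHom.IsIntegral.trans (g : N →+* N) (algebraMap N (AlgebraicClosure N))
        (RingHom.isIntegral_of_surjective _ g.surjective) hint
    obtain ⟨τ, hτ⟩ := Tame_ext (d₁ := algebraMap N (AlgebraicClosure N))
      (d₂ := (algebraMap N (AlgebraicClosure N)).comp (g : N →+* N)) inferInstance hint
      inferInstance hi2
    have hτ' : ∀ u : N, τ (ι u) = ι (g u) := hτ
    refine ⟨AlgEquiv.ofRingEquiv (f := τ) ?_, ?_, ?_⟩
    · intro c
      rw [← ι.commutes c, hτ']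
      congr 1
      exact (gC g).commutes c
    · show τ (ι (cN N RatFunc.X)) = ι (cN N RatFunc.X)
      rw [hτ', cN_fix]
    · exact hτ'
  · intro τ hτ
    have hτδ : ∀ v : E, τ (δ v) = δ v := by
      intro v
      have h1 : (τ.toAlgHom.comp δ) = δ := coord_ext hτ
      exact congrArg (fun f : E →ₐ[ℂ] AlgebraicClosure N => f v) h1
    have hδa : ∀ v : E, algebraMap E (AlgebraicClosure N) v = δ v := by
      intro v
      rw [IsScalarTower.algebraMap_apply E N (AlgebraicClosure N)]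
      rfl
    let τE : AlgebraicClosure N ≃ₐ[E] AlgebraicClosure N :=
      AlgEquiv.ofRingEquiv (f := τ.toRingEquiv) (by
        intro v
        rw [hδa]
        exact hτδ v)
    refine ⟨τE.restrictNormal N, fun u => ?_⟩
    exact (AlgEquiv.restrictNormal_commutes τE N u).symm

/-- **The right factor of a block.**

Proof.  `exists_L`, `exists_class` for the relation (`z = ι x`, `w = ι y` with `r x y`) (invariance by the last clause
of `exists_L`); `Sm C (ι x) (ι y) ↔ Sm C x y` because `ι` is injective.  `C.P` is monic and `C.Q` has smaller degree,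
so `1 ≤ C.n`; `comp_facts`: `A.n = B.n * C.n`.  `Amb.cls`: for `z = ι x` the elements `w` with `Sm C z w` are `C.n` many and
all are solutions, so `Nat.card {y // r x y} = C.n`.  `2 ≤ C.n` by the pair `x ≠ x'`.  `C.n < A.n`: otherwise the class
has `A.n = card Om` elements and `r` is not proper.  `unram` for `C`: `comp_norm hn hA.lt hA.unram hcomp hClt`
(see SolS.prim in LA/GrpA.lean for the whole pattern). -/
theorem block_fun (hA : NormG A) (hS : Spl A N) {r : Om A N → Om A N → Prop}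
    (hr : Inv (N ≃ₐ[E] N) r) (hp : Ppr r) (h2 : ∃ x x', x ≠ x' ∧ r x x') :
    ∃ B C : RF, A.IsComp B C ∧ NormG C ∧ C.n < A.n ∧
      (∀ x y : Om A N, r x y ↔ Sm C (x : N) (y : N)) ∧ ∀ x, Nat.card {y // r x y} = C.n := by
  classical
  have hn : 1 ≤ A.n := le_trans (by norm_num) hA.two
  obtain ⟨L, iF, iA, ι, δ, hδ, hX, hsol, -, hres⟩ := exists_L hA hS
  have hι : Function.Injective ι := ι.toRingHom.injective
  have hinj : ∀ x y : Om A N, ι x = ι y → x = y := fun x y h => Subtype.ext (hι h)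
  have hsolι : ∀ x : Om A N, Sol A (δ RatFunc.X) (ι x) := fun x => (hsol _).2 ⟨x, rfl⟩
  obtain ⟨B, C, hcomp, hCm, hClt, hiff⟩ := exists_class hn hA.monic hA.lt hδ
    (R := fun z w => ∃ x y : Om A N, ι x = z ∧ ι y = w ∧ r x y)
    (fun z hz => by
      obtain ⟨x, hx⟩ := (hsol z).1 hz
      exact ⟨x, x, hx, hx, hr.eqv.refl x⟩)
    (fun z w _ _ ⟨x, y, hx, hy, h1⟩ => ⟨y, x, hy, hx, hr.eqv.symm h1⟩)
    (fun z w v _ _ _ ⟨x, y, hx, hy, h1⟩ ⟨y', v', hy', hv, h2'⟩ => by
      have h3 : y = y' := hinj _ _ (hy.trans hy'.symm)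
      subst h3
      exact ⟨x, v', hx, hv, hr.eqv.trans h1 h2'⟩)
    (by
      rintro τ z w hτ - - ⟨x, y, hx, hy, h1⟩
      obtain ⟨g, hg⟩ := hres τ hτ
      refine ⟨g • x, g • y, ?_, ?_, hr.map g x y h1⟩
      · rw [← hx, smul_val, hg]
      · rw [← hy, smul_val, hg])
  have hCn : 1 ≤ C.n := by
    have h1 : C.P.natDegree ≤ C.n := le_max_left _ _
    omega
  obtain ⟨-, hBn, hABC, -, -, -, -, hCun⟩ := comp_norm hn hA.lt hA.unram hcomp hClt
  have hrS : ∀ x y : Om A N, r x y ↔ Sm C (x : N) (y : N) := by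
    intro x y
    rw [← Tame_Sm ι, ← hiff _ _ (hsolι x) (hsolι y)]
    constructor
    · intro h
      exact ⟨x, y, rfl, rfl, h⟩
    · rintro ⟨x', y', hx, hy, h⟩
      rwa [hinj _ _ hx, hinj _ _ hy] at h
  have hcls : ∀ x : Om A N, ∃ s : Finset L, (∀ w, w ∈ s ↔ Sm C (ι x) w) ∧ s.card = C.n ∧
      ∀ w ∈ s, Sol A (δ RatFunc.X) w := fun x => hδ.cls hn hcomp hCm hClt (hsolι x)
  have hcard : ∀ x, Nat.card {y // r x y} = C.n := by
    intro x
    obtain ⟨s, h1, h3, h4⟩ := hcls x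
    rw [← h3, ← Fintype.card_coe, ← Nat.card_eq_fintype_card]
    refine Nat.card_eq_of_bijective (fun y : {y // r x y} =>
      (⟨ι y.1, (h1 _).2 ((Tame_Sm ι C _ _).2 ((hrS x y.1).1 y.2))⟩ : s)) ⟨?_, ?_⟩
    · intro y y' h
      exact Subtype.ext (hinj _ _ (congrArg Subtype.val h))
    · rintro ⟨w, hw⟩
      obtain ⟨y, hy⟩ := (hsol w).1 (h4 w hw)
      refine ⟨⟨y, (hrS x y).2 ((Tame_Sm ι C _ _).1 ?_)⟩, Subtype.ext hy⟩
      rw [hy]
      exact (h1 w).1 hw
  have h2C : 2 ≤ C.n := by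
    obtain ⟨x, x', hne, hx⟩ := h2
    obtain ⟨s, h1, h3, -⟩ := hcls x
    rw [← h3]
    refine Finset.one_lt_card.2 ⟨ι x, (h1 _).2 rfl, ι x', (h1 _).2
      ((Tame_Sm ι C _ _).2 ((hrS x x').1 hx)), fun h => hne (hinj _ _ h)⟩
  have hCA : C.n < A.n := by
    have hle : C.n ≤ A.n := by
      rw [hABC]
      exact Nat.le_mul_of_pos_left _ hBn
    refine lt_of_le_of_ne hle fun heq => ?_
    obtain ⟨x, y, hxy⟩ := hp
    apply hxy
    obtain ⟨s, h1, h3, h4⟩ := hcls x
    obtain ⟨s0, hs1, hs2, -⟩ := hδ.roots hn hA.monic hA.lt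
    have hsub : s ⊆ s0 := fun w hw => (hs1 w).2 (h4 w hw)
    have hss : s = s0 := Finset.eq_of_subset_of_card_le hsub (by rw [hs2, h3, heq])
    rw [hrS, ← Tame_Sm ι, ← h1, hss, hs1]
    exact hsolι y
  exact ⟨B, C, hcomp, ⟨hCm, hClt, h2C, hCun⟩, hCA, hrS, hcard⟩

/-- **The two coordinates.**

Proof.  `x_coord` for `x` and `x'` gives `δx`, `δx'`; `incl_deg` for `inf_le_left`, `inf_le_right` gives `θ`, `θ'`;
`ξ = θ ∘ δx`, `ξ' = θ' ∘ δx'`.  `deg δx = 1` (`ram_of_surj`), so `deg ξ * card st2 = card (stabilizer x)`.  `ξ ≠ ξ'` because the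
images of `X` in `N` are `x ≠ x'`.  `ξ (elt C) = ξ' (elt C)`: `coord_elt`, and `Sm C x x'` (`iJ` is injective; the
denominators `aeval x C.Q` are not zero because `x` is not constant, see `ClassF_sm` in HD/ClassF.lean). -/
theorem exists_coord2 (hA : NormG A) (hS : Spl A N) {C : RF} (hC : NormG C) {x x' : Om A N}
    (hne : x ≠ x') (hsm : Sm C (x : N) (x' : N)) :
    ∃ ξ ξ' : E →ₐ[ℂ] FJ (st2 (N ≃ₐ[E] N) x x'), ξ ≠ ξ' ∧ ξ (elt C) = ξ' (elt C) ∧ FinC ξ ∧
      deg ξ * Nat.card (st2 (N ≃ₐ[E] N) x x') = Nat.card (stabilizer (N ≃ₐ[E] N) x) := by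
  have hn : 1 ≤ C.n := le_trans (by norm_num) hC.two
  obtain ⟨δx, hδx, hsx, -⟩ := x_coord hA hS x
  obtain ⟨δx', hδx', hsx', -⟩ := x_coord hA hS x'
  obtain ⟨θ, hθ, hθd⟩ := incl_deg (N := N)
    (inf_le_left : st2 (N ≃ₐ[E] N) x x' ≤ stabilizer (N ≃ₐ[E] N) x)
  obtain ⟨θ', hθ', -⟩ := incl_deg (N := N)
    (inf_le_right : st2 (N ≃ₐ[E] N) x x' ≤ stabilizer (N ≃ₐ[E] N) x')
  obtain ⟨hf, hd, -⟩ := ram_of_surj hsx
  obtain ⟨hf1, hf2⟩ := hθd δx hf
  have e1 : iJ (st2 (N ≃ₐ[E] N) x x') ((θ.comp δx) RatFunc.X) = (x : N) := by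
    rw [AlgHom.comp_apply, hθ, hδx]
  have e2 : iJ (st2 (N ≃ₐ[E] N) x x') ((θ'.comp δx') RatFunc.X) = (x' : N) := by
    rw [AlgHom.comp_apply, hθ', hδx']
  refine ⟨θ.comp δx, θ'.comp δx', ?_, ?_, hf1, ?_⟩
  · intro h
    apply hne
    apply Subtype.ext
    rw [← e1, ← e2, h]
  · apply iJ_inj
    have f1 : ∀ χ : E →ₐ[ℂ] FJ (st2 (N ≃ₐ[E] N) x x'), iJ (st2 (N ≃ₐ[E] N) x x') (χ (elt C)) =
        C.app (iJ (st2 (N ≃ₐ[E] N) x x') (χ RatFunc.X)) := fun χ =>
      coord_elt ((iJ (st2 (N ≃ₐ[E] N) x x')).comp χ) C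
    have n1 : NonConst (x : N) := by
      rw [← e1]
      exact coord_nonConst ((iJ (st2 (N ≃ₐ[E] N) x x')).comp (θ.comp δx))
    have n2 : NonConst (x' : N) := by
      rw [← e2]
      exact coord_nonConst ((iJ (st2 (N ≃ₐ[E] N) x x')).comp (θ'.comp δx'))
    rw [f1, f1, e1, e2]
    unfold RF.app
    rw [div_eq_div_iff (n1.aeval_ne_zero (C.Q_ne_zero hn)) (n2.aeval_ne_zero (C.Q_ne_zero hn))]
    exact hsm
  · rw [hf2, hd, one_mul]

/-- **Two points of a proper block.**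

Proof.  `block_fun`, `exists_coord2`.  `chi_even`: `chiJ = 2 k`, `k ≥ -1`.  If `k ≤ 0`, then `chi_genus` gives `GenusLe ξ`, and
`wild_of_pair` says that `C` is wild, a contradiction to `ht`. -/
theorem tame_two (hA : NormG A) (hS : Spl A N) (h : Inr R σ Q)
    (ht : ∀ B C : RF, A.IsComp B C → 2 ≤ C.n → C.n < A.n → ¬ C.Wild)
    {r : Om A N → Om A N → Prop} (hr : Inv (N ≃ₐ[E] N) r) (hp : Ppr r) {x x' : Om A N}
    (hne : x ≠ x') (hx : r x x') : 2 ≤ chiJ R σ (st2 (N ≃ₐ[E] N) x x') := by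
  by_contra hlt
  push Not at hlt
  obtain ⟨k, hk, hchi⟩ := chi_even h (st2 (N ≃ₐ[E] N) x x')
  have hk0 : k ≤ 0 := by
    rw [hchi] at hlt
    have h1 : (k : ℚ) < 1 := by linarith
    have h2 : k < 1 := by exact_mod_cast h1
    omega
  have hle : chiJ R σ (st2 (N ≃ₐ[E] N) x x') ≤ 0 := by
    rw [hchi]
    have h1 : (k : ℚ) ≤ 0 := by exact_mod_cast hk0
    linarith
  obtain ⟨B, C, hcomp, hC, hCA, hrS, -⟩ := block_fun hA hS hr hp ⟨x, x', hne, hx⟩
  obtain ⟨ξ, ξ', hξ, heq, hf, -⟩ := exists_coord2 hA hS hC hne ((hrS x x').1 hx)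
  have hg := (chi_genus h (st2 (N ≃ₐ[E] N) x x') ξ).1 hle
  exact ht B C hcomp hC.two hCA
    (wild_of_pair (le_trans (by norm_num) hC.two) hf hg hξ heq)

/-- **Doubly transitive blocks: the curve is irreducible.**

Proof.  `exists_L`; `Amb.sol` for `z = ι x` gives `δz` with `Amb δz`, `δz X = ι x`.  `irr_of_two`: let `Sm C (ι x) v`, `Sm C (ι x) v'`,
both different from `ι x`.  They are solutions (`Amb.cls`), so `v = ι a`, `v' = ι b` with `a, b ≠ x`, `r x a`, `r x b`; take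
`g` from `h2` and extend it (`exists_L`). -/
theorem two_irr (hA : NormG A) (hS : Spl A N) {B C : RF} (hcomp : A.IsComp B C) (hC : NormG C)
    {r : Om A N → Om A N → Prop} (hrC : ∀ x y : Om A N, r x y ↔ Sm C (x : N) (y : N))
    (h2 : ∀ x a b : Om A N, r x a → r x b → a ≠ x → b ≠ x →
      ∃ g : N ≃ₐ[E] N, g • x = x ∧ g • a = b) (x : Om A N) : DTm C := by
  have hn : 1 ≤ A.n := le_trans (by norm_num) hA.two
  obtain ⟨L, iF, iA, ι, δ, hδ, hX, hsol, hext, -⟩ := exists_L hA hS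
  have hι : Function.Injective ι := ι.toRingHom.injective
  have hsolι : ∀ x : Om A N, Sol A (δ RatFunc.X) (ι x) := fun x => (hsol _).2 ⟨x, rfl⟩
  obtain ⟨δz, hδz, -, hLz⟩ := hδ.sol hn (hsolι x)
  obtain ⟨s, h1, -, h4⟩ := hδ.cls hn hcomp hC.monic hC.lt (hsolι x)
  have key : ∀ v, Sm C (ι x) v → v ≠ ι x → ∃ a : Om A N, ι a = v ∧ a ≠ x ∧ r x a := by
    intro v hv hvx
    obtain ⟨a, ha⟩ := (hsol v).1 (h4 v ((h1 v).2 hv))
    refine ⟨a, ha, ?_, ?_⟩
    · rintro rfl
      exact hvx ha.symm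
    · rw [hrC, ← Tame_Sm ι, ha]
      exact hv
  refine irr_of_two hC.two hC.monic hC.lt hLz ?_
  rw [hδz]
  intro v v' hv hvx hv' hvx'
  obtain ⟨a, ha, hax, hra⟩ := key v hv hvx
  obtain ⟨b, hb, hbx, hrb⟩ := key v' hv' hvx'
  obtain ⟨g, hgx, hgab⟩ := h2 x a b hra hrb hax hbx
  obtain ⟨τ, -, hτ⟩ := hext g
  refine ⟨τ, ?_, ?_⟩
  · rw [hτ]
    congr 1
    exact congrArg Subtype.val hgx
  · rw [← ha, ← hb, hτ]
    congr 1
    exact congrArg Subtype.val hgab

/-- The number of the points of the block.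

Proof.  The orbit of `x'` under the stabilizer of `x` is the set of the `y ≠ x` with `r x y` (`h2`; invariance), which has
`C.n - 1` elements; the stabilizer of `x'` in the stabilizer of `x` is `st2`; orbit-stabilizer theorem. -/
theorem two_deg {Ω G : Type} [Group G] [Finite G] [MulAction G Ω] {r : Ω → Ω → Prop}
    (hr : Inv G r) (h2 : ∀ x a b : Ω, r x a → r x b → a ≠ x → b ≠ x → ∃ g : G, g • x = x ∧ g • a = b)
    {x x' : Ω} (hne : x ≠ x') (hx : r x x') {m : ℕ} (hm : Nat.card {y // r x y} = m) :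
    Nat.card (stabilizer G x) + Nat.card (st2 G x x') = m * Nat.card (st2 G x x') := by
  have h3 : Nat.card (orbit (stabilizer G x) x') * Nat.card (stabilizer (stabilizer G x) x') =
      Nat.card (stabilizer G x) := by
    rw [← Nat.card_prod]
    exact Nat.card_congr (orbitProdStabilizerEquivGroup (stabilizer G x) x')
  have h4 : Nat.card (stabilizer (stabilizer G x) x') = Nat.card (st2 G x x') := by
    refine Nat.card_eq_of_bijective (fun g : stabilizer (stabilizer G x) x' =>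
      (⟨g.1.1, g.1.2, g.2⟩ : st2 G x x')) ⟨?_, ?_⟩
    · intro g g' h
      have h' := congrArg Subtype.val h
      exact Subtype.ext (Subtype.ext h')
    · rintro ⟨g, hg1, hg2⟩
      exact ⟨⟨⟨g, hg1⟩, hg2⟩, rfl⟩
  have hfix : ∀ g : stabilizer G x, ∀ y : Ω, r x y → r x (g • y) := by
    intro g y hy
    have h5 := hr.map (g : G) x y hy
    have h6 : (g : G) • x = x := g.2
    rw [h6] at h5
    exact h5
  have hnefix : ∀ g : stabilizer G x, ∀ y : Ω, y ≠ x → g • y ≠ x := by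
    intro g y hy h5
    apply hy
    have h6 : (g : G) • x = x := g.2
    have h7 : (g : G) • y = (g : G) • x := by
      rw [h6]
      exact h5
    exact smul_left_cancel _ h7
  have h5 : Nat.card (Option (orbit (stabilizer G x) x')) = Nat.card {y // r x y} := by
    refine Nat.card_eq_of_bijective (fun o : Option (orbit (stabilizer G x) x') =>
      (match o with
        | none => ⟨x, hr.eqv.refl x⟩
        | some y => ⟨y.1, by
          obtain ⟨g, hg⟩ := y.2
          rw [← hg]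
          exact hfix g x' hx⟩ : {y // r x y})) ⟨?_, ?_⟩
    · have hor : ∀ y : orbit (stabilizer G x) x', y.1 ≠ x := by
        rintro ⟨y, g, rfl⟩
        exact hnefix g x' hne.symm
      rintro (_ | y) (_ | y') h
      · rfl
      · exact absurd (congrArg Subtype.val h).symm (hor y')
      · exact absurd (congrArg Subtype.val h) (hor y)
      · have h' := congrArg Subtype.val h
        congr 1
        exact Subtype.ext h'
    · rintro ⟨y, hy⟩
      by_cases hyx : y = x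
      · subst hyx
        exact ⟨none, rfl⟩
      · obtain ⟨g, hgx, hgy⟩ := h2 x x' y hx hy hne.symm hyx
        exact ⟨some ⟨y, ⟨⟨g, hgx⟩, hgy⟩⟩, rfl⟩
  have hfin : Finite (orbit (stabilizer G x) x') :=
    (Set.finite_range (fun g : stabilizer G x => g • x')).to_subtype
  rw [Finite.card_option, hm] at h5
  rw [← h3, h4, ← h5]
  ring

/-- **Two points of a proper block with doubly transitive group.**

Proof.  Suppose `chiJ < 4`; `chi_even`: `chiJ ≤ 2`.  `block_fun`, `exists_coord2`, `two_irr`: `DTm C`; `two_deg`: `deg ξ + 1 = C.n`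
(cancel `card st2 > 0`).  `genus_all` gives a finite set `T0` containing all ramified places of `ξ`;
`chi_coord`: `∑ over T0 of (ram ξ - 1) = 2 deg ξ + chiJ ≤ 2 deg ξ + 2`, and for every finite `T` the sum over `T` is at
most the sum over `T0` (`ram_pos`; terms outside `T0` are zero).  `wt_genus_two` with `ξ`, `ξ'`, and `irr_types2` (`DT_of_DTm`):
`TypAB C ∨ Ty333 C`, so `C` is wild (`galLe_of_333`, `galLe_wild`), a contradiction to `ht`. -/
theorem tame_four (hA : NormG A) (hS : Spl A N) (h : Inr R σ Q)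
    (ht : ∀ B C : RF, A.IsComp B C → 2 ≤ C.n → C.n < A.n → ¬ C.Wild)
    {r : Om A N → Om A N → Prop} (hr : Inv (N ≃ₐ[E] N) r) (hp : Ppr r)
    (h2 : ∀ x a b : Om A N, r x a → r x b → a ≠ x → b ≠ x →
      ∃ g : N ≃ₐ[E] N, g • x = x ∧ g • a = b) {x x' : Om A N}
    (hne : x ≠ x') (hx : r x x') (h28 : 28 ≤ Nat.card {z // r x z}) :
    4 ≤ chiJ R σ (st2 (N ≃ₐ[E] N) x x') := by
  classical
  by_contra hlt
  push Not at hlt
  obtain ⟨k, hk, hchi⟩ := chi_even h (st2 (N ≃ₐ[E] N) x x')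
  have hk1 : k ≤ 1 := by
    rw [hchi] at hlt
    have h1 : (k : ℚ) < 2 := by linarith
    have h2 : k < 2 := by exact_mod_cast h1
    omega
  obtain ⟨B, C, hcomp, hC, hCA, hrS, hcard⟩ := block_fun hA hS hr hp ⟨x, x', hne, hx⟩
  obtain ⟨ξ, ξ', hξ, heq, hf, hdeg⟩ := exists_coord2 hA hS hC hne ((hrS x x').1 hx)
  have hD : DTm C := two_irr hA hS hcomp hC hrS h2 x
  have hpos : 0 < Nat.card (st2 (N ≃ₐ[E] N) x x') := Nat.card_pos
  have hdC : deg ξ + 1 = C.n := by
    have h3 := two_deg hr h2 hne hx (hcard x)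
    rw [← hdeg] at h3
    have h4 : (deg ξ + 1) * Nat.card (st2 (N ≃ₐ[E] N) x x') =
        C.n * Nat.card (st2 (N ≃ₐ[E] N) x x') := by
      rw [← h3]
      ring
    exact Nat.eq_of_mul_eq_mul_right hpos h4
  obtain ⟨T0, k0, hT0, -, -⟩ := genus_all hf
  have hco := chi_coord h (st2 (N ≃ₐ[E] N) x x') ξ hT0
  have hsum0 : ∑ P ∈ T0, (ram ξ P - 1) ≤ 2 * (deg ξ : ℤ) + 2 := by
    rw [hchi] at hco
    have h3 : (2 * k : ℤ) = ∑ P ∈ T0, (ram ξ P - 1) - 2 * (deg ξ : ℤ) := by exact_mod_cast hco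
    linarith
  have hg : ∀ T : Finset (Pl (FJ (st2 (N ≃ₐ[E] N) x x'))),
      ∑ P ∈ T, (ram ξ P - 1) ≤ 2 * (deg ξ : ℤ) + 2 := by
    intro T
    have h1 : ∑ P ∈ T, (ram ξ P - 1) ≤ ∑ P ∈ T ∪ T0, (ram ξ P - 1) := by
      apply Finset.sum_le_sum_of_subset_of_nonneg Finset.subset_union_left
      intro P _ _
      have := ram_pos hf P
      omega
    rw [sum_ram_eq (T := T ∪ T0) (fun P hP => Finset.mem_union_right _ (hT0 P hP)) hT0] at h1
    exact h1.trans hsum0
  have h28' : 28 ≤ C.n := by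
    rw [← hcard x]
    exact h28
  have hty := irr_types2 h28' (DT_of_DTm hD) (wt_genus_two hC hD hf hξ heq hdC hg)
  refine ht B C hcomp hC.two hCA (galLe_wild hC.two ?_)
  rcases hty with h3 | h3
  · exact Or.inr h3
  · exact Or.inl (galLe_of_333 (le_trans (by norm_num) hC.two) h3)

end WildTA
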