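import Pool.Agent.helper44.TA.Chi
import Pool.Agent.helper44.LA.Defs

/-! The fixed field of a point stabilizer; existence of the inertia data. -/

namespace WildTA

open Polynomial WildRat WildS WildV WildG WildH MulAction WildT WildLA

/-- **Ramification of a composition.**  `θ X = A(φ X)`.

Proof.  `exists_chart`: `tpar (φ (elt A)) (A.val z) * aeval ξ H = ξ ^ (A.e z) * aeval ξ G` with
`P.ord ξ = ram φ P`, and `aeval ξ H`, `aeval ξ G` have order zero (`aeval_unit`), so
`P.ord (tpar (θ X) (A.val z)) = A.e z * ram φ P`; `ram_fib`, `ram_pole`. -/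
theorem ram_comp {K : Type} [Field K] [Algebra ℂ K] {A : RF} (hn : 1 ≤ A.n)
    {φ θ : E →ₐ[ℂ] K} (hφ : FinC φ) (hθ : θ RatFunc.X = φ (elt A)) {P : Pl K} {z : P1}
    (hz : Pt φ P z) : Pt θ P (A.val z) ∧ ram θ P = A.e z * ram φ P := by
  obtain ⟨ξ, G, H, hG, hH, hξr, hξ, -, heq⟩ := exists_chart hn hz
  obtain ⟨hG0, hG1⟩ := aeval_unit P hξ hG
  obtain ⟨hH0, hH1⟩ := aeval_unit P hξ hH
  have hξ0 : ξ ≠ 0 := by
    rintro rfl
    rw [P.ord_zero] at hξ
    exact lt_irrefl _ hξ
  have ht0 : tpar (φ (elt A)) (A.val z) ≠ 0 := by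
    intro h0
    rw [h0, zero_mul] at heq
    exact mul_ne_zero (pow_ne_zero _ hξ0) hG0 heq.symm
  have h1 := congrArg P.ord heq
  rw [P.ord_mul ht0 hH0, P.ord_mul (pow_ne_zero _ hξ0) hG0, P.ord_pow, hG1, hH1, add_zero,
    add_zero, hξr] at h1
  have hpos := Place_tpar_pos hn hz
  rw [← hθ] at h1 hpos
  cases hv : A.val z with
  | none =>
    rw [hv] at h1 hpos
    have h2 : P.ord (tpar (θ RatFunc.X) none) = - P.ord (θ RatFunc.X) := P.ord_inv _
    rw [h2] at h1 hpos
    have h3 : P.ord (θ RatFunc.X) < 0 := by omega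
    exact ⟨h3, by rw [ram_pole h3, h1]⟩
  | some c =>
    rw [hv] at h1 hpos
    have h3 : P ∈ fib θ c := hpos
    exact ⟨h3, by rw [ram_fib h3]; exact h1⟩

/-- A coordinate which is surjective has degree one, and no ramification.  Proof: `sum_pt` and
`ram_pos`. -/
theorem ram_of_surj {K : Type} [Field K] [Algebra ℂ K] {φ : E →ₐ[ℂ] K}
    (h : Function.Surjective φ) : FinC φ ∧ deg φ = 1 ∧ ∀ P, ram φ P = 1 := by
  have hfin : FinC φ := RingHom.Finite.of_surjective φ.toRingHom h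
  have hdeg : deg φ = 1 := by
    unfold deg
    let _ : Algebra E K := φ.toRingHom.toAlgebra
    rw [finrank_eq_one_iff_of_nonzero' (1 : K) one_ne_zero]
    intro w
    obtain ⟨c, hc⟩ := h w
    refine ⟨c, ?_⟩
    rw [Algebra.smul_def, mul_one]
    exact hc
  refine ⟨hfin, hdeg, fun P => ?_⟩
  obtain ⟨z, hz⟩ := exists_Pt hfin P
  obtain ⟨S, hS, hsum⟩ := sum_pt hfin z
  rw [hdeg] at hsum
  have h1 : ram φ P ≤ ∑ P ∈ S, ram φ P :=
    Finset.single_le_sum (f := fun P => ram φ P)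
      (fun P' _ => le_trans zero_le_one (ram_pos hfin P')) ((hS P).2 hz)
  have h2 := ram_pos hfin P
  rw [hsum] at h1
  push_cast at h1
  omega

private theorem Unr_surj {K : Type} [Field K] [Algebra ℂ K] {φ : E →ₐ[ℂ] K} (h : deg φ = 1) :
    Function.Surjective φ := by
  unfold deg at h
  let _ : Algebra E K := φ.toRingHom.toAlgebra
  rw [finrank_eq_one_iff_of_nonzero' (1 : K) one_ne_zero] at h
  intro v
  obtain ⟨c, hc⟩ := h v
  refine ⟨c, ?_⟩
  rw [Algebra.smul_def, mul_one] at hc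
  exact hc

variable {N : Type} [Field N] [Algebra ℂ N] [Algebra E N] [IsScalarTower ℂ E N]
  [FiniteDimensional E N] [IsGalois E N] {R : Finset ℂ} {σ : ℂ → (N ≃ₐ[E] N)} {Q : ℂ → Pl N}
  {A : RF}

omit [FiniteDimensional E N] [IsGalois E N] in
/-- The action is faithful.  Proof: `Spl.gen`. -/
theorem Spl.faith (hS : Spl A N) (g : N ≃ₐ[E] N) (h : ∀ x : Om A N, g • x = x) : g = 1 := by
  have h1 : IntermediateField.adjoin E {z : N | Sol A (cN N RatFunc.X) z} ≤
      IntermediateField.fixedField (Subgroup.zpowers g) := by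
    rw [IntermediateField.adjoin_le_iff]
    intro z hz
    rw [SetLike.mem_coe, IntermediateField.mem_fixedField_iff]
    intro k hk
    have h3 : Subgroup.zpowers g ≤ MulAction.stabilizer (N ≃ₐ[E] N) z := by
      rw [Subgroup.zpowers_le]
      exact congrArg Subtype.val (h ⟨z, hz⟩)
    exact h3 hk
  rw [hS.gen] at h1
  apply AlgEquiv.ext
  intro z
  exact (IntermediateField.mem_fixedField_iff _ _).1 (h1 IntermediateField.mem_top) g
    (Subgroup.mem_zpowers g)

omit [FiniteDimensional E N] in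
private theorem Unr_amb : ∃ δ : E →ₐ[ℂ] AlgebraicClosure N,
    (∀ v, δ v = algebraMap N (AlgebraicClosure N) (cN N v)) ∧ Amb δ := by
  refine ⟨(IsScalarTower.toAlgHom ℂ N (AlgebraicClosure N)).comp (cN N), fun v => rfl, ?_, ?_⟩
  · infer_instance
  · have h1 : (algebraMap E N).IsIntegral := by
      rw [algebraMap_isIntegral_iff]
      infer_instance
    have h2 : (algebraMap N (AlgebraicClosure N)).IsIntegral := by
      rw [algebraMap_isIntegral_iff]
      infer_instance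
    exact RingHom.IsIntegral.trans (algebraMap E N) (algebraMap N (AlgebraicClosure N)) h1 h2

omit [FiniteDimensional E N] [IsGalois E N] in
private theorem Unr_sol (x : Om A N) : Sol A (algebraMap N (AlgebraicClosure N) (cN N RatFunc.X))
    (algebraMap N (AlgebraicClosure N) (x : N)) := by
  have h1 : aeval (x : N) A.P = cN N RatFunc.X * aeval (x : N) A.Q := x.2
  unfold Sol
  rw [aeval_algebraMap_apply, aeval_algebraMap_apply, h1, map_mul]

omit [FiniteDimensional E N] in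
private theorem Unr_nonConst (hn : 1 ≤ A.n) (x : Om A N) : NonConst (x : N) := by
  obtain ⟨δ, hδ, hamb⟩ := Unr_amb (N := N)
  have hx := Unr_sol x
  rw [← hδ RatFunc.X] at hx
  obtain ⟨δz, h1, -, -⟩ := hamb.sol hn hx
  intro c hc
  apply coord_nonConst δz c
  rw [h1, hc, ← IsScalarTower.algebraMap_apply]

omit [FiniteDimensional E N] in
/-- The action is transitive.

Proof.  The minimal polynomial of a solution over `E` has degree `A.n`: the polynomial `P(T) - t Q(T)` over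
`E` is irreducible (`[ℂ(x) : ℂ(A(x))] = A.n`; for a solution `z` with coordinate `δz`, `δz X = z`
(`exists_subst`, `z` is not constant), `cN N = δz ∘ (X ↦ elt A)` on its range `ℂ(z)`, so
`[ℂ(z) : ℂ(t)] = A.n` by `deg_elt`), so all `A.n` solutions are conjugate.  (Or: extend to an algebraic
closure `L` of `N`, `Amb.trans`, `AlgEquiv.restrictNormal`.) -/
theorem Spl.trans (hn : 1 ≤ A.n) (hS : Spl A N) (x y : Om A N) : ∃ g : N ≃ₐ[E] N, g • x = y := by
  obtain ⟨δ, hδ, hamb⟩ := Unr_amb (N := N)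
  have hx := Unr_sol x
  have hy := Unr_sol y
  rw [← hδ RatFunc.X] at hx hy
  obtain ⟨τ, h1, h2⟩ := hamb.trans hn hx hy
  have h3 : ∀ v : E, τ (algebraMap E (AlgebraicClosure N) v) =
      algebraMap E (AlgebraicClosure N) v := by
    have h4 : (τ.toAlgHom.comp δ : E →ₐ[ℂ] AlgebraicClosure N) = δ := coord_ext h1
    intro v
    have h5 : τ (δ v) = δ v := DFunLike.congr_fun h4 v
    have h6 : δ v = algebraMap E (AlgebraicClosure N) v := by
      rw [hδ, IsScalarTower.algebraMap_apply E N (AlgebraicClosure N)]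
      rfl
    rw [h6] at h5
    exact h5
  let τ' : AlgebraicClosure N ≃ₐ[E] AlgebraicClosure N :=
    AlgEquiv.ofRingEquiv (f := τ.toRingEquiv) h3
  refine ⟨τ'.restrictNormal N, ?_⟩
  apply Subtype.ext
  rw [smul_val]
  apply (algebraMap N (AlgebraicClosure N)).injective
  rw [AlgEquiv.restrictNormal_commutes]
  exact h2

/-- **The coordinate `x` of the fixed field of the stabilizer of `x`.**

Proof.  `x` lies in the fixed field `F` (`mem_J`); it is not constant (`t = A(x)`), so `exists_subst` gives `δx`;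
`δx (elt A) = A(x) = t`: `P(x) = t Q(x)`, `Q(x) ≠ 0` (`coord_elt`).  Surjective: `deg (cJ) = card G / card (stabilizer) =
A.n` (`deg_J`, `Spl.trans`, orbit-stabilizer, `Spl.card`), and `cJ = δx ∘ (X ↦ elt A)` has degree
`A.n * deg δx` (`deg_comp`, `deg_elt`), so `deg δx = 1`. -/
theorem x_coord (hA : NormG A) (hS : Spl A N) (x : Om A N) :
    ∃ δx : E →ₐ[ℂ] FJ (stabilizer (N ≃ₐ[E] N) x), iJ _ (δx RatFunc.X) = (x : N) ∧
      Function.Surjective δx ∧ cJ (stabilizer (N ≃ₐ[E] N) x) RatFunc.X = δx (elt A) := by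
  have hn : 1 ≤ A.n := le_trans (by norm_num) hA.two
  obtain ⟨w, hw⟩ := (mem_J (stabilizer (N ≃ₐ[E] N) x) (x : N)).2
    (fun g hg => congrArg Subtype.val (mem_stabilizer_iff.1 hg))
  have hwc : NonConst w := by
    intro c hc
    apply Unr_nonConst hn x c
    rw [← hw, hc]
    exact (iJ _).commutes c
  obtain ⟨δx, hδx⟩ := exists_subst hwc
  have hcoord : cJ (stabilizer (N ≃ₐ[E] N) x) RatFunc.X = δx (elt A) := by
    apply iJ_inj (stabilizer (N ≃ₐ[E] N) x)
    have h1 : iJ (stabilizer (N ≃ₐ[E] N) x) (cJ _ RatFunc.X) = cN N RatFunc.X :=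
      DFunLike.congr_fun (iJ_comp (stabilizer (N ≃ₐ[E] N) x)) RatFunc.X
    have h2 : iJ (stabilizer (N ≃ₐ[E] N) x) (δx (elt A)) =
        ((iJ (stabilizer (N ≃ₐ[E] N) x)).comp δx) (elt A) := rfl
    rw [h1, h2, coord_elt]
    have h3 : ((iJ (stabilizer (N ≃ₐ[E] N) x)).comp δx) RatFunc.X = (x : N) := by
      rw [AlgHom.comp_apply, hδx, hw]
    rw [h3]
    have hQ : aeval (x : N) A.Q ≠ 0 := (Unr_nonConst hn x).aeval_ne_zero (A.Q_ne_zero hn)
    have h4 : aeval (x : N) A.P = cN N RatFunc.X * aeval (x : N) A.Q := x.2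
    unfold RF.app
    rw [h4, mul_div_cancel_right₀ _ hQ]
  refine ⟨δx, by rw [hδx, hw], ?_, hcoord⟩
  obtain ⟨α, hα⟩ := exists_subst (elt_nonConst A hn)
  have hcomp : cJ (stabilizer (N ≃ₐ[E] N) x) = δx.comp α := by
    apply coord_ext
    rw [hcoord, AlgHom.comp_apply, hα]
  have hd1 : deg (cJ (stabilizer (N ≃ₐ[E] N) x)) = A.n * deg δx := by
    rw [hcomp, deg_comp, deg_elt A hn α hα]
  have hcard : Nat.card (N ≃ₐ[E] N) = A.n * Nat.card (stabilizer (N ≃ₐ[E] N) x) := by
    have h1 := MulAction.index_stabilizer (N ≃ₐ[E] N) x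
    have h2 : orbit (N ≃ₐ[E] N) x = Set.univ := by
      rw [Set.eq_univ_iff_forall]
      intro y
      exact hS.trans hn x y
    rw [h2, Set.ncard_univ, hS.card] at h1
    rw [← h1, mul_comm]
    exact (Subgroup.card_mul_index _).symm
  have hd2 := deg_J (stabilizer (N ≃ₐ[E] N) x)
  rw [hcard, hd1] at hd2
  have hpos : 0 < Nat.card (stabilizer (N ≃ₐ[E] N) x) := Nat.card_pos
  have hd3 := Nat.eq_of_mul_eq_mul_right hpos hd2
  have hd4 : deg δx = 1 := by
    have h1 : A.n * deg δx = A.n * 1 := by rw [hd3, mul_one]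
    exact Nat.eq_of_mul_eq_mul_left (by omega) h1
  exact Unr_surj hd4

/-- **Unramified points.**  If all indices of `A` over `p` are one, the stabilizers of the places over `p` are
trivial.

Proof.  Let `σ` generate the stabilizer of `Q` (`dec_cyclic`), `x ∈ Om`, `J = stabilizer x`.  All places `P` of `FJ J`
over `p` have `ram (cJ J) P = A.e z * 1 = 1` (`x_coord`, `ram_of_surj`, `exists_Pt`, `ram_comp`), so their number is
`deg (cJ J)` (`sum_pt`).  `cnt` and `deg_J`: `∑ g, 1 / period σ (g J) = card G`, so all the periods are one: `σ` fixes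
all `g x`, i.e. all solutions (`Spl.trans`), so `σ = 1` (`Spl.faith`). -/
theorem stab_triv (hA : NormG A) (hS : Spl A N) {p : P1} (hp : ∀ z, A.val z = p → A.e z = 1)
    {Q : Pl N} (hQ : Pt (cN N) Q p) {g : N ≃ₐ[E] N} (hg : g • Q = Q) : g = 1 := by
  classical
  have hn : 1 ≤ A.n := le_trans (by norm_num) hA.two
  obtain ⟨σ, hσ⟩ := dec_cyclic Q
  have key : σ = 1 := by
    apply hS.faith
    intro x
    obtain ⟨δx, -, hsurj, hcoord⟩ := x_coord hA hS x
    obtain ⟨hfin, -, hram⟩ := ram_of_surj hsurj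
    have hone : ∀ P : Pl (FJ (stabilizer (N ≃ₐ[E] N) x)),
        Pt (cJ (stabilizer (N ≃ₐ[E] N) x)) P p → ram (cJ (stabilizer (N ≃ₐ[E] N) x)) P = 1 := by
      intro P hP
      obtain ⟨z, hz⟩ := exists_Pt hfin P
      obtain ⟨h1, h2⟩ := ram_comp hn hfin hcoord hz
      rw [h2, hram, hp z (Pt_unique h1 hP)]
      norm_num
    obtain ⟨S, hS1, hS2⟩ := sum_pt (finC_J (stabilizer (N ≃ₐ[E] N) x)) p
    have h3 : (S.card : ℤ) = deg (cJ (stabilizer (N ≃ₐ[E] N) x)) := by
      rw [← hS2, Finset.sum_congr rfl (fun P hP => hone P ((hS1 P).1 hP))]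
      simp
    have h3' : S.card = deg (cJ (stabilizer (N ≃ₐ[E] N) x)) := by exact_mod_cast h3
    have h4 : {P : Pl (FJ (stabilizer (N ≃ₐ[E] N) x)) |
        Pt (cJ (stabilizer (N ≃ₐ[E] N) x)) P p}.ncard = S.card := by
      rw [← Set.ncard_coe_finset]
      congr 1
      ext P
      rw [Finset.mem_coe, hS1]
      rfl
    have h5 := cnt hQ hσ (stabilizer (N ≃ₐ[E] N) x)
    rw [h4, h3'] at h5
    have hpos : (0 : ℚ) < Nat.card (stabilizer (N ≃ₐ[E] N) x) := by
      exact_mod_cast (Nat.card_pos : 0 < Nat.card (stabilizer (N ≃ₐ[E] N) x))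
    have h6 : (∑ g : N ≃ₐ[E] N,
        1 / (period σ (g : (N ≃ₐ[E] N) ⧸ stabilizer (N ≃ₐ[E] N) x) : ℚ)) =
        ∑ _g : N ≃ₐ[E] N, (1 : ℚ) := by
      rw [eq_div_iff hpos.ne'] at h5
      rw [← h5, Finset.sum_const, Finset.card_univ, nsmul_eq_mul, mul_one,
        ← Nat.card_eq_fintype_card]
      exact_mod_cast deg_J (stabilizer (N ≃ₐ[E] N) x)
    have hle : ∀ g : N ≃ₐ[E] N,
        1 / (period σ (g : (N ≃ₐ[E] N) ⧸ stabilizer (N ≃ₐ[E] N) x) : ℚ) ≤ 1 := by
      intro g
      have h7 : 0 < period σ (g : (N ≃ₐ[E] N) ⧸ stabilizer (N ≃ₐ[E] N) x) := by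
        apply MulAction.period_pos_of_orderOf_pos
        exact orderOf_pos σ
      rw [div_le_one (by exact_mod_cast h7)]
      exact_mod_cast h7
    have h8 := (Finset.sum_eq_sum_iff_of_le (fun g _ => hle g)).1 h6 1 (Finset.mem_univ _)
    have h9 : period σ ((1 : N ≃ₐ[E] N) : (N ≃ₐ[E] N) ⧸ stabilizer (N ≃ₐ[E] N) x) = 1 := by
      have h10 : ((period σ ((1 : N ≃ₐ[E] N) : (N ≃ₐ[E] N) ⧸ stabilizer (N ≃ₐ[E] N) x) : ℕ) : ℚ) =
          1 := by
        rw [one_div, inv_eq_one] at h8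
        exact h8
      exact_mod_cast h10
    rw [MulAction.period_eq_one_iff, MulAction.Quotient.smul_mk, QuotientGroup.eq] at h9
    rw [smul_eq_mul, mul_one, mul_one, Subgroup.inv_mem_iff, mem_stabilizer_iff] at h9
    exact h9
  have h1 := (hσ g).1 hg
  rw [key] at h1
  simpa using h1

/-- **The inertia data exist.**  Proof: for every `c ∈ ℂ` choose a place (`exists_over`) and a generator of its
stabilizer (`dec_cyclic`); `R = crit A` (`mem_crit`), `stab_triv`; infinity: `NormG.unram`. -/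
theorem exists_Inr (hA : NormG A) (hS : Spl A N) :
    ∃ (R : Finset ℂ) (σ : ℂ → (N ≃ₐ[E] N)) (Q : ℂ → Pl N), Inr R σ Q := by
  have hn : 1 ≤ A.n := le_trans (by norm_num) hA.two
  choose Q hQ using fun c : ℂ => exists_over (finC_N (N := N)) (some c)
  choose σ hσ using fun c : ℂ => dec_cyclic (Q c)
  refine ⟨crit A, σ, Q, hQ, hσ, ?_, ?_⟩
  · intro c hc
    refine stab_triv hA hS (p := some c) ?_ (hQ c) ((hσ c _).2 (Subgroup.mem_zpowers _))
    intro z hz
    by_contra h
    apply hc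
    rw [mem_crit hn]
    cases z with
    | none =>
      rw [Quad_val_none A hA.lt] at hz
      exact absurd hz (by simp)
    | some a => exact ⟨a, hz, h⟩
  · intro Q' hQ' g hg
    exact stab_triv hA hS hA.unram hQ' hg

/-- **The base.**  Proof: `chi_coord` for the coordinate `δx` of `x_coord` with `T = ∅` (`ram_of_surj`). -/
theorem chi_base (hA : NormG A) (hS : Spl A N) (h : Inr R σ Q) (x : Om A N) :
    chiJ R σ (stabilizer (N ≃ₐ[E] N) x) = -2 := by
  obtain ⟨δx, -, hsurj, -⟩ := x_coord hA hS x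
  obtain ⟨-, hdeg, hram⟩ := ram_of_surj hsurj
  rw [chi_coord h (stabilizer (N ≃ₐ[E] N) x) δx (T := ∅) (fun P hP => absurd (hram P) hP), hdeg]
  norm_num

/-- **Orders.**  Proof: `oc` is the least common multiple of the indices `A.e z` over `some c`.  For `z` over
`some c` let `P` be a place of `FJ (stabilizer x)` with `Pt δx P z` (`exists_over`), `Q'` with `rJ _ Q' = P`
(`rJ_surj`).  `ram (cN N) Q' = eJ * ram (cJ) P = eJ * A.e z` (`rJ_ram`, `ram_comp`, `ram_of_surj`), and
`ram (cN N) Q' = ram (cN N) (Q c) = orderOf (σ c)` (`rJ_pt`, `N_trans`, `act_ram`, `ram_N`). -/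
theorem oc_dvd (hA : NormG A) (hS : Spl A N) (h : Inr R σ Q) (c : ℂ) :
    oc A (some c) ∣ orderOf (σ c) := by
  have hn : 1 ≤ A.n := le_trans (by norm_num) hA.two
  unfold oc
  rw [Multiset.lcm_dvd]
  intro e he
  obtain ⟨z, hz, rfl⟩ := Multiset.mem_map.1 he
  have hzc : A.val z = some c := (mem_fibP hn).1 hz
  have hne : Nonempty (Om A N) := by
    by_contra hcon
    rw [not_nonempty_iff] at hcon
    have h1 := hS.card
    rw [Nat.card_of_isEmpty] at h1
    omega
  obtain ⟨x⟩ := hne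
  obtain ⟨δx, -, hsurj, hcoord⟩ := x_coord hA hS x
  obtain ⟨hfin, -, hram⟩ := ram_of_surj hsurj
  obtain ⟨P, hP⟩ := exists_over hfin z
  obtain ⟨Q', hQ'⟩ := rJ_surj (stabilizer (N ≃ₐ[E] N) x) P
  obtain ⟨h1, h2⟩ := ram_comp hn hfin hcoord hP
  rw [hram, mul_one] at h2
  rw [hzc, ← hQ', rJ_pt] at h1
  obtain ⟨g, hg⟩ := N_trans (h.pt c) h1
  have h3 := rJ_ram (stabilizer (N ≃ₐ[E] N) x) Q'
  rw [hQ', h2, ← hg, act_ram, ram_N (h.pt c) (h.dec c)] at h3
  have h4 : orderOf (σ c) = eJ (stabilizer (N ≃ₐ[E] N) x) (g • Q c) * A.e z := by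
    exact_mod_cast h3
  exact ⟨_, by rw [h4, mul_comm]⟩

/-- **Not a small Galois closure.**

Proof.  There is a finite set `T` of values with `∑ (1 - 1 / oc) > 2`; infinity does not contribute
(`NormG.unram`: `oc = 1`, `Final_term_zero` in LA/Final.lean), the other values by `oc_dvd`
contribute at most `1 - 1 / orderOf (σ c)`, which is zero outside `R` (`unr`). -/
theorem chi_gal (hA : NormG A) (hS : Spl A N) (h : Inr R σ Q) (hG : ¬ GalLe A) :
    2 < ∑ c ∈ R, (1 - 1 / (orderOf (σ c) : ℚ)) := by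
  classical
  have hn : 1 ≤ A.n := le_trans (by norm_num) hA.two
  unfold GalLe at hG
  push Not at hG
  obtain ⟨T, hT⟩ := hG
  refine lt_of_lt_of_le hT ?_
  have hone : oc A none = 1 := by
    have h1 : oc A none ∣ 1 := by
      unfold oc
      rw [Multiset.lcm_dvd]
      intro e he
      obtain ⟨z, hz, rfl⟩ := Multiset.mem_map.1 he
      rw [hA.unram z ((mem_fibP hn).1 hz)]
    exact Nat.dvd_one.1 h1
  have hpos : ∀ c : ℂ, 0 < orderOf (σ c) := fun c => orderOf_pos (σ c)
  have hocpos : ∀ c : ℂ, 0 < oc A (some c) := fun c =>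
    Nat.pos_of_dvd_of_pos (oc_dvd hA hS h c) (hpos c)
  have hterm : ∀ c : ℂ, (1 - 1 / (oc A (some c) : ℚ)) ≤ 1 - 1 / (orderOf (σ c) : ℚ) := by
    intro c
    have h1 := Nat.le_of_dvd (hpos c) (oc_dvd hA hS h c)
    have h2 : (1 : ℚ) / (orderOf (σ c) : ℚ) ≤ 1 / (oc A (some c) : ℚ) := by
      apply one_div_le_one_div_of_le
      · exact_mod_cast hocpos c
      · exact_mod_cast h1
    linarith
  have hnn : ∀ c : ℂ, (0 : ℚ) ≤ 1 - 1 / (orderOf (σ c) : ℚ) := by
    intro c
    have h1 : (1 : ℚ) / (orderOf (σ c) : ℚ) ≤ 1 := by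
      rw [div_le_one (by exact_mod_cast hpos c)]
      exact_mod_cast hpos c
    linarith
  have h1 : ∑ c ∈ T, (1 - 1 / (oc A c : ℚ)) =
      ∑ c ∈ Finset.eraseNone T, (1 - 1 / (oc A (some c) : ℚ)) := by
    have h2 : ∑ c ∈ (Finset.eraseNone T).map Function.Embedding.some, (1 - 1 / (oc A c : ℚ)) =
        ∑ c ∈ Finset.eraseNone T, (1 - 1 / (oc A (some c) : ℚ)) := by
      rw [Finset.sum_map]
      rfl
    rw [← h2]
    symm
    apply Finset.sum_subset
    · intro c hc
      obtain ⟨c', hc', rfl⟩ := Finset.mem_map.1 hc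
      exact Finset.mem_eraseNone.1 hc'
    · intro c hc hc'
      cases c with
      | none => rw [hone]; norm_num
      | some c' =>
        exact absurd (Finset.mem_map.2 ⟨c', Finset.mem_eraseNone.2 hc, rfl⟩) hc'
  have h3 : ∑ c ∈ Finset.eraseNone T, (1 - 1 / (orderOf (σ c) : ℚ)) ≤
      ∑ c ∈ Finset.eraseNone T ∪ R, (1 - 1 / (orderOf (σ c) : ℚ)) :=
    Finset.sum_le_sum_of_subset_of_nonneg Finset.subset_union_left fun c _ _ => hnn c
  have h4 : ∑ c ∈ R, (1 - 1 / (orderOf (σ c) : ℚ)) =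
      ∑ c ∈ Finset.eraseNone T ∪ R, (1 - 1 / (orderOf (σ c) : ℚ)) := by
    apply Finset.sum_subset Finset.subset_union_right
    intro c _ hc
    rw [h.unr c hc, orderOf_one]
    norm_num
  rw [h1, h4]
  exact le_trans (Finset.sum_le_sum fun c _ => hterm c) h3

end WildTA
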